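import Pool.Agent.R979.OC.Stm

namespace Pool.Agent.R979.OC

open MeasureTheory Set Filter Topology

/-- the `i`-th term as a function of `r` -/
noncomputable def Fi (s : ℂ) (i : ℕ) (r : ℝ) : ℂ :=
  2 * Complex.exp (-(s + 1 + 4 * i) * r) - 2 * Complex.exp (-(s + 3 + 4 * i) * r)

theorem Fi_integrable (s : ℂ) (hs : -1 < s.re) (i : ℕ) :
    IntegrableOn (Fi s i) (Ioi 0) := by
  have h1 : (-(s + 1 + 4 * i)).re < 0 := by
    have : (-(s + 1 + 4 * (i : ℂ))).re = -(s.re + 1 + 4 * i) := by simp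
    rw [this]
    have : (0 : ℝ) ≤ i := Nat.cast_nonneg i
    linarith
  have h2 : (-(s + 3 + 4 * i)).re < 0 := by
    have : (-(s + 3 + 4 * (i : ℂ))).re = -(s.re + 3 + 4 * i) := by simp
    rw [this]
    have : (0 : ℝ) ≤ i := Nat.cast_nonneg i
    linarith
  exact ((integrableOn_exp_mul_complex_Ioi h1 0).const_mul 2).sub
    ((integrableOn_exp_mul_complex_Ioi h2 0).const_mul 2)

theorem Fi_integral (s : ℂ) (hs : -1 < s.re) (i : ℕ) :
    ∫ r in Ioi (0 : ℝ), Fi s i r = 2 / (s + 1 + 4 * i) - 2 / (s + 3 + 4 * i) := by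
  have h1 : (-(s + 1 + 4 * i)).re < 0 := by
    have : (-(s + 1 + 4 * (i : ℂ))).re = -(s.re + 1 + 4 * i) := by simp
    rw [this]
    have : (0 : ℝ) ≤ i := Nat.cast_nonneg i
    linarith
  have h2 : (-(s + 3 + 4 * i)).re < 0 := by
    have : (-(s + 3 + 4 * (i : ℂ))).re = -(s.re + 3 + 4 * i) := by simp
    rw [this]
    have : (0 : ℝ) ≤ i := Nat.cast_nonneg i
    linarith
  unfold Fi
  rw [integral_sub ((integrableOn_exp_mul_complex_Ioi h1 0).const_mul 2)
    ((integrableOn_exp_mul_complex_Ioi h2 0).const_mul 2)]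
  rw [integral_const_mul, integral_const_mul, integral_exp_mul_complex_Ioi h1,
    integral_exp_mul_complex_Ioi h2]
  simp only [Complex.ofReal_zero, mul_zero, Complex.exp_zero]
  rw [neg_div_neg_eq, neg_div_neg_eq]
  ring

theorem Fi_norm (s : ℂ) (i : ℕ) (r : ℝ) (hr : 0 < r) :
    ((‖Fi s i r‖ : ℝ) : ℂ) = Fi s.re i r := by
  have h1 : Fi s i r = Complex.exp (-(s.im * r) * Complex.I) *
      ((2 * Real.exp (-(s.re + 1 + 4 * i) * r) - 2 * Real.exp (-(s.re + 3 + 4 * i) * r) : ℝ) : ℂ) := by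
    unfold Fi
    push_cast
    rw [mul_sub, mul_left_comm, mul_left_comm (Complex.exp (-(s.im * r) * Complex.I)),
      ← Complex.exp_add, ← Complex.exp_add]
    have hre := Complex.re_add_im s
    congr 3
    · linear_combination (r : ℂ) * hre
    · linear_combination (r : ℂ) * hre
  have h2 : Fi s.re i r =
      ((2 * Real.exp (-(s.re + 1 + 4 * i) * r) - 2 * Real.exp (-(s.re + 3 + 4 * i) * r) : ℝ) : ℂ) := by
    unfold Fi
    push_cast
    ring_nf
  rw [h1, h2, norm_mul, Complex.norm_real]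
  have h3 : ‖Complex.exp (-(s.im * r) * Complex.I)‖ = 1 := by
    rw [← Complex.ofReal_mul, ← Complex.ofReal_neg, Complex.norm_exp_ofReal_mul_I]
  rw [h3, one_mul, Real.norm_of_nonneg]
  have : Real.exp (-(s.re + 3 + 4 * i) * r) ≤ Real.exp (-(s.re + 1 + 4 * i) * r) := by
    apply Real.exp_le_exp.mpr
    nlinarith
  linarith

theorem summable_aux (a : ℝ) (ha : -1 < a) :
    Summable fun i : ℕ => 2 / (a + 1 + 4 * i) - 2 / (a + 3 + 4 * i) := by
  apply summable_of_sum_range_le (c := 2 / (a + 1))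
  · intro i
    have hi : (0 : ℝ) ≤ i := Nat.cast_nonneg i
    rw [sub_nonneg]
    apply div_le_div_of_nonneg_left (by norm_num) (by linarith) (by linarith)
  · intro n
    have key : ∀ n : ℕ, ∑ i ∈ Finset.range n, (2 / (a + 1 + 4 * i) - 2 / (a + 3 + 4 * i)) ≤
        2 / (a + 1) - 2 / (a + 1 + 4 * n) := by
      intro n
      induction n with
      | zero => simp
      | succ n ih =>
        rw [Finset.sum_range_succ]
        have hn : (0 : ℝ) ≤ n := Nat.cast_nonneg n
        have h1 : 2 / (a + 1 + 4 * ((n + 1 : ℕ) : ℝ)) ≤ 2 / (a + 3 + 4 * n) := by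
          push_cast
          apply div_le_div_of_nonneg_left (by norm_num) (by linarith) (by linarith)
        linarith
    refine (key n).trans ?_
    have : 0 ≤ 2 / (a + 1 + 4 * (n : ℝ)) := by
      have hn : (0 : ℝ) ≤ n := Nat.cast_nonneg n
      apply div_nonneg (by norm_num) (by linarith)
    linarith

theorem Fi_tsum (s : ℂ) (r : ℝ) (hr : 0 < r) :
    ∑' i : ℕ, Fi s i r = Complex.exp (-(s * r)) / (Real.cosh r : ℂ) := by
  have hx : Real.exp (-4 * r) < 1 := by
    rw [Real.exp_lt_one_iff]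
    linarith
  have hterm : ∀ i : ℕ, Fi s i r = (2 * Complex.exp (-(s + 1) * r) *
      (1 - Complex.exp (-2 * r))) * (Complex.exp (-4 * r)) ^ i := by
    intro i
    unfold Fi
    rw [← Complex.exp_nat_mul]
    have e1 : Complex.exp (-(s + 1 + 4 * i) * r) =
        Complex.exp (-(s + 1) * r) * Complex.exp (i * (-4 * r)) := by
      rw [← Complex.exp_add]; congr 1; ring
    have e2 : Complex.exp (-(s + 3 + 4 * i) * r) =
        Complex.exp (-(s + 1) * r) * Complex.exp (-2 * r) * Complex.exp (i * (-4 * r)) := by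
      rw [← Complex.exp_add, ← Complex.exp_add]; congr 1; ring
    rw [e1, e2]
    ring
  have hn : ‖Complex.exp (-4 * r)‖ < 1 := by
    have : Complex.exp (-4 * r) = ((Real.exp (-4 * r) : ℝ) : ℂ) := by push_cast; rfl
    rw [this, Complex.norm_real, Real.norm_of_nonneg (Real.exp_pos _).le]
    exact hx
  have hs := (hasSum_geometric_of_norm_lt_one hn).mul_left
    (2 * Complex.exp (-(s + 1) * r) * (1 - Complex.exp (-2 * r)))
  rw [funext hterm, hs.tsum_eq]
  set x : ℝ := Real.exp (-r) with hxdef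
  have hx0 : 0 < x := Real.exp_pos _
  have hx1 : x < 1 := by rw [hxdef, Real.exp_lt_one_iff]; linarith
  have c1 : Complex.exp (-4 * r) = ((x ^ 4 : ℝ) : ℂ) := by
    rw [hxdef, ← Real.exp_nat_mul]; push_cast; congr 1; ring
  have c2 : Complex.exp (-2 * r) = ((x ^ 2 : ℝ) : ℂ) := by
    rw [hxdef, ← Real.exp_nat_mul]; push_cast; congr 1; ring
  have c3 : Complex.exp (-(s + 1) * r) = Complex.exp (-(s * r)) * (x : ℂ) := by
    rw [hxdef]; push_cast; rw [← Complex.exp_add]; congr 1; ring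
  have c4 : Real.cosh r = (x⁻¹ + x) / 2 := by
    rw [Real.cosh_eq, hxdef, Real.exp_neg, inv_inv]
  rw [c1, c2, c3, c4]
  have hxc : (x : ℂ) ≠ 0 := by exact_mod_cast hx0.ne'
  have h4 : (1 - (x : ℂ) ^ 4) ≠ 0 := by
    have : (1 : ℝ) - x ^ 4 ≠ 0 := by
      have : x ^ 4 < 1 := pow_lt_one₀ hx0.le hx1 (by norm_num)
      linarith
    exact_mod_cast this
  have h2 : (1 + (x : ℂ) ^ 2) ≠ 0 := by
    have : (1 : ℝ) + x ^ 2 ≠ 0 := by positivity
    exact_mod_cast this
  have h5 : ((x : ℂ)⁻¹ + x) ≠ 0 := by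
    have : x⁻¹ + x ≠ 0 := by positivity
    exact_mod_cast this
  push_cast
  field_simp
  ring

theorem L1 (z : ℂ) (hz : -1 < z.re) :
    HasSum (fun i : ℕ => 1 / (z + 1 + 2 * i) - 1 / (z + 2 + 2 * i)) (K (2 * z + 1)) := by
  set s : ℂ := 2 * z + 1 with hs
  have hsre : -1 < s.re := by
    rw [hs]; simp; linarith
  have hnorm : ∀ i : ℕ, ∫ r in Ioi (0 : ℝ), ‖Fi s i r‖ =
      2 / (s.re + 1 + 4 * i) - 2 / (s.re + 3 + 4 * i) := by
    intro i
    have h1 : ((∫ r in Ioi (0 : ℝ), ‖Fi s i r‖ : ℝ) : ℂ) = ∫ r in Ioi (0 : ℝ), Fi (s.re : ℂ) i r := by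
      rw [← integral_complex_ofReal]
      apply setIntegral_congr_fun measurableSet_Ioi
      intro r hr
      exact Fi_norm s i r hr
    rw [Fi_integral (s.re : ℂ) (by simpa using hsre)] at h1
    have h2 : (2 / ((s.re : ℂ) + 1 + 4 * i) - 2 / ((s.re : ℂ) + 3 + 4 * i)) =
        ((2 / (s.re + 1 + 4 * i) - 2 / (s.re + 3 + 4 * i) : ℝ) : ℂ) := by push_cast; ring
    rw [h2] at h1
    exact_mod_cast h1
  have hsum := hasSum_integral_of_summable_integral_norm (μ := volume.restrict (Ioi (0 : ℝ)))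
    (F := fun i r => Fi s i r) (fun i => Fi_integrable s hsre i)
    (by
      simp only [hnorm]
      exact summable_aux s.re hsre)
  have hK : (∫ r in Ioi (0 : ℝ), ∑' i, Fi s i r) = K s := by
    unfold K
    apply setIntegral_congr_fun measurableSet_Ioi
    intro r hr
    exact Fi_tsum s r hr
  rw [hK] at hsum
  refine hsum.congr_fun ?_ |> id
  intro i
  rw [Fi_integral s hsre]
  have e1 : s + 1 + 4 * (i : ℂ) = 2 * (z + 1 + 2 * i) := by rw [hs]; ring
  have e2 : s + 3 + 4 * (i : ℂ) = 2 * (z + 2 + 2 * i) := by rw [hs]; ring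
  rw [e1, e2]
  have t : ∀ w : ℂ, 2 / (2 * w) = 1 / w := by
    intro w
    have := mul_div_mul_left (1 : ℂ) w (two_ne_zero)
    rw [mul_one] at this
    exact this
  rw [t, t]

/-- The terms of `gstar`. -/
noncomputable def At (z : ℂ) (i : ℕ) : ℂ := 1 / (z - (2 * i : ℕ)) - 1 / (z - (2 * i + 1 : ℕ))

theorem At_eq (z : ℂ) (i : ℕ) :
    At z i = -(1 / ((-1 - z) + 1 + 2 * i) - 1 / ((-1 - z) + 2 + 2 * i)) := by
  unfold At
  have e1 : (-1 - z) + 1 + 2 * (i : ℂ) = -(z - (2 * i : ℕ)) := by push_cast; ring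
  have e2 : (-1 - z) + 2 + 2 * (i : ℂ) = -(z - (2 * i + 1 : ℕ)) := by push_cast; ring
  rw [e1, e2, one_div_neg_eq_neg_one_div, one_div_neg_eq_neg_one_div]
  ring

theorem At_summable (z : ℂ) : Summable (At z) := by
  obtain ⟨N, hN⟩ := exists_nat_gt z.re
  rw [← summable_nat_add_iff N]
  have h := (L1 (2 * N - 1 - z) (by
    have : ((2 * (N : ℂ) - 1 - z)).re = 2 * N - 1 - z.re := by simp
    rw [this]
    have : (0 : ℝ) ≤ N := Nat.cast_nonneg N
    rcases le_or_gt 0 z.re with h0 | h0 <;> linarith)).summable.neg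
  refine h.congr ?_
  intro i
  rw [At_eq]
  have e1 : (-1 - z) + 1 + 2 * ((i + N : ℕ) : ℂ) = (2 * N - 1 - z) + 1 + 2 * i := by
    push_cast; ring
  have e2 : (-1 - z) + 2 + 2 * ((i + N : ℕ) : ℂ) = (2 * N - 1 - z) + 2 + 2 * i := by
    push_cast; ring
  rw [e1, e2]

theorem inv_half (w : ℂ) (n : ℂ) : 1 / (w / 2 - n) = 2 / (w - 2 * n) := by
  have : w / 2 - n = (w - 2 * n) / 2 := by ring
  rw [this, one_div_div]

theorem partial_id (z : ℂ) (hz : z ≠ 0) (n : ℕ) :
    ∑ i ∈ Finset.range n, At z i -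
      ∑ i ∈ Finset.range n, (1 / (z + 1 + 2 * i) - 1 / (z + 2 + 2 * i)) =
    (∑ i ∈ Finset.range n, (1 / (z / 2 - ((i : ℂ) + 1)) + 1 / (z / 2 + ((i : ℂ) + 1)))) -
    (∑ i ∈ Finset.range (2 * n), (1 / (z - ((i : ℂ) + 1)) + 1 / (z + ((i : ℂ) + 1)))) +
    1 / z - 1 / (z - 2 * n) := by
  induction n with
  | zero => simp
  | succ n ih =>
    rw [Finset.sum_range_succ, Finset.sum_range_succ (fun i : ℕ => (1 / (z + 1 + 2 * (i : ℂ)) - 1 / (z + 2 + 2 * (i : ℂ)))),
      Finset.sum_range_succ (fun i : ℕ => (1 / (z / 2 - ((i : ℂ) + 1)) + 1 / (z / 2 + ((i : ℂ) + 1))))]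
    rw [show 2 * (n + 1) = 2 * n + 1 + 1 by ring, Finset.sum_range_succ _ (2 * n + 1),
      Finset.sum_range_succ _ (2 * n)]
    have e1 : 1 / (z / 2 - ((n : ℂ) + 1)) = 2 / (z - 2 * ((n : ℂ) + 1)) := inv_half _ _
    have e2 : 1 / (z / 2 + ((n : ℂ) + 1)) = 2 / (z + 2 * ((n : ℂ) + 1)) := by
      have := inv_half z (-((n : ℂ) + 1))
      rw [sub_neg_eq_add] at this
      rw [this]
      congr 1
      ring
    have hA : At z n = 1 / (z - 2 * (n : ℂ)) - 1 / (z - (2 * (n : ℂ) + 1)) := by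
      unfold At; push_cast; rfl
    rw [e1, e2, hA]
    push_cast
    have d1 : z - 2 * ((n : ℂ) + 1) = z - (2 * n + 1 + 1) := by ring
    have d2 : z + 2 * ((n : ℂ) + 1) = z + (2 * n + 1 + 1) := by ring
    have d3 : z + 1 + 2 * (n : ℂ) = z + (2 * n + 1) := by ring
    have d4 : z + 2 + 2 * (n : ℂ) = z + (2 * n + 1 + 1) := by ring
    rw [d1, d2, d3, d4]
    have h2 : (2 : ℂ) / (z - (2 * n + 1 + 1)) = 1 / (z - (2 * n + 1 + 1)) + 1 / (z - (2 * n + 1 + 1)) := by
      rw [← add_div]; norm_num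
    have h3 : (2 : ℂ) / (z + (2 * n + 1 + 1)) = 1 / (z + (2 * n + 1 + 1)) + 1 / (z + (2 * n + 1 + 1)) := by
      rw [← add_div]; norm_num
    rw [h2, h3]
    linear_combination ih

theorem cot_half (w : ℂ) (hs : Complex.sin w ≠ 0) :
    Complex.cot (w / 2) - Complex.cot w = 1 / Complex.sin w := by
  have hsin : Complex.sin w = 2 * Complex.sin (w / 2) * Complex.cos (w / 2) := by
    rw [← Complex.sin_two_mul]; congr 1; ring
  have hcos : Complex.cos w = 2 * Complex.cos (w / 2) ^ 2 - 1 := by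
    rw [← Complex.cos_two_mul]; congr 1; ring
  have h1 : Complex.sin (w / 2) ≠ 0 := by
    intro h; apply hs; rw [hsin, h]; ring
  have h2 : Complex.cos (w / 2) ≠ 0 := by
    intro h; apply hs; rw [hsin, h]; ring
  rw [Complex.cot_eq_cos_div_sin, Complex.cot_eq_cos_div_sin, hcos, hsin]
  field_simp
  ring

theorem L2 (z : ℂ) (hz : -1 < z.re) (hi : z ∈ Complex.integerComplement) :
    ∑' i, At z i = Real.pi / Complex.sin (Real.pi * z) + K (2 * z + 1) := by
  have hz0 : z ≠ 0 := Complex.integerComplement.ne_zero hi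
  have hi2 : z / 2 ∈ Complex.integerComplement := by
    rintro ⟨k, hk⟩
    apply hi
    refine ⟨2 * k, ?_⟩
    push_cast
    rw [hk]; ring
  have hsin : Complex.sin (Real.pi * z) ≠ 0 := sin_pi_mul_ne_zero hi
  have t1 := (At_summable z).hasSum.tendsto_sum_nat
  have t2 := (L1 z hz).tendsto_sum_nat
  have t3 := tendsto_logDeriv_euler_cot_sub hi
  have t4 := tendsto_logDeriv_euler_cot_sub hi2
  have t5 : Tendsto (fun n : ℕ => ∑ j ∈ Finset.range (2 * n), cotTerm z j) atTop
      (𝓝 <| Real.pi * Complex.cot (Real.pi * z) - 1 / z) :=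
    t3.comp (tendsto_id.const_mul_atTop' (by norm_num : 0 < 2))
  have t6 : Tendsto (fun n : ℕ => 1 / (z - 2 * (n : ℂ))) atTop (𝓝 0) := by
    have h1 : Tendsto (fun n : ℕ => z - 2 * (n : ℂ)) atTop (Bornology.cobounded ℂ) := by
      rw [tendsto_norm_atTop_iff_cobounded.symm]
      apply tendsto_atTop_mono (f := fun n : ℕ => 2 * (n : ℝ) - ‖z‖)
      · intro n
        have := norm_sub_norm_le (2 * (n : ℂ)) z
        rw [norm_sub_rev] at this
        have h2 : ‖(2 * (n : ℂ))‖ = 2 * n := by simp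
        linarith
      · apply tendsto_atTop_add_const_right
        exact tendsto_natCast_atTop_atTop.const_mul_atTop (by norm_num)
    have := tendsto_inv₀_cobounded.comp h1
    refine this.congr ?_
    intro n
    simp [one_div]
  have t7 := ((t4.sub t5).add_const (1 / z)).sub t6
  have t8 := t7.congr (fun n => (partial_id z hz0 n).symm)
  have t9 := tendsto_nhds_unique (t1.sub t2) t8
  have c := cot_half (Real.pi * z) hsin
  have e : (Real.pi : ℂ) * (z / 2) = Real.pi * z / 2 := by ring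
  rw [e] at t9
  have e2 : 1 / (z / 2) = 2 / z := by rw [one_div_div]
  rw [e2] at t9
  have e3 : (2 : ℂ) / z = 1 / z + 1 / z := by rw [← add_div]; norm_num
  rw [e3] at t9
  have e4 : (Real.pi : ℂ) / Complex.sin (Real.pi * z) = Real.pi * (1 / Complex.sin (Real.pi * z)) := by
    ring
  rw [e4, ← c]
  linear_combination t9

theorem t_GS : S_GS := by
  intro z hz hn
  have hi : z ∈ Complex.integerComplement := by
    rintro ⟨k, hk⟩
    have hk0 : 0 ≤ k := by
      have h1 : z.re = k := by rw [← hk]; simp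
      rw [h1] at hz
      have : (-1 : ℤ) < k := by exact_mod_cast hz
      linarith
    apply hn k.toNat
    rw [← hk]
    have : ((k.toNat : ℤ) : ℂ) = (k : ℂ) := by rw [Int.toNat_of_nonneg hk0]
    exact_mod_cast this.symm
  have hsin : Complex.sin (Real.pi * z) ≠ 0 := sin_pi_mul_ne_zero hi
  have h := L2 z hz hi
  have hg : gstar z = 2 * z * ∑' i, At z i := rfl
  rw [hg, h]
  have hc : Complex.cos (Real.pi * (2 * z + 1) / 2) = - Complex.sin (Real.pi * z) := by
    rw [show (Real.pi : ℂ) * (2 * z + 1) / 2 = Real.pi * z + Real.pi / 2 by ring,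
      Complex.cos_add_pi_div_two]
  unfold D
  rw [hc, mul_assoc, add_mul, div_mul_cancel₀ _ hsin]
  ring

theorem t_FE : S_FE := by
  intro u hu1 hu2
  set z : ℂ := (u - 1) / 2 with hz
  have hzre : z.re = (u.re - 1) / 2 := by
    rw [hz]; simp
  have hi : z ∈ Complex.integerComplement := by
    rintro ⟨k, hk⟩
    have h1 : z.re = k := by rw [← hk]; simp
    rw [hzre] at h1
    have h2 : ((-1 : ℤ) : ℝ) < k := by push_cast; linarith
    have h3 : (k : ℝ) < ((0 : ℤ) : ℝ) := by push_cast; linarith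
    have h4 : (-1 : ℤ) < k := by exact_mod_cast h2
    have h5 : k < 0 := by exact_mod_cast h3
    omega
  have hsin : Complex.sin (Real.pi * z) ≠ 0 := sin_pi_mul_ne_zero hi
  have hcs : Complex.cos (Real.pi * u / 2) = - Complex.sin (Real.pi * z) := by
    rw [show (Real.pi : ℂ) * z = Real.pi * u / 2 - Real.pi / 2 by rw [hz]; ring,
      Complex.sin_sub_pi_div_two]
    ring
  have hzm : -1 < z.re := by rw [hzre]; linarith
  have h2 := L2 z hzm hi
  have h1 := L1 (-1 - z) (by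
    have : (-1 - z).re = -1 - z.re := by simp
    rw [this, hzre]; linarith)
  have h3 : ∑' i, At z i = - K (2 * (-1 - z) + 1) := by
    rw [← h1.neg.tsum_eq]
    exact tsum_congr (fun i => At_eq z i)
  rw [h3] at h2
  have e1 : 2 * (-1 - z) + 1 = -u := by rw [hz]; ring
  have e2 : 2 * z + 1 = u := by rw [hz]; ring
  rw [e1, e2] at h2
  refine ⟨?_, ?_⟩
  · rw [hcs]; exact neg_ne_zero.mpr hsin
  · rw [hcs, div_neg]
    linear_combination -h2

end Pool.Agent.R979.OC
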