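import Pool.Agent.R979.OC.Stm

namespace Pool.Agent.R979.OC

open MeasureTheory Set Filter Topology

namespace FTE

/-- the rational function -/
noncomputable def g (a : ℂ) (ξ : ℝ) : ℂ := 2 * a / (a ^ 2 + (ξ : ℂ) ^ 2)

/-- the two sided exponential -/
noncomputable def f (a : ℂ) (x : ℝ) : ℂ := Complex.exp (-(a * |x|))

theorem plus_ne {a : ℂ} (ha : 0 < a.re) (ξ : ℝ) : a + ξ * Complex.I ≠ 0 := by
  intro h
  have := congrArg Complex.re h
  simp at this
  linarith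

theorem minus_ne {a : ℂ} (ha : 0 < a.re) (ξ : ℝ) : a - ξ * Complex.I ≠ 0 := by
  intro h
  have := congrArg Complex.re h
  simp at this
  linarith

theorem prod_eq (a : ℂ) (ξ : ℝ) : (a + ξ * Complex.I) * (a - ξ * Complex.I) = a ^ 2 + (ξ : ℂ) ^ 2 := by
  linear_combination (-(ξ : ℂ) ^ 2) * Complex.I_sq

theorem den_ne {a : ℂ} (ha : 0 < a.re) (ξ : ℝ) : a ^ 2 + (ξ : ℂ) ^ 2 ≠ 0 := by
  rw [← prod_eq]
  exact mul_ne_zero (plus_ne ha ξ) (minus_ne ha ξ)

theorem g_eq {a : ℂ} (ha : 0 < a.re) (ξ : ℝ) :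
    g a ξ = 1 / (a + ξ * Complex.I) + 1 / (a - ξ * Complex.I) := by
  have h1 := plus_ne ha ξ
  have h2 := minus_ne ha ξ
  unfold g
  rw [← prod_eq]
  field_simp
  ring

theorem low {a : ℂ} (ha : 0 < a.re) : ∃ M : ℝ, 0 < M ∧ ∀ w : ℂ, w.re = 0 → 
    1 + ‖w‖ ≤ ‖a + w‖ * M := by
  refine ⟨1 / a.re + 1 + ‖a‖ / a.re, by positivity, ?_⟩
  intro w hw
  have h1 : a.re ≤ ‖a + w‖ := by
    have := Complex.re_le_norm (a + w)
    rw [Complex.add_re, hw, add_zero] at this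
    exact this
  have h2 : ‖w‖ ≤ ‖a + w‖ + ‖a‖ := by
    have := norm_sub_le (a + w) a
    rwa [add_sub_cancel_left] at this
  have h3 : 1 ≤ ‖a + w‖ / a.re := by rwa [one_le_div ha]
  have h4 : ‖a‖ ≤ ‖a‖ * (‖a + w‖ / a.re) := by
    nlinarith [norm_nonneg a]
  calc 1 + ‖w‖ ≤ ‖a + w‖ / a.re + (‖a + w‖ + ‖a‖ * (‖a + w‖ / a.re)) := by linarith
    _ = ‖a + w‖ * (1 / a.re + 1 + ‖a‖ / a.re) := by ring

theorem g_int {a : ℂ} (ha : 0 < a.re) : Integrable (g a) := by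
  obtain ⟨M, hM, hlow⟩ := low ha
  have hcont : Continuous (g a) := by
    unfold g
    exact continuous_const.div (by fun_prop) (den_ne ha)
  refine (integrable_inv_one_add_sq.const_mul (2 * ‖a‖ * M ^ 2)).mono' hcont.aestronglyMeasurable
    (Eventually.of_forall fun ξ => ?_)
  have h1 := hlow (ξ * Complex.I) (by simp)
  have h2 := hlow (-(ξ * Complex.I)) (by simp)
  rw [norm_neg, ← sub_eq_add_neg] at h2
  have h3 : ‖(ξ : ℂ) * Complex.I‖ = |ξ| := by simp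
  rw [h3] at h1 h2
  have hp := plus_ne ha ξ
  have hm := minus_ne ha ξ
  have h4 : (1 + |ξ|) * (1 + |ξ|) ≤ (‖a + ξ * Complex.I‖ * M) * (‖a - ξ * Complex.I‖ * M) :=
    mul_le_mul h1 h2 (by positivity) (by positivity)
  have h5 : 1 + ξ ^ 2 ≤ (1 + |ξ|) * (1 + |ξ|) := by
    have := sq_abs ξ
    nlinarith [abs_nonneg ξ]
  have h6 : ‖a ^ 2 + (ξ : ℂ) ^ 2‖ = ‖a + ξ * Complex.I‖ * ‖a - ξ * Complex.I‖ := by
    rw [← prod_eq, norm_mul]
  have h7 : 0 < ‖a ^ 2 + (ξ : ℂ) ^ 2‖ := norm_pos_iff.2 (den_ne ha ξ)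
  unfold g
  rw [norm_div, norm_mul, Complex.norm_two, ← div_eq_mul_inv, div_le_div_iff₀ h7 (by positivity)]
  have h8 : 1 + ξ ^ 2 ≤ M ^ 2 * ‖a ^ 2 + (ξ : ℂ) ^ 2‖ := by
    rw [h6]
    calc 1 + ξ ^ 2 ≤ (1 + |ξ|) * (1 + |ξ|) := h5
      _ ≤ (‖a + ξ * Complex.I‖ * M) * (‖a - ξ * Complex.I‖ * M) := h4
      _ = M ^ 2 * (‖a + ξ * Complex.I‖ * ‖a - ξ * Complex.I‖) := by ring
  calc 2 * ‖a‖ * (1 + ξ ^ 2) ≤ 2 * ‖a‖ * (M ^ 2 * ‖a ^ 2 + (ξ : ℂ) ^ 2‖) := by gcongr
    _ = 2 * ‖a‖ * M ^ 2 * ‖a ^ 2 + (ξ : ℂ) ^ 2‖ := by ring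

theorem f_pos {a : ℂ} {x : ℝ} (hx : 0 < x) : f a x = Complex.exp (-a * x) := by
  unfold f
  rw [abs_of_pos hx, neg_mul]

theorem f_neg {a : ℂ} {x : ℝ} (hx : x ≤ 0) : f a x = Complex.exp (a * x) := by
  unfold f
  rw [abs_of_nonpos hx]
  push_cast
  congr 1
  ring

theorem f_int {a : ℂ} (ha : 0 < a.re) : Integrable (f a) := by
  rw [← integrableOn_univ, ← Iic_union_Ioi (a := (0 : ℝ)), integrableOn_union]
  constructor
  · exact (integrableOn_exp_mul_complex_Iic ha 0).congr_fun (fun x hx => (f_neg hx).symm)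
      measurableSet_Iic
  · exact (integrableOn_exp_mul_complex_Ioi (a := -a) (by simpa using ha) 0).congr_fun
      (fun x hx => (f_pos hx).symm) measurableSet_Ioi

theorem f_cont (a : ℂ) : Continuous (f a) := by
  unfold f
  fun_prop

theorem ft {a : ℂ} (ha : 0 < a.re) (w : ℝ) :
    FourierTransform.fourier (f a) w = g a (2 * Real.pi * w) := by
  rw [Real.fourier_real_eq_integral_exp_smul, g_eq ha]
  set b : ℝ := 2 * Real.pi * w with hb
  have e1 : ∀ v : ℝ, ((-2 * Real.pi * v * w : ℝ) : ℂ) * Complex.I = -(b * Complex.I) * v := by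
    intro v
    rw [hb]
    push_cast
    ring
  have hneg : ∀ v ∈ Iic (0 : ℝ), Complex.exp (((-2 * Real.pi * v * w : ℝ) : ℂ) * Complex.I) • f a v =
      Complex.exp ((a - b * Complex.I) * v) := by
    intro v hv
    rw [f_neg hv, smul_eq_mul, ← Complex.exp_add, e1]
    congr 1
    ring
  have hpos : ∀ v ∈ Ioi (0 : ℝ), Complex.exp (((-2 * Real.pi * v * w : ℝ) : ℂ) * Complex.I) • f a v =
      Complex.exp ((-(a + b * Complex.I)) * v) := by
    intro v hv
    rw [f_pos hv, smul_eq_mul, ← Complex.exp_add, e1]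
    congr 1
    ring
  have r1 : 0 < (a - b * Complex.I).re := by simpa using ha
  have r2 : (-(a + b * Complex.I)).re < 0 := by simpa using ha
  have i1 : IntegrableOn (fun v : ℝ =>
      Complex.exp (((-2 * Real.pi * v * w : ℝ) : ℂ) * Complex.I) • f a v) (Iic 0) :=
    (integrableOn_exp_mul_complex_Iic r1 0).congr_fun (fun v hv => (hneg v hv).symm)
      measurableSet_Iic
  have i2 : IntegrableOn (fun v : ℝ =>
      Complex.exp (((-2 * Real.pi * v * w : ℝ) : ℂ) * Complex.I) • f a v) (Ioi 0) :=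
    (integrableOn_exp_mul_complex_Ioi r2 0).congr_fun (fun v hv => (hpos v hv).symm)
      measurableSet_Ioi
  rw [← intervalIntegral.integral_Iic_add_Ioi i1 i2, setIntegral_congr_fun measurableSet_Iic hneg,
    setIntegral_congr_fun measurableSet_Ioi hpos, integral_exp_mul_complex_Iic r1,
    integral_exp_mul_complex_Ioi r2]
  simp only [Complex.ofReal_zero, mul_zero, Complex.exp_zero]
  rw [neg_div_neg_eq, add_comm]

end FTE

open FTE in
theorem t_FTE : S_FTE := by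
  intro a ha σ hσ
  refine ⟨g_int ha, ?_⟩
  have hft : FourierTransform.fourier (f a) = fun w : ℝ => g a (2 * Real.pi * w) := funext (ft ha)
  have hpi : (2 * Real.pi) ≠ 0 := by positivity
  have hint : Integrable (FourierTransform.fourier (f a)) := by
    rw [hft]
    exact (g_int ha).comp_mul_left' hpi
  have hinv := (f_cont a).fourierInv_fourier_eq (f_int ha) hint
  have h1 := congrFun hinv (-σ)
  rw [hft, Real.fourierInv_eq'] at h1
  have h2 : (fun v : ℝ => Complex.exp (((2 * Real.pi * inner ℝ v (-σ) : ℝ) : ℂ) * Complex.I) •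
      g a (2 * Real.pi * v)) =
      fun v : ℝ => (fun ξ : ℝ => 2 * a / (a ^ 2 + (ξ : ℂ) ^ 2) *
        Complex.exp (-(ξ * Complex.I * σ))) (2 * Real.pi * v) := by
    funext v
    simp only [smul_eq_mul, g]
    rw [mul_comm]
    congr 2
    simp
    ring
  rw [h2] at h1
  have hs := Measure.integral_comp_mul_left (fun ξ : ℝ => 2 * a / (a ^ 2 + (ξ : ℂ) ^ 2) *
        Complex.exp (-(ξ * Complex.I * σ))) (2 * Real.pi)
  replace h1 := hs.symm.trans h1
  have h3 : f a (-σ) = Complex.exp (-(a * σ)) := by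
    unfold f
    rw [abs_neg, abs_of_nonneg hσ]
  rw [h3, abs_of_pos (by positivity)] at h1
  set J := ∫ ξ : ℝ, 2 * a / (a ^ 2 + (ξ : ℂ) ^ 2) * Complex.exp (-(ξ * Complex.I * σ)) with hJ
  clear_value J
  rw [← h1, Complex.real_smul]
  push_cast
  have hpc : (Real.pi : ℂ) ≠ 0 := by exact_mod_cast Real.pi_ne_zero
  field_simp

end Pool.Agent.R979.OC
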