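import Pool.Agent.R979.OC.Stm

/-!
# Project OC: assembly
-/

namespace Pool.Agent.R979.OC

open MeasureTheory Set Filter Topology

/-- `om` is bounded. -/
theorem om_bdd (hO : S_OM) : ∃ C, ∀ σ, |om σ| ≤ C := by
  obtain ⟨_, hev, a, r, ha3, ha4, hai, hDa, hz, hr, C, hC⟩ := hO
  refine ⟨4 * ‖r‖ + |C|, fun σ => ?_⟩
  have key : ∀ σ : ℝ, 0 ≤ σ → |om σ| ≤ 4 * ‖r‖ + |C| := by
    intro σ hσ
    have h1 := hC σ hσ
    have h2 : |4 * (r * Complex.exp (-(a * σ))).re| ≤ 4 * ‖r‖ := by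
      rw [abs_mul, abs_of_pos (by norm_num : (0:ℝ) < 4)]
      refine mul_le_mul_of_nonneg_left ?_ (by norm_num)
      refine (Complex.abs_re_le_norm _).trans ?_
      rw [norm_mul, Complex.norm_exp]
      have : Real.exp (-(a * σ)).re ≤ 1 := by
        rw [Real.exp_le_one_iff]
        simp only [Complex.neg_re, Complex.mul_re, Complex.ofReal_re, Complex.ofReal_im, mul_zero,
          sub_zero]
        have : 0 ≤ a.re * σ := mul_nonneg (by linarith) hσ
        linarith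
      calc ‖r‖ * Real.exp (-(a * σ)).re ≤ ‖r‖ * 1 := by gcongr
        _ = ‖r‖ := mul_one _
    have h3 : C * Real.exp (-(4 * σ)) ≤ |C| := by
      calc C * Real.exp (-(4 * σ)) ≤ |C| * Real.exp (-(4 * σ)) := by
            gcongr
            exact le_abs_self C
        _ ≤ |C| * 1 := by
            gcongr
            rw [Real.exp_le_one_iff]; linarith
        _ = |C| := mul_one _
    calc |om σ| = |(om σ - 4 * (r * Complex.exp (-(a * σ))).re) +
            4 * (r * Complex.exp (-(a * σ))).re| := by ring_nf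
      _ ≤ _ + _ := abs_add_le _ _
      _ ≤ |C| + 4 * ‖r‖ := by linarith
      _ = _ := by ring
  rcases le_total 0 σ with h | h
  · exact key σ h
  · rw [← hev σ]
    exact key (-σ) (by linarith)

/-- The recursion for `ct`. -/
theorem ct_rec (hO : S_OM) (hP : S_PSI) (hV : S_VOLT) (hR : S_REC) (N : ℕ) :
    ∑ k ∈ Finset.range (N + 1), ct k / (N + k + 1 : ℝ) = if N = 0 then 1 else 0 := by
  obtain ⟨hc, hi, he, hf⟩ := hP
  have hv := hV psi hc hi he hf
  exact hR om hO.1 (om_bdd hO) hO.2.1 hv N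

/-- Uniqueness for the recursion. -/
theorem c_eq_ct (hct : ∀ N : ℕ, ∑ k ∈ Finset.range (N + 1), ct k / (N + k + 1 : ℝ) =
      if N = 0 then 1 else 0)
    (c : ℕ → ℝ) (h0 : c 0 = 1)
    (hc : ∀ N : ℕ, 1 ≤ N → ∑ k ∈ Finset.range (N + 1), c k / (N + k + 1 : ℝ) = 0) :
    ∀ n, c n = ct n := by
  intro n
  induction n using Nat.strong_induction_on with
  | _ n ih =>
    rcases Nat.eq_zero_or_pos n with hn | hn
    · subst hn
      have h := hct 0
      simp at h
      rw [h0, h]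
    · have h1 := hc n hn
      have h2 := hct n
      rw [if_neg (by omega)] at h2
      rw [Finset.sum_range_succ] at h1 h2
      have h3 : ∑ k ∈ Finset.range n, c k / (n + k + 1 : ℝ) =
          ∑ k ∈ Finset.range n, ct k / (n + k + 1 : ℝ) := by
        refine Finset.sum_congr rfl fun k hk => ?_
        rw [ih k (Finset.mem_range.mp hk)]
      have hpos : (0 : ℝ) < n + n + 1 := by positivity
      have h4 : c n / (n + n + 1 : ℝ) = ct n / (n + n + 1 : ℝ) := by linarith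
      have := (div_left_inj' hpos.ne').mp h4
      exact this

/-- norm bound for the kernel -/
theorem kern_nonneg (n : ℕ) (σ : ℝ) : 0 ≤ (Real.tanh σ) ^ (2 * n) / Real.cosh σ := by
  rw [pow_mul]
  have := Real.cosh_pos σ
  positivity

theorem kern_le (n : ℕ) (σ : ℝ) : (Real.tanh σ) ^ (2 * n) / Real.cosh σ ≤ 1 := by
  have h1 : (Real.tanh σ) ^ (2 * n) ≤ 1 := by
    rw [pow_mul]
    refine pow_le_one₀ (sq_nonneg _) ?_
    have h := Real.tanh_sq_lt_one σ
    exact h.le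
  have h2 : 1 ≤ Real.cosh σ := Real.one_le_cosh σ
  have h3 := Real.cosh_pos σ
  rw [div_le_one h3]
  exact h1.trans h2

theorem kern_cont (n : ℕ) : Continuous fun σ : ℝ => (Real.tanh σ) ^ (2 * n) / Real.cosh σ := by
  have h : ∀ σ : ℝ, Real.cosh σ ≠ 0 := fun σ => (Real.cosh_pos σ).ne'
  have ht : Continuous Real.tanh := by
    have : Real.tanh = fun x => Real.sinh x / Real.cosh x := by
      funext x; exact Real.tanh_eq_sinh_div_cosh x
    rw [this]
    exact Real.continuous_sinh.div Real.continuous_cosh h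
  exact (ht.pow _).div Real.continuous_cosh h

/-- The bound for `n ≥ 2`. -/
theorem ct_asym (hO : S_OM) (hI : S_IN) (hE : S_IE) :
    ∃ ρ r : ℂ, 1 < ρ.re ∧ ρ.re < 3 / 2 ∧ 0 < ρ.im ∧ D (2 * ρ + 1) = 0 ∧
      (∀ u : ℂ, 0 ≤ u.re → u.re ≤ 4 → D u = 0 → u = 2 * ρ + 1 ∨
        u = (starRingEnd ℂ) (2 * ρ + 1)) ∧ r ≠ 0 ∧
      ∃ C : ℝ, ∀ n : ℕ, 2 ≤ n → |ct n - 2 * (2 * r * Complex.Gamma (ρ + 1) *
        (4 : ℂ) ^ (-(ρ + 1)) * (n : ℂ) ^ (-1 - ρ)).re| ≤ C * (n : ℝ) ^ (-(5 / 2 : ℝ)) := by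
  obtain ⟨hoc, hev, a, r, ha3, ha4, hai, hDa, hz, hr, C, hC⟩ := hO
  set ρ : ℂ := (a - 1) / 2 with hρ
  have haρ : a = 2 * ρ + 1 := by rw [hρ]; ring
  have hre : ρ.re = (a.re - 1) / 2 := by
    rw [hρ]
    have : (a - 1) / 2 = (a - 1) * ((1 / 2 : ℝ) : ℂ) := by push_cast; ring
    rw [this, Complex.re_mul_ofReal]
    simp; ring
  have him : ρ.im = a.im / 2 := by
    rw [hρ]
    have : (a - 1) / 2 = (a - 1) * ((1 / 2 : ℝ) : ℂ) := by push_cast; ring
    rw [this, Complex.im_mul_ofReal]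
    simp; ring
  have hρ1 : 1 < ρ.re := by rw [hre]; linarith
  refine ⟨ρ, r, hρ1, by rw [hre]; linarith, by rw [him]; linarith, by rw [← haρ]; exact hDa,
    by rw [← haρ]; exact hz, hr, ?_⟩
  obtain ⟨C1, hC1⟩ := hI ρ (by linarith)
  obtain ⟨C2, hC2⟩ := hE
  refine ⟨|C| * C2 + 4 * ‖r‖ * |C1|, fun n hn => ?_⟩
  have hn1 : 1 ≤ n := by omega
  -- notation
  set k : ℝ → ℝ := fun σ => (Real.tanh σ) ^ (2 * n) / Real.cosh σ with hk
  have hk0 : ∀ σ, 0 ≤ k σ := kern_nonneg n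
  have hk1 : ∀ σ, k σ ≤ 1 := kern_le n
  have hkc : Continuous k := kern_cont n
  -- integrability
  have hexpa : IntegrableOn (fun σ : ℝ => Complex.exp (-(a * σ))) (Ioi 0) := by
    have := integrableOn_exp_mul_complex_Ioi (a := -a) (by simp; linarith) 0
    refine this.congr_fun (fun x _ => ?_) measurableSet_Ioi
    simp
  have hexp4 : IntegrableOn (fun σ : ℝ => Real.exp (-(4 * σ))) (Ioi 0) := by
    have := integrableOn_exp_mul_Ioi (a := -4) (by norm_num) 0
    refine this.congr_fun (fun x _ => ?_) measurableSet_Ioi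
    simp
  have hint1 : IntegrableOn (fun σ : ℝ => (k σ : ℂ) * Complex.exp (-(a * σ))) (Ioi 0) := by
    refine Integrable.bdd_mul (c := 1) hexpa ?_ ?_
    · exact (Complex.continuous_ofReal.comp hkc).aestronglyMeasurable
    · refine Eventually.of_forall fun σ => ?_
      rw [Complex.norm_real, Real.norm_eq_abs, abs_of_nonneg (hk0 σ)]
      exact hk1 σ
  have hint4 : IntegrableOn (fun σ : ℝ => k σ * Real.exp (-(4 * σ))) (Ioi 0) := by
    refine Integrable.bdd_mul (c := 1) hexp4 ?_ ?_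
    · exact hkc.aestronglyMeasurable
    · refine Eventually.of_forall fun σ => ?_
      rw [Real.norm_eq_abs, abs_of_nonneg (hk0 σ)]
      exact hk1 σ
  have hintre : IntegrableOn (fun σ : ℝ => 4 * (r * Complex.exp (-(a * σ))).re * k σ) (Ioi 0) := by
    have h := (hint1.const_mul (4 * r)).re
    refine h.congr (Eventually.of_forall fun σ => ?_)
    simp only [RCLike.re_to_complex]
    have : 4 * r * ((k σ : ℂ) * Complex.exp (-(a * σ))) =
        ((4 * k σ : ℝ) : ℂ) * (r * Complex.exp (-(a * σ))) := by push_cast; ring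
    rw [this, Complex.re_ofReal_mul]
    ring
  have hsplit : ∀ σ : ℝ, om σ * (Real.tanh σ) ^ (2 * n) / Real.cosh σ = om σ * k σ := by
    intro σ; rw [hk]; ring
  have hdiffbd : ∀ σ ∈ Ioi (0 : ℝ), ‖om σ * k σ - 4 * (r * Complex.exp (-(a * σ))).re * k σ‖ ≤
      |C| * (k σ * Real.exp (-(4 * σ))) := by
    intro σ hσ
    have h1 := hC σ (le_of_lt hσ)
    rw [← sub_mul, norm_mul, Real.norm_eq_abs, Real.norm_eq_abs, abs_of_nonneg (hk0 σ)]
    have h2 : C * Real.exp (-(4 * σ)) ≤ |C| * Real.exp (-(4 * σ)) := by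
      gcongr; exact le_abs_self C
    calc |om σ - 4 * (r * Complex.exp (-(a * σ))).re| * k σ
        ≤ (|C| * Real.exp (-(4 * σ))) * k σ := by
          gcongr
          · exact hk0 σ
          · exact h1.trans h2
      _ = _ := by ring
  have hmeasdiff : AEStronglyMeasurable
      (fun σ : ℝ => om σ * k σ - 4 * (r * Complex.exp (-(a * σ))).re * k σ)
      (volume.restrict (Ioi 0)) := by
    have hcont : Continuous
        (fun σ : ℝ => om σ * k σ - 4 * (r * Complex.exp (-(a * σ))).re * k σ) := by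
      refine (hoc.mul hkc).sub ((continuous_const.mul ?_).mul hkc)
      exact Complex.continuous_re.comp (by fun_prop)
    exact hcont.aestronglyMeasurable
  have hdiffint : IntegrableOn
      (fun σ : ℝ => om σ * k σ - 4 * (r * Complex.exp (-(a * σ))).re * k σ) (Ioi 0) := by
    refine Integrable.mono' (hint4.const_mul |C|) hmeasdiff ?_
    exact (ae_restrict_iff' measurableSet_Ioi).mpr (Eventually.of_forall hdiffbd)
  have homint : IntegrableOn (fun σ : ℝ => om σ * k σ) (Ioi 0) := by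
    have := hdiffint.add hintre
    refine this.congr (Eventually.of_forall fun σ => ?_)
    simp
  -- the difference of integrals
  have hctn : ct n = ∫ σ in Ioi (0 : ℝ), om σ * k σ := by
    unfold ct ee
    rw [if_neg (by omega), if_neg (by omega), zero_add]
    exact integral_congr_ae (Eventually.of_forall fun σ => hsplit σ)
  have hre_int : ∫ σ in Ioi (0 : ℝ), 4 * (r * Complex.exp (-(a * σ))).re * k σ =
      4 * (r * ∫ σ in Ioi (0 : ℝ), (k σ : ℂ) * Complex.exp (-(a * σ))).re := by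
    have h1 : (4 * r * ∫ σ in Ioi (0 : ℝ), (k σ : ℂ) * Complex.exp (-(a * σ))).re =
        ∫ σ in Ioi (0 : ℝ), 4 * (r * Complex.exp (-(a * σ))).re * k σ := by
      rw [← integral_const_mul]
      have := Complex.reCLM.integral_comp_comm (hint1.const_mul (4 * r))
      simp only [Complex.reCLM_apply] at this
      rw [← this]
      refine integral_congr_ae (Eventually.of_forall fun σ => ?_)
      simp only
      have : 4 * r * ((k σ : ℂ) * Complex.exp (-(a * σ))) =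
          ((4 * k σ : ℝ) : ℂ) * (r * Complex.exp (-(a * σ))) := by push_cast; ring
      rw [this, Complex.re_ofReal_mul]
      ring
    rw [← h1]
    have : 4 * r * ∫ σ in Ioi (0 : ℝ), (k σ : ℂ) * Complex.exp (-(a * σ)) =
        ((4 : ℝ) : ℂ) * (r * ∫ σ in Ioi (0 : ℝ), (k σ : ℂ) * Complex.exp (-(a * σ))) := by
      push_cast; ring
    rw [this, Complex.re_ofReal_mul]
  have hmain1 : |ct n - 4 * (r * ∫ σ in Ioi (0 : ℝ), (k σ : ℂ) * Complex.exp (-(a * σ))).re| ≤
      |C| * (C2 * (n : ℝ) ^ (-(5 / 2 : ℝ))) := by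
    rw [hctn, ← hre_int, ← integral_sub homint hintre]
    calc |∫ σ in Ioi (0 : ℝ), (om σ * k σ - 4 * (r * Complex.exp (-(a * σ))).re * k σ)|
        = ‖∫ σ in Ioi (0 : ℝ), (om σ * k σ - 4 * (r * Complex.exp (-(a * σ))).re * k σ)‖ :=
          (Real.norm_eq_abs _).symm
      _ ≤ ∫ σ in Ioi (0 : ℝ), |C| * (k σ * Real.exp (-(4 * σ))) := by
          refine norm_integral_le_of_norm_le (hint4.const_mul |C|) ?_
          exact (ae_restrict_iff' measurableSet_Ioi).mpr (Eventually.of_forall hdiffbd)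
      _ = |C| * ∫ σ in Ioi (0 : ℝ), (k σ * Real.exp (-(4 * σ))) := integral_const_mul _ _
      _ ≤ |C| * (C2 * (n : ℝ) ^ (-(5 / 2 : ℝ))) := by
          gcongr
          exact hC2 n hn1
  -- the main integral
  have hIn : ‖(∫ σ in Ioi (0 : ℝ), (k σ : ℂ) * Complex.exp (-(a * σ))) -
      Complex.Gamma (ρ + 1) * (4 * n : ℂ) ^ (-(ρ + 1))‖ ≤ C1 * (n : ℝ) ^ (-(ρ.re + 2)) := by
    have := hC1 n hn1
    rw [haρ]
    exact this
  have hcpow : (4 * n : ℂ) ^ (-(ρ + 1)) = (4 : ℂ) ^ (-(ρ + 1)) * (n : ℂ) ^ (-1 - ρ) := by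
    have h := Complex.natCast_mul_natCast_cpow 4 n (-(ρ + 1))
    push_cast at h
    rw [h]
    congr 2
    ring
  have hmain2 : |4 * (r * ∫ σ in Ioi (0 : ℝ), (k σ : ℂ) * Complex.exp (-(a * σ))).re -
      2 * (2 * r * Complex.Gamma (ρ + 1) * (4 : ℂ) ^ (-(ρ + 1)) * (n : ℂ) ^ (-1 - ρ)).re| ≤
      4 * ‖r‖ * (|C1| * (n : ℝ) ^ (-(5 / 2 : ℝ))) := by
    have h1 : 4 * (r * ∫ σ in Ioi (0 : ℝ), (k σ : ℂ) * Complex.exp (-(a * σ))).re -
      2 * (2 * r * Complex.Gamma (ρ + 1) * (4 : ℂ) ^ (-(ρ + 1)) * (n : ℂ) ^ (-1 - ρ)).re =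
      4 * (r * ((∫ σ in Ioi (0 : ℝ), (k σ : ℂ) * Complex.exp (-(a * σ))) -
      Complex.Gamma (ρ + 1) * (4 * n : ℂ) ^ (-(ρ + 1)))).re := by
      rw [hcpow]
      have e1 : 2 * r * Complex.Gamma (ρ + 1) * (4 : ℂ) ^ (-(ρ + 1)) * (n : ℂ) ^ (-1 - ρ) =
        ((2 : ℝ) : ℂ) * (r * (Complex.Gamma (ρ + 1) * ((4 : ℂ) ^ (-(ρ + 1)) *
          (n : ℂ) ^ (-1 - ρ)))) := by push_cast; ring
      rw [e1, Complex.re_ofReal_mul, mul_sub, Complex.sub_re]
      ring
    rw [h1, abs_mul, abs_of_pos (by norm_num : (0:ℝ) < 4), mul_assoc]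
    refine mul_le_mul_of_nonneg_left ?_ (by norm_num)
    refine (Complex.abs_re_le_norm _).trans ?_
    rw [norm_mul]
    refine mul_le_mul_of_nonneg_left ?_ (norm_nonneg _)
    refine hIn.trans ?_
    have hnr : (1 : ℝ) ≤ n := by exact_mod_cast hn1
    have h5 : (n : ℝ) ^ (-(ρ.re + 2)) ≤ (n : ℝ) ^ (-(5 / 2 : ℝ)) := by
      refine Real.rpow_le_rpow_of_exponent_le hnr ?_
      linarith
    calc C1 * (n : ℝ) ^ (-(ρ.re + 2)) ≤ |C1| * (n : ℝ) ^ (-(ρ.re + 2)) := by
          gcongr; exact le_abs_self C1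
      _ ≤ |C1| * (n : ℝ) ^ (-(5 / 2 : ℝ)) := by gcongr
  calc |ct n - 2 * (2 * r * Complex.Gamma (ρ + 1) *
        (4 : ℂ) ^ (-(ρ + 1)) * (n : ℂ) ^ (-1 - ρ)).re|
      = |(ct n - 4 * (r * ∫ σ in Ioi (0 : ℝ), (k σ : ℂ) * Complex.exp (-(a * σ))).re) +
        (4 * (r * ∫ σ in Ioi (0 : ℝ), (k σ : ℂ) * Complex.exp (-(a * σ))).re -
      2 * (2 * r * Complex.Gamma (ρ + 1) * (4 : ℂ) ^ (-(ρ + 1)) * (n : ℂ) ^ (-1 - ρ)).re)| := by
        congr 1; ring
    _ ≤ _ + _ := abs_add_le _ _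
    _ ≤ |C| * (C2 * (n : ℝ) ^ (-(5 / 2 : ℝ))) + 4 * ‖r‖ * (|C1| * (n : ℝ) ^ (-(5 / 2 : ℝ))) :=
        add_le_add hmain1 hmain2
    _ = _ := by ring

/-- Zeros of `gstar`. -/
theorem gstar_zero (hG : S_GS) (z : ℂ) (hz : 0 < z.re) (hn : ∀ n : ℕ, z ≠ n) :
    gstar z = 0 ↔ D (2 * z + 1) = 0 := by
  have h := hG z (by linarith) hn
  have hz0 : z ≠ 0 := by
    intro h0; rw [h0] at hz; simp at hz
  have hsin : Complex.sin (Real.pi * z) ≠ 0 := by
    intro hs
    rw [Complex.sin_eq_zero_iff] at hs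
    obtain ⟨k, hk⟩ := hs
    have hpi : (Real.pi : ℂ) ≠ 0 := by exact_mod_cast Real.pi_ne_zero
    have hzk : z = k := by
      have : (Real.pi : ℂ) * z = Real.pi * k := by rw [hk]; ring
      exact mul_left_cancel₀ hpi this
    have hk0 : 0 < (k : ℝ) := by
      have := congrArg Complex.re hzk
      simp at this
      rw [← this]; exact hz
    have hk0' : 0 < k := by exact_mod_cast hk0
    obtain ⟨m, hm⟩ := Int.eq_ofNat_of_zero_le hk0'.le
    exact hn m (by rw [hzk, hm]; simp)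
  constructor
  · intro hg
    rw [hg, zero_mul] at h
    rcases mul_eq_zero.mp h.symm with h1 | h1
    · exact absurd h1 (mul_ne_zero two_ne_zero hz0)
    · exact h1
  · intro hD
    rw [hD, mul_zero] at h
    rcases mul_eq_zero.mp h with h1 | h1
    · exact h1
    · exact absurd h1 hsin

/-- Final form with all pieces as hypotheses. -/
theorem main (hO : S_OM) (hP : S_PSI) (hV : S_VOLT) (hR : S_REC) (hI : S_IN) (hE : S_IE)
    (hG : S_GS) :
    ∃ ρ : ℂ, 1 < ρ.re ∧ ρ.re < 3 / 2 ∧ 0 < ρ.im ∧ gstar ρ = 0 ∧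
      (∀ z : ℂ, 0 < z.re → (∀ n : ℕ, z ≠ n) → gstar z = 0 →
        z = ρ ∨ z = (starRingEnd ℂ) ρ ∨ 3 / 2 < z.re) ∧
      ∀ c : ℕ → ℝ, c 0 = 1 →
        (∀ N : ℕ, 1 ≤ N → ∑ k ∈ Finset.range (N + 1), c k / (N + k + 1 : ℝ) = 0) →
        ∃ κ : ℂ, κ ≠ 0 ∧ ∃ σ : ℝ, ρ.re < σ ∧
          (fun n : ℕ => c n - 2 * (κ * (n : ℂ) ^ (-1 - ρ)).re) =O[atTop]
            (fun n : ℕ => (n : ℝ) ^ (-1 - σ)) := by
  obtain ⟨ρ, r, h1, h2, h3, hD, hz, hr, C, hC⟩ := ct_asym hO hI hE
  have hρn : ∀ n : ℕ, ρ ≠ n := by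
    intro n hn
    rw [hn] at h3; simp at h3
  refine ⟨ρ, h1, h2, h3, (gstar_zero hG ρ (by linarith) hρn).mpr hD, ?_, ?_⟩
  · intro z hz0 hzn hgz
    by_cases hz32 : z.re ≤ 3 / 2
    · have hDz := (gstar_zero hG z hz0 hzn).mp hgz
      have hre : (2 * z + 1).re = 2 * z.re + 1 := by simp
      rcases hz (2 * z + 1) (by rw [hre]; linarith) (by rw [hre]; linarith) hDz with h | h
      · left
        have : 2 * z = 2 * ρ := by linear_combination h
        exact mul_left_cancel₀ two_ne_zero this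
      · right; left
        have h' : 2 * z + 1 = 2 * (starRingEnd ℂ) ρ + 1 := by
          rw [h, map_add, map_mul, map_one, map_ofNat]
        have : 2 * z = 2 * (starRingEnd ℂ) ρ := by linear_combination h'
        exact mul_left_cancel₀ two_ne_zero this
    · right; right
      exact not_le.mp hz32
  · intro c hc0 hc
    have hcc := c_eq_ct (ct_rec hO hP hV hR) c hc0 hc
    refine ⟨2 * r * Complex.Gamma (ρ + 1) * (4 : ℂ) ^ (-(ρ + 1)), ?_, 3 / 2, by linarith, ?_⟩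
    · refine mul_ne_zero (mul_ne_zero (mul_ne_zero two_ne_zero hr) ?_) ?_
      · refine Complex.Gamma_ne_zero_of_re_pos ?_
        simp; linarith
      · simp [Complex.cpow_eq_zero_iff]
    · refine Asymptotics.IsBigO.of_bound C ?_
      filter_upwards [eventually_ge_atTop 2] with n hn
      rw [hcc n, Real.norm_eq_abs, Real.norm_eq_abs]
      refine (hC n hn).trans (le_of_eq ?_)
      rw [abs_of_nonneg (by positivity)]
      norm_num

end Pool.Agent.R979.OC
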