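import Pool.Agent.R979.OC.Stm

/-!
# Piece OC-GB: bound of `G` far away from the real axis
-/

namespace Pool.Agent.R979.OC

open MeasureTheory Set Filter Topology

noncomputable section

namespace GB

lemma cos_lower (u : ℂ) (hy : 1 ≤ |u.im|) :
    Real.exp (Real.pi * |u.im| / 2) / 4 ≤ ‖Complex.cos (Real.pi * u / 2)‖ := by
  set z : ℂ := Real.pi * u / 2 with hz
  have him : z.im = Real.pi * u.im / 2 := by
    rw [hz]; simp [Complex.div_im]
  have hpi := Real.pi_gt_three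
  have h1 : ‖Complex.exp (z * Complex.I)‖ = Real.exp (-z.im) := by
    rw [Complex.norm_exp]; simp
  have h2 : ‖Complex.exp (-z * Complex.I)‖ = Real.exp (z.im) := by
    rw [Complex.norm_exp]; simp
  have hcos : Complex.cos z = (Complex.exp (z * Complex.I) + Complex.exp (-z * Complex.I)) / 2 := rfl
  set t : ℝ := Real.pi * |u.im| / 2 with ht
  have ht1 : 1 ≤ t := by rw [ht]; nlinarith
  have he : 2 ≤ Real.exp t := by
    have := Real.add_one_le_exp t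
    linarith
  have he2 : Real.exp (-t) ≤ 1 := by
    rw [Real.exp_le_one_iff]; linarith
  have key : (Real.exp t - Real.exp (-t)) / 2 ≤ ‖Complex.cos z‖ := by
    rw [hcos, norm_div, Complex.norm_ofNat]
    apply div_le_div_of_nonneg_right _ (by norm_num)
    rcases le_total 0 u.im with h | h
    · have e1 : z.im = t := by rw [him, ht, abs_of_nonneg h]
      rw [e1] at h1 h2
      have := norm_sub_le_norm_add (Complex.exp (-z * Complex.I)) (Complex.exp (z * Complex.I))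
      rw [h1, h2, add_comm] at this
      exact this
    · have e1 : z.im = -t := by rw [him, ht, abs_of_nonpos h]; ring
      rw [e1] at h1 h2
      rw [neg_neg] at h1
      have := norm_sub_le_norm_add (Complex.exp (z * Complex.I)) (Complex.exp (-z * Complex.I))
      rw [h1, h2] at this
      exact this
  linarith

/-- the algebraic estimate -/
lemma alg (u k c : ℂ) (C : ℝ) (hC : 0 ≤ C) (R : ℝ) (hR : R = ‖u‖) (hR1 : 1000 ≤ R)
    (hRB : 2 * (1 + C) ≤ R) (hK : ‖k - 1 / u + 1 / u ^ 3‖ ≤ C / ‖u‖ ^ 5) (hc : R ^ 5 ≤ ‖c‖) :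
    (Real.pi : ℂ) - k * c ≠ 0 ∧
    ‖c / (k * ((Real.pi : ℂ) - k * c)) + u ^ 2 + 2‖ ≤ (36 * (1 + C) ^ 2 + 64) / R ^ 2 := by
  have hR0 : 0 < R := by linarith
  have hu : u ≠ 0 := by
    intro h; rw [h, norm_zero] at hR; linarith
  rw [← hR] at hK
  set B : ℝ := 1 + C with hB
  have hB1 : 1 ≤ B := by linarith
  set e : ℂ := k - 1 / u + 1 / u ^ 3 with he
  set δ : ℂ := 1 / u ^ 2 - u * e with hδ
  have hk : k = (1 - δ) / u := by
    rw [hδ, he]; field_simp; ring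
  have hpi := Real.pi_lt_four
  have hpi0 := Real.pi_pos
  -- norms
  have hR2 : 0 < R ^ 2 := by positivity
  have hR24 : R ^ 2 ≤ R ^ 4 := pow_le_pow_right₀ (by linarith) (by norm_num)
  have hRR4 : R ≤ R ^ 4 := by
    calc R = R ^ 1 := (pow_one R).symm
      _ ≤ R ^ 4 := pow_le_pow_right₀ (by linarith) (by norm_num)
  have hRR2 : R ≤ R ^ 2 := by
    calc R = R ^ 1 := (pow_one R).symm
      _ ≤ R ^ 2 := pow_le_pow_right₀ (by linarith) (by norm_num)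
  have hue : ‖u * e‖ ≤ C / R ^ 4 := by
    rw [norm_mul, ← hR]
    calc R * ‖e‖ ≤ R * (C / R ^ 5) := mul_le_mul_of_nonneg_left hK hR0.le
      _ = C / R ^ 4 := by field_simp
  have hC24 : C / R ^ 4 ≤ C / R ^ 2 := by
    exact div_le_div_of_nonneg_left hC hR2 hR24
  have hδn : ‖δ‖ ≤ B / R ^ 2 := by
    calc ‖δ‖ ≤ ‖1 / u ^ 2‖ + ‖u * e‖ := norm_sub_le _ _
      _ ≤ 1 / R ^ 2 + C / R ^ 2 := by
          rw [norm_div, norm_pow, ← hR, norm_one]
          linarith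
      _ = B / R ^ 2 := by rw [hB]; ring
  have hδh : ‖δ‖ ≤ 1 / 2 := by
    refine hδn.trans ?_
    rw [div_le_iff₀ hR2]
    linarith
  have h1δ : 1 / 2 ≤ ‖1 - δ‖ := by
    have := norm_sub_norm_le (1 : ℂ) δ
    rw [norm_one] at this
    linarith
  have h1δ0 : 1 - δ ≠ 0 := by
    intro h; rw [h, norm_zero] at h1δ; linarith
  have hk0 : k ≠ 0 := by
    rw [hk]; exact div_ne_zero h1δ0 hu
  have hkn : 1 / (2 * R) ≤ ‖k‖ := by
    rw [hk, norm_div, ← hR]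
    rw [div_le_div_iff₀ (by positivity) hR0]
    nlinarith
  have hkc : R ^ 4 / 2 ≤ ‖k * c‖ := by
    rw [norm_mul]
    calc R ^ 4 / 2 = 1 / (2 * R) * R ^ 5 := by field_simp
      _ ≤ ‖k‖ * ‖c‖ := mul_le_mul hkn hc (by positivity) (norm_nonneg _)
  have hR4 : 16 ≤ R ^ 4 / 2 := by linarith
  have hsub : R ^ 4 / 4 ≤ ‖k * c - (Real.pi : ℂ)‖ := by
    have h1 := norm_sub_norm_le (k * c) (Real.pi : ℂ)
    rw [Complex.norm_real, Real.norm_eq_abs, abs_of_pos hpi0] at h1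
    linarith
  have hne : k * c - (Real.pi : ℂ) ≠ 0 := by
    intro h; rw [h, norm_zero] at hsub; linarith
  have hne' : (Real.pi : ℂ) - k * c ≠ 0 := by
    intro h; apply hne; rw [← neg_sub, h, neg_zero]
  refine ⟨hne', ?_⟩
  have hG : c / (k * ((Real.pi : ℂ) - k * c)) + u ^ 2 + 2 =
      (2 * (u ^ 3 * e) + u ^ 2 * δ ^ 2 - 4 * δ + 2 * δ ^ 2) / (1 - δ) ^ 2
        - (u / (1 - δ)) ^ 2 * ((Real.pi : ℂ) / (k * c - Real.pi)) := by
    have e1 : c / (k * ((Real.pi : ℂ) - k * c)) =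
        - (1 / k ^ 2) - (1 / k ^ 2) * ((Real.pi : ℂ) / (k * c - Real.pi)) := by
      rw [eq_comm, sub_eq_iff_eq_add, neg_eq_iff_eq_neg, neg_add, ← sub_eq_add_neg]
      rw [div_eq_iff (pow_ne_zero 2 hk0)]
      have h7 : (1 / k ^ 2) * ((Real.pi : ℂ) / (k * c - Real.pi)) * k ^ 2
          = (Real.pi : ℂ) / (k * c - Real.pi) := by field_simp
      have h8 : c / (k * ((Real.pi : ℂ) - k * c)) * k ^ 2 = -(k * c / (k * c - Real.pi)) := by
        have : (Real.pi : ℂ) - k * c = -(k * c - Real.pi) := by ring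
        rw [this, div_mul_eq_mul_div, div_eq_iff (by
          exact mul_ne_zero hk0 (neg_ne_zero.2 hne)), ← neg_div, div_mul_eq_mul_div,
          eq_div_iff hne]
        ring
      rw [sub_mul, neg_mul, h7, h8, neg_neg, ← sub_div, div_self hne]
    have e2 : 1 / k ^ 2 = (u / (1 - δ)) ^ 2 := by
      rw [hk]; field_simp
    have e3 : 2 * (u ^ 3 * e) + u ^ 2 * δ ^ 2 - 4 * δ + 2 * δ ^ 2 =
        (u ^ 2 + 2) * (1 - δ) ^ 2 - u ^ 2 := by
      have e4 : u ^ 3 * e = 1 - u ^ 2 * δ := by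
        rw [hδ]; field_simp; ring
      rw [e4]; ring
    rw [e1, e2, e3]
    field_simp
    ring
  rw [hG]
  have hu3e : ‖u ^ 3 * e‖ ≤ C / R ^ 2 := by
    rw [norm_mul, norm_pow, ← hR]
    calc R ^ 3 * ‖e‖ ≤ R ^ 3 * (C / R ^ 5) := mul_le_mul_of_nonneg_left hK (by positivity)
      _ = C / R ^ 2 := by field_simp
  have hu2δ : ‖u ^ 2 * δ ^ 2‖ ≤ B ^ 2 / R ^ 2 := by
    rw [norm_mul, norm_pow, norm_pow, ← hR]
    calc R ^ 2 * ‖δ‖ ^ 2 ≤ R ^ 2 * (B / R ^ 2) ^ 2 :=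
          mul_le_mul_of_nonneg_left (pow_le_pow_left₀ (norm_nonneg _) hδn 2) hR2.le
      _ = B ^ 2 / R ^ 2 := by field_simp
  have hδ2 : ‖δ ^ 2‖ ≤ B ^ 2 / R ^ 2 := by
    rw [norm_pow]
    calc ‖δ‖ ^ 2 ≤ (B / R ^ 2) ^ 2 := pow_le_pow_left₀ (norm_nonneg _) hδn 2
      _ = B ^ 2 / R ^ 4 := by rw [div_pow]; ring
      _ ≤ B ^ 2 / R ^ 2 := by
        exact div_le_div_of_nonneg_left (by positivity) hR2 hR24
  have hCB : C / R ^ 2 ≤ B ^ 2 / R ^ 2 := by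
    apply div_le_div_of_nonneg_right _ hR2.le
    nlinarith
  have hBB : B / R ^ 2 ≤ B ^ 2 / R ^ 2 := by
    apply div_le_div_of_nonneg_right _ hR2.le
    nlinarith
  have hN : ‖2 * (u ^ 3 * e) + u ^ 2 * δ ^ 2 - 4 * δ + 2 * δ ^ 2‖ ≤ 9 * (B ^ 2 / R ^ 2) := by
    have n1 : ‖2 * (u ^ 3 * e)‖ ≤ 2 * (B ^ 2 / R ^ 2) := by
      rw [norm_mul, Complex.norm_ofNat]; linarith
    have n2 : ‖4 * δ‖ ≤ 4 * (B ^ 2 / R ^ 2) := by
      rw [norm_mul, Complex.norm_ofNat]; linarith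
    have n3 : ‖2 * δ ^ 2‖ ≤ 2 * (B ^ 2 / R ^ 2) := by
      rw [norm_mul, Complex.norm_ofNat]; linarith
    have n4 := norm_add_le (2 * (u ^ 3 * e) + u ^ 2 * δ ^ 2 - 4 * δ) (2 * δ ^ 2)
    have n5 := norm_sub_le (2 * (u ^ 3 * e) + u ^ 2 * δ ^ 2) (4 * δ)
    have n6 := norm_add_le (2 * (u ^ 3 * e)) (u ^ 2 * δ ^ 2)
    linarith
  have hd2 : 1 / 4 ≤ ‖1 - δ‖ ^ 2 := by nlinarith
  have hfirst : ‖(2 * (u ^ 3 * e) + u ^ 2 * δ ^ 2 - 4 * δ + 2 * δ ^ 2) / (1 - δ) ^ 2‖ ≤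
      36 * B ^ 2 / R ^ 2 := by
    rw [norm_div, norm_pow, div_le_iff₀ (lt_of_lt_of_le (by norm_num) hd2)]
    have h0 : 0 ≤ 36 * (B ^ 2 / R ^ 2) := by positivity
    have e5 : 36 * B ^ 2 / R ^ 2 * ‖1 - δ‖ ^ 2 = 36 * (B ^ 2 / R ^ 2) * ‖1 - δ‖ ^ 2 := by ring
    rw [e5]
    have e6 := mul_le_mul_of_nonneg_left hd2 h0
    linarith
  have hsecond : ‖(u / (1 - δ)) ^ 2 * ((Real.pi : ℂ) / (k * c - Real.pi))‖ ≤ 64 / R ^ 2 := by
    rw [norm_mul, norm_pow, norm_div, norm_div, ← hR, Complex.norm_real, Real.norm_eq_abs,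
      abs_of_pos hpi0]
    have h1 : (R / ‖1 - δ‖) ^ 2 ≤ 4 * R ^ 2 := by
      rw [div_pow, div_le_iff₀ (lt_of_lt_of_le (by norm_num) hd2)]
      calc R ^ 2 = 4 * R ^ 2 * (1 / 4) := by ring
        _ ≤ 4 * R ^ 2 * ‖1 - δ‖ ^ 2 := mul_le_mul_of_nonneg_left hd2 (by positivity)
    have h2 : Real.pi / ‖k * c - (Real.pi : ℂ)‖ ≤ 16 / R ^ 4 := by
      have hp4 : 0 < R ^ 4 := by positivity
      have hp5 : 0 < ‖k * c - (Real.pi : ℂ)‖ := lt_of_lt_of_le (by positivity) hsub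
      rw [div_le_div_iff₀ hp5 hp4]
      calc Real.pi * R ^ 4 ≤ 4 * R ^ 4 := mul_le_mul_of_nonneg_right hpi.le hp4.le
        _ = 16 * (R ^ 4 / 4) := by ring
        _ ≤ 16 * ‖k * c - (Real.pi : ℂ)‖ := mul_le_mul_of_nonneg_left hsub (by norm_num)
    calc (R / ‖1 - δ‖) ^ 2 * (Real.pi / ‖k * c - (Real.pi : ℂ)‖)
        ≤ (4 * R ^ 2) * (16 / R ^ 4) := mul_le_mul h1 h2 (by positivity) (by positivity)
      _ = 64 / R ^ 2 := by field_simp; norm_num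
  calc _ ≤ ‖(2 * (u ^ 3 * e) + u ^ 2 * δ ^ 2 - 4 * δ + 2 * δ ^ 2) / (1 - δ) ^ 2‖ +
        ‖(u / (1 - δ)) ^ 2 * ((Real.pi : ℂ) / (k * c - Real.pi))‖ := norm_sub_le _ _
    _ ≤ 36 * B ^ 2 / R ^ 2 + 64 / R ^ 2 := add_le_add hfirst hsecond
    _ = _ := by ring

end GB

theorem t_GB (hA : S_KASY) (_hN : S_KNZ) : S_GB := by
  obtain ⟨C0, hC0⟩ := hA
  set C : ℝ := max C0 0 with hC
  have hCn : 0 ≤ C := le_max_right _ _
  refine ⟨2 * (36 * (1 + C) ^ 2 + 64), 184320 + 2 * (1 + C), fun u h0 h4 hT => ?_⟩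
  set R : ℝ := ‖u‖ with hR
  have hy : |u.im| ≤ R := Complex.abs_im_le_norm u
  have hyR : R ≤ 4 + |u.im| := by
    have := Complex.norm_le_abs_re_add_abs_im u
    rw [abs_of_nonneg h0] at this
    linarith
  have hy2 : R ≤ 2 * |u.im| := by linarith
  have hRpos : 0 < R := by linarith
  have hu : u ≠ 0 := by
    intro h; rw [h, norm_zero] at hR; linarith
  have hK : ‖K u - 1 / u + 1 / u ^ 3‖ ≤ C / ‖u‖ ^ 5 := by
    refine (hC0 u h0 hu).trans ?_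
    apply div_le_div_of_nonneg_right (le_max_left _ _) (by positivity)
  have hc : R ^ 5 ≤ ‖Complex.cos (Real.pi * u / 2)‖ := by
    refine le_trans ?_ (GB.cos_lower u (by linarith))
    have h1 := Real.pow_div_factorial_le_exp (Real.pi * |u.im| / 2) (by positivity) 6
    have h2 : R / 2 ≤ Real.pi * |u.im| / 2 := by
      have := Real.pi_gt_three
      nlinarith [abs_nonneg u.im]
    have h3 : (R / 2) ^ 6 ≤ (Real.pi * |u.im| / 2) ^ 6 := pow_le_pow_left₀ (by positivity) h2 6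
    have h4 : ((6 : ℕ).factorial : ℝ) = 720 := by norm_num [Nat.factorial]
    rw [h4] at h1
    have h5 : R ^ 5 * 184320 ≤ R ^ 5 * R := mul_le_mul_of_nonneg_left (by linarith) (by positivity)
    have h6 : (R / 2) ^ 6 = R ^ 5 * R / 64 := by ring
    have h7 : R ^ 5 ≤ (R / 2) ^ 6 / 2880 := by rw [h6]; linarith
    have h8 : (R / 2) ^ 6 / 2880 ≤ (Real.pi * |u.im| / 2) ^ 6 / 720 / 4 := by linarith
    linarith
  obtain ⟨hD, hG⟩ := GB.alg u (K u) (Complex.cos (Real.pi * u / 2)) C hCn R hR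
    (by linarith) (by linarith) hK hc
  refine ⟨hD, ?_⟩
  refine le_trans hG ?_
  have hyy : 1 ≤ u.im ^ 2 := by
    rw [← sq_abs]; nlinarith
  have hRy : u.im ^ 2 ≤ R ^ 2 := by
    rw [← sq_abs]; exact pow_le_pow_left₀ (abs_nonneg _) hy 2
  rw [div_le_div_iff₀ (by positivity) (by positivity)]
  have hpos : 0 ≤ 36 * (1 + C) ^ 2 + 64 := by positivity
  nlinarith

end

end Pool.Agent.R979.OC
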