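import Pool.Agent.R979.OC.Stm

namespace Pool.Agent.R979.OC

open MeasureTheory Set Filter Topology

noncomputable section

namespace GI

theorem re_I (ξ : ℝ) : ((ξ : ℂ) * Complex.I).re = 0 := by simp

theorem im_I (ξ : ℝ) : ((ξ : ℂ) * Complex.I).im = ξ := by simp

end GI

theorem t_GI (hK : S_KD) (hN : S_KNZ) (hFE : S_FE) (hGB : S_GB) : S_GI := by
  have g1 : ∀ ξ : ℝ, K (-((ξ : ℂ) * Complex.I)) = (starRingEnd ℂ) (K ((ξ : ℂ) * Complex.I)) := by
    intro ξ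
    rw [← hK.2 _ (by simp)]
    congr 1
    simp
  have nz : ∀ ξ : ℝ, K ((ξ : ℂ) * Complex.I) ≠ 0 := fun ξ => hN _ (by simp)
  have nz' : ∀ ξ : ℝ, K (-((ξ : ℂ) * Complex.I)) ≠ 0 := fun ξ => hN _ (by simp)
  have g2 : ∀ ξ : ℝ, G ((ξ : ℂ) * Complex.I) =
      1 / (K ((ξ : ℂ) * Complex.I) * K (-((ξ : ℂ) * Complex.I))) - (ξ : ℂ) ^ 2 + 2 := by
    intro ξ
    obtain ⟨h1, h2⟩ := hFE ((ξ : ℂ) * Complex.I) (by simp) (by simp)
    have hD : D ((ξ : ℂ) * Complex.I) = Complex.cos (Real.pi * ((ξ : ℂ) * Complex.I) / 2) * K (-((ξ : ℂ) * Complex.I)) := by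
      unfold D
      rw [eq_div_iff h1] at h2
      linear_combination -h2
    unfold G
    rw [hD]
    have h3 := nz ξ
    have h4 := nz' ξ
    have h5 : Complex.cos (Real.pi * ((ξ : ℂ) * Complex.I) / 2) /
        (K ((ξ : ℂ) * Complex.I) * (Complex.cos (Real.pi * ((ξ : ℂ) * Complex.I) / 2) * K (-((ξ : ℂ) * Complex.I)))) =
        1 / (K ((ξ : ℂ) * Complex.I) * K (-((ξ : ℂ) * Complex.I))) := by
      rw [div_eq_div_iff (mul_ne_zero h3 (mul_ne_zero h1 h4)) (mul_ne_zero h3 h4)]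
      ring
    rw [h5, mul_pow, Complex.I_sq]
    ring
  have g3 : ∀ ξ : ℝ, (G ((ξ : ℂ) * Complex.I)).im = 0 := by
    intro ξ
    rw [g2, g1, Complex.mul_conj]
    have : (1 / ((Complex.normSq (K ((ξ : ℂ) * Complex.I)) : ℝ) : ℂ) - (ξ : ℂ) ^ 2 + 2) =
      ((1 / Complex.normSq (K ((ξ : ℂ) * Complex.I)) - ξ ^ 2 + 2 : ℝ) : ℂ) := by push_cast; ring
    rw [this, Complex.ofReal_im]
  have g4 : ∀ ξ : ℝ, G (-((ξ : ℂ) * Complex.I)) = G ((ξ : ℂ) * Complex.I) := by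
    intro ξ
    have h1 := g2 (-ξ)
    have h2 : ((-ξ : ℝ) : ℂ) * Complex.I = -((ξ : ℂ) * Complex.I) := by push_cast; ring
    rw [h2, neg_neg] at h1
    rw [h1, g2 ξ]
    push_cast
    ring
  have hKc : Continuous (fun ξ : ℝ => K ((ξ : ℂ) * Complex.I)) := by
    rw [continuous_iff_continuousAt]
    intro ξ
    have hopen : IsOpen {s : ℂ | -1 < s.re} := isOpen_lt continuous_const Complex.continuous_re
    have h1 : ContinuousAt K ((ξ : ℂ) * Complex.I) :=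
      (hK.1.differentiableAt (hopen.mem_nhds (by simp))).continuousAt
    exact ContinuousAt.comp (g := K) (f := fun ξ : ℝ => (ξ : ℂ) * Complex.I) h1 (by fun_prop)
  have hKc' : Continuous (fun ξ : ℝ => K (-((ξ : ℂ) * Complex.I))) := by
    have : (fun ξ : ℝ => K (-((ξ : ℂ) * Complex.I))) = fun ξ : ℝ => (starRingEnd ℂ) (K ((ξ : ℂ) * Complex.I)) := by
      funext ξ; exact g1 ξ
    rw [this]
    exact Complex.continuous_conj.comp hKc
  have hGc : Continuous (fun ξ : ℝ => G ((ξ : ℂ) * Complex.I)) := by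
    have : (fun ξ : ℝ => G ((ξ : ℂ) * Complex.I)) = fun ξ : ℝ =>
        1 / (K ((ξ : ℂ) * Complex.I) * K (-((ξ : ℂ) * Complex.I))) - (ξ : ℂ) ^ 2 + 2 := by
      funext ξ; exact g2 ξ
    rw [this]
    exact ((continuous_const.div (hKc.mul hKc') (fun ξ => mul_ne_zero (nz ξ) (nz' ξ))).sub (by fun_prop)).add
      continuous_const
  have g5 : Continuous (fun ξ : ℝ => (G ((ξ : ℂ) * Complex.I)).re) := Complex.continuous_re.comp hGc
  refine ⟨g1, g2, g3, g4, g5, ?_⟩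
  obtain ⟨C, T, hCT⟩ := hGB
  -- bound on a compact interval
  obtain ⟨B, hB⟩ := (isCompact_Icc (a := -|T|) (b := |T|)).exists_bound_of_continuousOn (f := fun ξ : ℝ =>
    (G ((ξ : ℂ) * Complex.I)).re * (1 + ξ ^ 2)) (g5.mul (by fun_prop)).continuousOn
  have hint : Integrable (fun ξ : ℝ => (|B| + |C|) * (1 + ξ ^ 2)⁻¹) := integrable_inv_one_add_sq.const_mul _
  refine hint.mono' g5.aestronglyMeasurable (ae_of_all _ ?_)
  intro ξ
  have hpos : 0 < 1 + ξ ^ 2 := by positivity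
  rw [← div_eq_mul_inv, le_div_iff₀ hpos]
  by_cases h : |ξ| ≤ |T|
  · have h1 := hB ξ (abs_le.1 h)
    rw [Real.norm_eq_abs, abs_mul, abs_of_pos hpos] at h1
    rw [Real.norm_eq_abs]
    have := le_abs_self B
    have := abs_nonneg C
    linarith
  · push Not at h
    have h2 : T ≤ |((ξ : ℂ) * Complex.I).im| := by
      rw [GI.im_I]; exact (le_abs_self T).trans h.le
    have h1 := (hCT ((ξ : ℂ) * Complex.I) (by simp) (by simp) h2).2
    rw [GI.im_I, le_div_iff₀ hpos] at h1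
    have h3 : ‖(G ((ξ : ℂ) * Complex.I)).re‖ ≤ ‖G ((ξ : ℂ) * Complex.I)‖ := by
      rw [Real.norm_eq_abs]; exact Complex.abs_re_le_norm _
    have := le_abs_self C
    have := abs_nonneg B
    nlinarith

end

end Pool.Agent.R979.OC
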