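import Pool.Agent.R979.OC.Stm

namespace Pool.Agent.R979.OC

open MeasureTheory Set Filter Topology

noncomputable section

namespace INx

lemma int_base {s b : ℝ} (hs : -1 < s) (hb : 0 < b) :
    IntegrableOn (fun y : ℝ => y ^ s * Real.exp (-(b * y))) (Ioi 0) := by
  have h := integrableOn_rpow_mul_exp_neg_mul_rpow hs (zero_lt_one' ℝ) hb
  refine h.congr_fun ?_ measurableSet_Ioi
  intro y hy
  simp [Real.rpow_one]

lemma val_base {s b : ℝ} (hs : -1 < s) (hb : 0 < b) :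
    ∫ y in Ioi (0:ℝ), y ^ s * Real.exp (-(b * y)) = (1 / b) ^ (s + 1) * Real.Gamma (s + 1) := by
  have h := Real.integral_rpow_mul_exp_neg_mul_Ioi (a := s + 1) (by linarith) hb
  rw [← h]
  congr 1
  ext y
  ring_nf

lemma ratio_le {y : ℝ} (h0 : 0 ≤ y) (h1 : y < 1) : (1 - y) / (1 + y) ≤ Real.exp (-(2 * y)) := by
  have h := Real.hasSum_log_sub_log_of_abs_lt_one (x := y) (by rw [abs_of_nonneg h0]; exact h1)
  have h2 := le_hasSum h 0 (fun k _ => by positivity)
  have h3 : 2 * y ≤ Real.log (1 + y) - Real.log (1 - y) := by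
    simpa using h2
  rw [← Real.exp_log (show 0 < (1 - y) / (1 + y) by apply div_pos <;> linarith)]
  apply Real.exp_le_exp.mpr
  rw [Real.log_div (by linarith) (by linarith)]
  linarith

lemma ratio_ge {y : ℝ} (h0 : 0 ≤ y) (h1 : y ≤ 1) :
    Real.exp (-(2 * y)) * (1 - 4 / 3 * y ^ 3) ≤ (1 - y) / (1 + y) := by
  have h := Real.sum_le_exp_of_nonneg (x := 2 * y) (by linarith) 4
  simp [Finset.sum_range_succ, Nat.factorial] at h
  have hE : 0 < Real.exp (2 * y) := Real.exp_pos _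
  have key : (1 - 4 / 3 * y ^ 3) * (1 + y) ≤ (1 - y) * Real.exp (2 * y) := by
    have := mul_le_mul_of_nonneg_left h (by linarith : 0 ≤ 1 - y)
    nlinarith [pow_nonneg h0 3, pow_nonneg h0 4]
  rw [Real.exp_neg, le_div_iff₀ (by linarith)]
  calc (Real.exp (2 * y))⁻¹ * (1 - 4 / 3 * y ^ 3) * (1 + y)
      = ((1 - 4 / 3 * y ^ 3) * (1 + y)) / Real.exp (2 * y) := by
        rw [div_eq_mul_inv]; ring
    _ ≤ ((1 - y) * Real.exp (2 * y)) / Real.exp (2 * y) := div_le_div_of_nonneg_right key hE.le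
    _ = _ := by field_simp

/-- the kernel -/
def hh (n : ℕ) (y : ℝ) : ℝ := ((1 - y) / (1 + y)) ^ (2 * n) / (1 + y)

lemma main_est {n : ℕ} (hn : 1 ≤ n) {y : ℝ} (h0 : 0 < y) :
    |(Ioo (0:ℝ) 1).indicator (hh n) y - Real.exp (-(4 * n * y))| ≤
      (y + 3 * n * y ^ 3) * Real.exp (-(4 * n * y)) := by
  set E := Real.exp (-(4 * n * y)) with hE
  have hEpos : 0 < E := Real.exp_pos _
  have hn' : (1:ℝ) ≤ n := by exact_mod_cast hn
  have hy3p : 0 < y ^ 3 := pow_pos h0 3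
  have hty : 0 < (n : ℝ) * y ^ 3 := by positivity
  by_cases h1 : y < 1
  · rw [indicator_of_mem (show y ∈ Ioo (0:ℝ) 1 from ⟨h0, h1⟩)]
    unfold hh
    have hq0 : 0 ≤ (1 - y) / (1 + y) := div_nonneg (by linarith) (by linarith)
    have hq1 := ratio_le h0.le h1
    have l1 := ratio_ge h0.le h1.le
    set q := (1 - y) / (1 + y) with hq
    have hE2 : E = Real.exp (-(2 * y)) ^ (2 * n) := by
      rw [hE, ← Real.exp_nat_mul]; congr 1; push_cast; ring
    have up : q ^ (2 * n) ≤ E := by rw [hE2]; exact pow_le_pow_left₀ hq0 hq1 _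
    have hpos : 0 ≤ q ^ (2 * n) := pow_nonneg hq0 _
    have up2 : q ^ (2 * n) / (1 + y) ≤ E := (div_le_self hpos (by linarith)).trans up
    have low0 : 0 ≤ q ^ (2 * n) / (1 + y) := div_nonneg hpos (by linarith)
    have hlow : (1 - y - 3 * n * y ^ 3) * E ≤ q ^ (2 * n) / (1 + y) := by
      by_cases hc : 1 ≤ 3 * n * y ^ 3
      · have : (1 - y - 3 * n * y ^ 3) * E ≤ 0 :=
          mul_nonpos_of_nonpos_of_nonneg (by linarith) hEpos.le
        linarith
      · push Not at hc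
        have hy3 : 4 / 3 * y ^ 3 ≤ 1 := by nlinarith
        have l2 : (Real.exp (-(2 * y)) * (1 - 4 / 3 * y ^ 3)) ^ (2 * n) ≤ q ^ (2 * n) :=
          pow_le_pow_left₀ (mul_nonneg (Real.exp_pos _).le (by linarith)) l1 _
        rw [mul_pow, ← hE2] at l2
        have l3 := one_add_mul_le_pow (a := -(4 / 3 * y ^ 3)) (by linarith) (2 * n)
        have l4 : 1 - 3 * n * y ^ 3 ≤ (1 - 4 / 3 * y ^ 3) ^ (2 * n) := by
          refine le_trans ?_ (le_of_le_of_eq l3 (by ring_nf))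
          push_cast
          nlinarith
        have l5 : (1 - 3 * n * y ^ 3) * E ≤ q ^ (2 * n) := by
          refine le_trans ?_ l2
          rw [mul_comm]
          exact mul_le_mul_of_nonneg_left l4 hEpos.le
        rw [le_div_iff₀ (by linarith)]
        refine le_trans ?_ l5
        have : (1 - y - 3 * n * y ^ 3) * E * (1 + y) =
            ((1 - y - 3 * n * y ^ 3) * (1 + y)) * E := by ring
        rw [this]
        apply mul_le_mul_of_nonneg_right _ hEpos.le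
        nlinarith [mul_pos hty h0, mul_pos h0 h0]
    rw [abs_le]
    constructor
    · nlinarith
    · have : 0 ≤ (y + 3 * n * y ^ 3) * E := by positivity
      linarith
  · rw [indicator_of_notMem (by simp [h0]; linarith)]
    push Not at h1
    rw [zero_sub, abs_neg, abs_of_pos hEpos]
    have : 1 ≤ y + 3 * n * y ^ 3 := by nlinarith
    nlinarith

lemma cov (ρ : ℂ) (n : ℕ) :
    (∫ σ in Ioi (0 : ℝ), ((Real.tanh σ) ^ (2 * n) / Real.cosh σ : ℝ) *
      Complex.exp (-((2 * ρ + 1) * σ))) = ∫ y in Ioo (0:ℝ) 1, (y:ℂ) ^ ρ * (hh n y : ℂ) := by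
  have himg : (fun σ : ℝ => Real.exp (-(2 * σ))) '' Ioi 0 = Ioo 0 1 := by
    ext y; constructor
    · rintro ⟨σ, hσ, rfl⟩
      have hσ' : (0:ℝ) < σ := hσ
      exact ⟨Real.exp_pos _, Real.exp_lt_one_iff.mpr (by linarith)⟩
    · rintro ⟨h0, h1⟩
      refine ⟨-(Real.log y) / 2, ?_, ?_⟩
      · have := Real.log_neg h0 h1
        show (0:ℝ) < -(Real.log y) / 2
        linarith
      · show Real.exp (-(2 * (-(Real.log y) / 2))) = y
        rw [show -(2 * (-(Real.log y) / 2)) = Real.log y by ring, Real.exp_log h0]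
  have hder : ∀ σ ∈ Ioi (0:ℝ), HasDerivWithinAt (fun σ : ℝ => Real.exp (-(2 * σ)))
      (Real.exp (-(2 * σ)) * (-(2 * 1))) (Ioi 0) σ := by
    intro σ _
    apply HasDerivAt.hasDerivWithinAt
    exact (((hasDerivAt_id σ).const_mul 2).neg).exp
  have hinj : InjOn (fun σ : ℝ => Real.exp (-(2 * σ))) (Ioi 0) := by
    intro a _ b _ hab
    have := Real.exp_injective hab
    linarith
  rw [← himg, integral_image_eq_integral_abs_deriv_smul measurableSet_Ioi hder hinj]
  apply setIntegral_congr_fun measurableSet_Ioi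
  intro σ hσ
  have hc : Real.cosh σ ≠ 0 := (Real.cosh_pos σ).ne'
  have e1 : Real.exp (-(2 * σ)) = Real.exp (-σ) * Real.exp (-σ) := by
    rw [← Real.exp_add]; congr 1; ring
  have e2 : Real.exp σ * Real.exp (-σ) = 1 := by rw [← Real.exp_add]; simp
  have hp : 0 < Real.exp (-σ) := Real.exp_pos _
  have hp2 : 0 < Real.exp (σ) := Real.exp_pos _
  have t1 : (1 - Real.exp (-(2 * σ))) / (1 + Real.exp (-(2 * σ))) = Real.tanh σ := by
    rw [Real.tanh_eq_sinh_div_cosh, Real.sinh_eq, Real.cosh_eq, e1,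
      div_eq_div_iff (by positivity) (by positivity)]
    linear_combination (-Real.exp (-σ)) * e2
  have t2 : 1 / Real.cosh σ = 2 * Real.exp (-σ) / (1 + Real.exp (-(2 * σ))) := by
    rw [Real.cosh_eq, e1, div_eq_div_iff (by positivity) (by positivity)]
    linear_combination (-1 : ℝ) * e2
  have t3 : hh n (Real.exp (-(2 * σ))) =
      Real.tanh σ ^ (2 * n) / (1 + Real.exp (-(2 * σ))) := by
    unfold hh; rw [t1]
  have t4 : ((Real.exp (-(2 * σ)) : ℝ) : ℂ) ^ ρ = Complex.exp (-(2 * ρ * σ)) := by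
    rw [Complex.cpow_def_of_ne_zero (by exact_mod_cast (Real.exp_pos _).ne'),
      ← Complex.ofReal_log (Real.exp_pos _).le, Real.log_exp]
    congr 1
    push_cast
    ring
  have t5 : |Real.exp (-(2 * σ)) * (-(2 * 1))| = 2 * Real.exp (-(2 * σ)) := by
    rw [abs_mul, abs_of_pos (Real.exp_pos _)]
    norm_num
    ring
  have t6 : (Real.tanh σ) ^ (2 * n) / Real.cosh σ =
      2 * Real.exp (-σ) * (Real.tanh σ ^ (2 * n) / (1 + Real.exp (-(2 * σ)))) := by
    rw [div_eq_mul_one_div, t2]; ring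
  have t7 : Complex.exp (-((2 * ρ + 1) * σ)) =
      Complex.exp (-(2 * ρ * σ)) * ((Real.exp (-σ) : ℝ) : ℂ) := by
    rw [Complex.ofReal_exp, ← Complex.exp_add]
    congr 1
    push_cast
    ring
  simp only
  rw [t4, t3, t5, t6, t7, e1, Complex.real_smul]
  push_cast
  ring

end INx

open INx

theorem t_IN : S_IN := by
  intro ρ hρ
  refine ⟨(1 / 4) ^ (ρ.re + 1 + 1) * Real.Gamma (ρ.re + 1 + 1) +
    3 * ((1 / 4) ^ (ρ.re + 3 + 1) * Real.Gamma (ρ.re + 3 + 1)), ?_⟩
  intro n hn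
  have hn' : (1:ℝ) ≤ n := by exact_mod_cast hn
  have hn0 : (0:ℝ) < n := by linarith
  have h4n : (0:ℝ) < 4 * n := by linarith
  rw [cov]
  -- Gamma integral
  have hG : Complex.Gamma (ρ + 1) * (4 * n : ℂ) ^ (-(ρ + 1)) =
      ∫ y in Ioi (0:ℝ), (y:ℂ) ^ ρ * ((Real.exp (-(4 * n * y)) : ℝ) : ℂ) := by
    have h := Complex.integral_cpow_mul_exp_neg_mul_Ioi (a := ρ + 1) (r := (4 * n : ℝ))
      (by simp; linarith) h4n
    have hb : ((1:ℂ) / ((4 * n : ℝ) : ℂ)) ^ (ρ + 1) = (4 * n : ℂ) ^ (-(ρ + 1)) := by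
      rw [one_div, Complex.inv_cpow, Complex.cpow_neg]
      · push_cast; rfl
      · rw [Complex.arg_ofReal_of_nonneg h4n.le]
        exact Real.pi_pos.ne
    rw [hb] at h
    rw [mul_comm, ← h]
    congr 1
    ext y
    push_cast
    rw [add_sub_cancel_right]
  rw [hG]
  set R := ρ.re with hR
  -- integrability
  have i2 : IntegrableOn (fun y : ℝ => (y:ℂ) ^ ρ * ((Real.exp (-(4 * n * y)) : ℝ) : ℂ))
      (Ioi 0) := by
    refine Integrable.mono' (int_base (s := R) (b := 4 * n) (by linarith) h4n) ?_ ?_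
    · apply ContinuousOn.aestronglyMeasurable _ measurableSet_Ioi
      apply ContinuousOn.mul
      · apply ContinuousOn.cpow_const
        · fun_prop
        · intro y hy
          left
          simpa using hy
      · fun_prop
    · filter_upwards [ae_restrict_mem measurableSet_Ioi] with y hy
      rw [norm_mul, Complex.norm_cpow_eq_rpow_re_of_pos hy, Complex.norm_real,
        Real.norm_of_nonneg (Real.exp_pos _).le]
  have hmh : Measurable (hh n) := by
    unfold hh; fun_prop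
  have i1 : IntegrableOn (fun y : ℝ => (y:ℂ) ^ ρ *
      (((Ioo (0:ℝ) 1).indicator (hh n) y : ℝ) : ℂ)) (Ioi 0) := by
    refine Integrable.mono' (int_base (s := R) (b := 4 * n) (by linarith) h4n) ?_ ?_
    · apply AEStronglyMeasurable.mul
      · apply ContinuousOn.aestronglyMeasurable _ measurableSet_Ioi
        apply ContinuousOn.cpow_const
        · fun_prop
        · intro y hy
          left
          simpa using hy
      · apply Measurable.aestronglyMeasurable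
        exact Complex.measurable_ofReal.comp (hmh.indicator measurableSet_Ioo)
    · filter_upwards [ae_restrict_mem measurableSet_Ioi] with y hy
      rw [norm_mul, Complex.norm_cpow_eq_rpow_re_of_pos hy, Complex.norm_real]
      apply mul_le_mul_of_nonneg_left _ (Real.rpow_nonneg (le_of_lt hy) _)
      by_cases h1 : y ∈ Ioo (0:ℝ) 1
      · rw [indicator_of_mem h1]
        have hy0 : (0:ℝ) < y := hy
        have hy1 : y < 1 := h1.2
        have hq0 : 0 ≤ (1 - y) / (1 + y) := div_nonneg (by linarith) (by linarith)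
        have hpos : 0 ≤ ((1 - y) / (1 + y)) ^ (2 * n) := pow_nonneg hq0 _
        unfold hh
        rw [Real.norm_of_nonneg (div_nonneg hpos (by linarith))]
        refine (div_le_self hpos (by linarith)).trans ?_
        have hE2 : Real.exp (-(4 * n * y)) = Real.exp (-(2 * y)) ^ (2 * n) := by
          rw [← Real.exp_nat_mul]; congr 1; push_cast; ring
        rw [hE2]
        exact pow_le_pow_left₀ hq0 (ratio_le hy0.le hy1) _
      · rw [indicator_of_notMem h1, norm_zero]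
        exact (Real.exp_pos _).le
  have hI1 : ∫ y in Ioo (0:ℝ) 1, (y:ℂ) ^ ρ * (hh n y : ℂ) =
      ∫ y in Ioi (0:ℝ), (y:ℂ) ^ ρ * (((Ioo (0:ℝ) 1).indicator (hh n) y : ℝ) : ℂ) := by
    have e : (fun y : ℝ => (y:ℂ) ^ ρ * (((Ioo (0:ℝ) 1).indicator (hh n) y : ℝ) : ℂ)) =
        (Ioo (0:ℝ) 1).indicator (fun y : ℝ => (y:ℂ) ^ ρ * (hh n y : ℂ)) := by
      ext y
      by_cases h1 : y ∈ Ioo (0:ℝ) 1
      · rw [indicator_of_mem h1, indicator_of_mem h1]
      · rw [indicator_of_notMem h1, indicator_of_notMem h1]; simp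
    rw [e, setIntegral_indicator measurableSet_Ioo]
    congr 2
    ext y
    simp only [mem_inter_iff, mem_Ioi, mem_Ioo]
    tauto
  rw [hI1, ← integral_sub i1 i2]
  have j1 := int_base (s := R + 1) (b := 4 * n) (by linarith) h4n
  have j2 := int_base (s := R + 3) (b := 4 * n) (by linarith) h4n
  have hle : ‖∫ y in Ioi (0:ℝ), ((y:ℂ) ^ ρ * (((Ioo (0:ℝ) 1).indicator (hh n) y : ℝ) : ℂ) -
      (y:ℂ) ^ ρ * ((Real.exp (-(4 * n * y)) : ℝ) : ℂ))‖ ≤
      ∫ y in Ioi (0:ℝ), (y ^ (R + 1) * Real.exp (-(4 * n * y)) +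
        (3 * n) * (y ^ (R + 3) * Real.exp (-(4 * n * y)))) := by
    refine norm_integral_le_of_norm_le (j1.add (j2.const_mul (3 * n))) ?_
    filter_upwards [ae_restrict_mem measurableSet_Ioi] with y hy
    have hy0 : (0:ℝ) < y := hy
    rw [← mul_sub, norm_mul, Complex.norm_cpow_eq_rpow_re_of_pos hy, ← Complex.ofReal_sub,
      Complex.norm_real, Real.norm_eq_abs]
    have hm := main_est hn hy0
    have hr : y ^ (R + 1) = y ^ R * y := by rw [Real.rpow_add hy0, Real.rpow_one]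
    have hr3 : y ^ (R + 3) = y ^ R * y ^ 3 := by
      rw [Real.rpow_add hy0]
      congr 1
      exact_mod_cast Real.rpow_natCast y 3
    calc y ^ ρ.re * |(Ioo (0:ℝ) 1).indicator (hh n) y - Real.exp (-(4 * n * y))|
        ≤ y ^ R * ((y + 3 * n * y ^ 3) * Real.exp (-(4 * n * y))) :=
          mul_le_mul_of_nonneg_left hm (Real.rpow_nonneg hy0.le _)
      _ = _ := by rw [hr, hr3]; ring
  refine hle.trans ?_
  rw [integral_add j1 (j2.const_mul (3 * n)), integral_const_mul,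
    val_base (by linarith) h4n, val_base (by linarith) h4n]
  have hsplit : ∀ a : ℝ, ((1:ℝ) / (4 * n)) ^ a = (1 / 4) ^ a * (n:ℝ) ^ (-a) := by
    intro a
    rw [show (1:ℝ) / (4 * n) = (1 / 4) * (n:ℝ)⁻¹ by field_simp,
      Real.mul_rpow (by norm_num) (by positivity), Real.inv_rpow hn0.le, Real.rpow_neg hn0.le]
  rw [hsplit, hsplit]
  have hpow : (n:ℝ) * (n:ℝ) ^ (-(R + 3 + 1)) ≤ (n:ℝ) ^ (-(R + 2)) := by
    have : (n:ℝ) * (n:ℝ) ^ (-(R + 3 + 1)) = (n:ℝ) ^ (1 + -(R + 3 + 1)) := by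
      rw [Real.rpow_add hn0, Real.rpow_one]
    rw [this]
    exact Real.rpow_le_rpow_of_exponent_le hn' (by linarith)
  have hpow1 : (n:ℝ) ^ (-(R + 1 + 1)) = (n:ℝ) ^ (-(R + 2)) := by congr 1; ring
  rw [hpow1]
  have g1 : 0 < Real.Gamma (R + 3 + 1) := Real.Gamma_pos_of_pos (by linarith)
  have g2 : (0:ℝ) < (1 / 4) ^ (R + 3 + 1) := Real.rpow_pos_of_pos (by norm_num) _
  have := mul_le_mul_of_nonneg_left hpow (mul_pos g2 g1).le
  nlinarith

theorem t_IE : S_IE := by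
  obtain ⟨C, hC⟩ := t_IN (3 / 2 : ℂ) (by norm_num)
  refine ⟨‖Complex.Gamma (3 / 2 + 1)‖ + |C|, ?_⟩
  intro n hn
  have h := hC n hn
  have hn' : (1:ℝ) ≤ n := by exact_mod_cast hn
  have hn0 : (0:ℝ) < n := by linarith
  have e : (∫ σ in Ioi (0 : ℝ), ((Real.tanh σ) ^ (2 * n) / Real.cosh σ : ℝ) *
      Complex.exp (-((2 * (3 / 2 : ℂ) + 1) * σ))) =
      ((∫ σ in Ioi (0 : ℝ), (Real.tanh σ) ^ (2 * n) / Real.cosh σ * Real.exp (-(4 * σ)) : ℝ) :
        ℂ) := by
    rw [← integral_complex_ofReal]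
    congr 1
    ext σ
    push_cast
    congr 2
    ring
  rw [e] at h
  set I := ∫ σ in Ioi (0 : ℝ), (Real.tanh σ) ^ (2 * n) / Real.cosh σ * Real.exp (-(4 * σ))
  have h1 : ‖(I : ℂ)‖ ≤ ‖Complex.Gamma (3 / 2 + 1) * (4 * n : ℂ) ^ (-(3 / 2 + 1 : ℂ))‖ +
      C * (n : ℝ) ^ (-((3 / 2 : ℂ).re + 2)) := by
    have := norm_le_norm_add_norm_sub' (I : ℂ)
      (Complex.Gamma (3 / 2 + 1) * (4 * n : ℂ) ^ (-(3 / 2 + 1 : ℂ)))
    linarith
  have h2 : ‖(4 * n : ℂ) ^ (-(3 / 2 + 1 : ℂ))‖ ≤ (n:ℝ) ^ (-(5 / 2 : ℝ)) := by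
    have e4 : (4 * n : ℂ) = ((4 * n : ℝ) : ℂ) := by push_cast; rfl
    rw [e4, Complex.norm_cpow_eq_rpow_re_of_pos (by linarith)]
    have : (-(3 / 2 + 1 : ℂ)).re = -(5 / 2 : ℝ) := by norm_num
    rw [this]
    apply Real.rpow_le_rpow_of_nonpos hn0 (by linarith) (by norm_num)
  have h3 : (n : ℝ) ^ (-((3 / 2 : ℂ).re + 2)) ≤ (n:ℝ) ^ (-(5 / 2 : ℝ)) := by
    apply Real.rpow_le_rpow_of_exponent_le hn'
    norm_num
  have h4 : I ≤ ‖(I : ℂ)‖ := by
    rw [Complex.norm_real]; exact le_abs_self _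
  have h5 : 0 ≤ (n : ℝ) ^ (-((3 / 2 : ℂ).re + 2)) := Real.rpow_nonneg hn0.le _
  calc I ≤ ‖(I : ℂ)‖ := h4
    _ ≤ _ := h1
    _ ≤ ‖Complex.Gamma (3 / 2 + 1)‖ * (n:ℝ) ^ (-(5 / 2 : ℝ)) +
        |C| * (n:ℝ) ^ (-(5 / 2 : ℝ)) := by
        rw [norm_mul]
        apply add_le_add
        · exact mul_le_mul_of_nonneg_left h2 (norm_nonneg _)
        · calc C * (n : ℝ) ^ (-((3 / 2 : ℂ).re + 2)) ≤ |C| * (n : ℝ) ^ (-((3 / 2 : ℂ).re + 2)) :=
                mul_le_mul_of_nonneg_right (le_abs_self C) h5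
            _ ≤ _ := mul_le_mul_of_nonneg_left h3 (abs_nonneg _)
    _ = _ := by ring

end

end Pool.Agent.R979.OC
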