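import Pool.Agent.R979.OC.Stm

namespace Pool.Agent.R979.OC

open MeasureTheory Set Filter Topology

noncomputable section

namespace KAsy

/-- Laplace transform. -/
def Lap (g : ℝ → ℝ) (s : ℂ) : ℂ := ∫ r in Ioi (0 : ℝ), Complex.exp (-(s * r)) * (g r : ℂ)

lemma norm_exp_le {s : ℂ} (hs : 0 ≤ s.re) {r : ℝ} (hr : 0 ≤ r) :
    ‖Complex.exp (-(s * r))‖ ≤ 1 := by
  rw [Complex.norm_exp]
  apply Real.exp_le_one_iff.mpr
  have : (-(s * (r : ℂ))).re = -(s.re * r) := by simp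
  rw [this]
  nlinarith [mul_nonneg hs hr]

lemma integrableOn_lap {g : ℝ → ℝ} (hg : Continuous g) {A : ℝ}
    (hA : ∀ r, 0 ≤ r → |g r| ≤ A * Real.exp (-r)) {s : ℂ} (hs : 0 ≤ s.re) :
    IntegrableOn (fun r : ℝ => Complex.exp (-(s * r)) * (g r : ℂ)) (Ioi 0) := by
  have h1 : IntegrableOn (fun r : ℝ => A * Real.exp (-r)) (Ioi 0) :=
    (integrableOn_exp_neg_Ioi 0).const_mul A
  refine Integrable.mono' h1 ?_ ?_
  · apply Continuous.aestronglyMeasurable
    fun_prop
  · filter_upwards [ae_restrict_mem measurableSet_Ioi] with r hr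
    have hr0 : 0 ≤ r := le_of_lt hr
    rw [norm_mul, Complex.norm_real, Real.norm_eq_abs]
    calc ‖Complex.exp (-(s * r))‖ * |g r| ≤ 1 * |g r| :=
          mul_le_mul_of_nonneg_right (norm_exp_le hs hr0) (abs_nonneg _)
      _ = |g r| := one_mul _
      _ ≤ _ := hA r hr0

lemma norm_lap_le {g : ℝ → ℝ} {A : ℝ}
    (hA : ∀ r, 0 ≤ r → |g r| ≤ A * Real.exp (-r)) {s : ℂ} (hs : 0 ≤ s.re) :
    ‖Lap g s‖ ≤ A := by
  have h1 : IntegrableOn (fun r : ℝ => A * Real.exp (-r)) (Ioi 0) :=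
    (integrableOn_exp_neg_Ioi 0).const_mul A
  have h2 : ‖Lap g s‖ ≤ ∫ r in Ioi (0 : ℝ), A * Real.exp (-r) := by
    unfold Lap
    refine norm_integral_le_of_norm_le h1 ?_
    filter_upwards [ae_restrict_mem measurableSet_Ioi] with r hr
    have hr0 : 0 ≤ r := le_of_lt hr
    rw [norm_mul, Complex.norm_real, Real.norm_eq_abs]
    calc ‖Complex.exp (-(s * r))‖ * |g r| ≤ 1 * |g r| :=
          mul_le_mul_of_nonneg_right (norm_exp_le hs hr0) (abs_nonneg _)
      _ = |g r| := one_mul _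
      _ ≤ _ := hA r hr0
  rw [integral_const_mul, integral_exp_neg_Ioi_zero, mul_one] at h2
  exact h2

lemma parts {g g' : ℝ → ℝ} (hd : ∀ r, HasDerivAt g (g' r) r) (hg' : Continuous g') {A B : ℝ}
    (hA : ∀ r, 0 ≤ r → |g r| ≤ A * Real.exp (-r)) (hB : ∀ r, 0 ≤ r → |g' r| ≤ B * Real.exp (-r))
    {s : ℂ} (hs : 0 ≤ s.re) : s * Lap g s = g 0 + Lap g' s := by
  have hg : Continuous g := continuous_iff_continuousAt.mpr fun r => (hd r).continuousAt
  have i1 := integrableOn_lap hg hA hs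
  have i2 := integrableOn_lap hg' hB hs
  have hder : ∀ r ∈ Ioi (0 : ℝ), HasDerivAt (fun r : ℝ => Complex.exp (-(s * r)) * (g r : ℂ))
      ((-s) * (Complex.exp (-(s * r)) * (g r : ℂ)) + Complex.exp (-(s * r)) * (g' r : ℂ)) r := by
    intro r _
    have e1 : HasDerivAt (fun r : ℝ => Complex.exp (-(s * r)))
        (Complex.exp (-(s * r)) * (-(s * 1))) r := by
      have : HasDerivAt (fun r : ℝ => -(s * (r : ℂ))) (-(s * 1)) r :=
        ((Complex.ofRealCLM.hasDerivAt (x := r)).const_mul s).neg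
      exact this.cexp
    have e2 : HasDerivAt (fun r : ℝ => (g r : ℂ)) ((g' r : ℝ) : ℂ) r := (hd r).ofReal_comp
    have e3 := e1.mul e2
    refine e3.congr_deriv ?_
    ring
  have hcont : ContinuousWithinAt (fun r : ℝ => Complex.exp (-(s * r)) * (g r : ℂ)) (Ici 0) 0 := by
    apply Continuous.continuousWithinAt
    fun_prop
  have hint : IntegrableOn (fun r : ℝ => (-s) * (Complex.exp (-(s * r)) * (g r : ℂ)) +
      Complex.exp (-(s * r)) * (g' r : ℂ)) (Ioi 0) := (i1.const_mul (-s)).add i2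
  have hlim : Tendsto (fun r : ℝ => Complex.exp (-(s * r)) * (g r : ℂ)) atTop (𝓝 0) := by
    have h0 : Tendsto (fun r : ℝ => A * Real.exp (-r)) atTop (𝓝 0) := by
      have := (Real.tendsto_exp_neg_atTop_nhds_zero).const_mul A
      simpa using this
    refine squeeze_zero_norm' ?_ h0
    filter_upwards [eventually_ge_atTop 0] with r hr0
    rw [norm_mul, Complex.norm_real, Real.norm_eq_abs]
    calc ‖Complex.exp (-(s * r))‖ * |g r| ≤ 1 * |g r| :=
          mul_le_mul_of_nonneg_right (norm_exp_le hs hr0) (abs_nonneg _)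
      _ = |g r| := one_mul _
      _ ≤ _ := hA r hr0
  have key := integral_Ioi_of_hasDerivAt_of_tendsto hcont hder hint hlim
  rw [integral_add (i1.const_mul (-s)) i2, integral_const_mul] at key
  have e0 : Complex.exp (-(s * ((0 : ℝ) : ℂ))) = 1 := by simp
  rw [e0] at key
  unfold Lap
  linear_combination -key

/-- sech -/
def u (r : ℝ) : ℝ := 1 / Real.cosh r
/-- tanh -/
def v (r : ℝ) : ℝ := Real.sinh r / Real.cosh r

lemma hu (r : ℝ) : HasDerivAt u (-(u r * v r)) r := by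
  have hc : Real.cosh r ≠ 0 := (Real.cosh_pos r).ne'
  have h := (Real.hasDerivAt_cosh r).inv hc
  have e : u = fun r => (Real.cosh r)⁻¹ := by ext r; simp [u]
  rw [e]
  refine h.congr_deriv ?_
  unfold v
  field_simp

lemma hv (r : ℝ) : HasDerivAt v (u r ^ 2) r := by
  have hc : Real.cosh r ≠ 0 := (Real.cosh_pos r).ne'
  have h := (Real.hasDerivAt_sinh r).div (Real.hasDerivAt_cosh r) hc
  refine h.congr_deriv ?_
  unfold u
  have := Real.cosh_sq r
  field_simp
  nlinarith [this]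

lemma hv2 (r : ℝ) : v r ^ 2 = 1 - u r ^ 2 := by
  have hc : Real.cosh r ≠ 0 := (Real.cosh_pos r).ne'
  have := Real.cosh_sq r
  unfold u v
  field_simp
  linarith

lemma u_pos (r : ℝ) : 0 < u r := one_div_pos.mpr (Real.cosh_pos r)

lemma u_le_one (r : ℝ) : u r ≤ 1 := by
  unfold u
  rw [div_le_one (Real.cosh_pos r)]
  exact Real.one_le_cosh r

lemma v_abs (r : ℝ) : |v r| ≤ 1 := by
  have h := hv2 r
  have h2 : v r ^ 2 ≤ 1 := by rw [h]; nlinarith [sq_nonneg (u r)]
  exact (sq_le_one_iff_abs_le_one _).mp h2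

lemma u_le (r : ℝ) : u r ≤ 2 * Real.exp (-r) := by
  unfold u
  rw [div_le_iff₀ (Real.cosh_pos r), Real.cosh_eq]
  have h : Real.exp (-r) * Real.exp r = 1 := by rw [← Real.exp_add]; simp
  nlinarith [Real.exp_pos r, Real.exp_pos (-r), mul_pos (Real.exp_pos (-r)) (Real.exp_pos (-r))]

lemma cu : Continuous u := continuous_iff_continuousAt.mpr fun r => (hu r).continuousAt
lemma cv : Continuous v := continuous_iff_continuousAt.mpr fun r => (hv r).continuousAt

lemma bd {a b A : ℝ} {r : ℝ} (h : |b| ≤ A) (hA : 0 ≤ A) (h2 : a = u r * b) :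
    |a| ≤ (2 * A) * Real.exp (-r) := by
  rw [h2, abs_mul, abs_of_pos (u_pos r)]
  calc u r * |b| ≤ (2 * Real.exp (-r)) * A :=
        mul_le_mul (u_le r) h (abs_nonneg _) (by positivity)
    _ = _ := by ring

end KAsy

open KAsy

theorem t_KASY : S_KASY := by
  refine ⟨400, ?_⟩
  intro s hs hs0
  have hK : K s = Lap u s := by
    unfold K Lap u
    congr 1
    ext r
    push_cast
    rw [mul_one_div]
  -- bounds
  have ub : ∀ r, |u r| ≤ 1 := fun r => by rw [abs_of_pos (u_pos r)]; exact u_le_one r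
  have u2 : ∀ r, 0 ≤ u r ^ 2 ∧ u r ^ 2 ≤ 1 := fun r =>
    ⟨by positivity, pow_le_one₀ (u_pos r).le (u_le_one r)⟩
  have u4 : ∀ r, 0 ≤ u r ^ 4 ∧ u r ^ 4 ≤ 1 := fun r =>
    ⟨by have := u_pos r; positivity, pow_le_one₀ (u_pos r).le (u_le_one r)⟩
  have b0 : ∀ r, 0 ≤ r → |u r| ≤ (2 * 1) * Real.exp (-r) := fun r _ =>
    bd (b := 1) (by simp) (by norm_num) (by ring)
  have b1 : ∀ r, 0 ≤ r → |-(u r * v r)| ≤ (2 * 1) * Real.exp (-r) := fun r _ =>
    bd (b := -v r) (by rw [abs_neg]; exact v_abs r) (by norm_num) (by ring)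
  have b2 : ∀ r, 0 ≤ r → |u r - 2 * u r ^ 3| ≤ (2 * 3) * Real.exp (-r) := fun r _ =>
    bd (b := 1 - 2 * u r ^ 2) (by rw [abs_le]; constructor <;> nlinarith [u2 r])
      (by norm_num) (by ring)
  have b3 : ∀ r, 0 ≤ r → |-(u r * v r) + 6 * (u r ^ 3 * v r)| ≤ (2 * 7) * Real.exp (-r) :=
    fun r _ => bd (b := (-1 + 6 * u r ^ 2) * v r) (by
      rw [abs_mul]
      have h1 : |-1 + 6 * u r ^ 2| ≤ 7 := by rw [abs_le]; constructor <;> nlinarith [u2 r]
      calc _ ≤ (7 : ℝ) * 1 := mul_le_mul h1 (v_abs r) (abs_nonneg _) (by norm_num)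
        _ = 7 := by ring)
      (by norm_num) (by ring)
  have b4 : ∀ r, 0 ≤ r → |u r - 20 * u r ^ 3 + 24 * u r ^ 5| ≤ (2 * 45) * Real.exp (-r) :=
    fun r _ => bd (b := 1 - 20 * u r ^ 2 + 24 * u r ^ 4)
      (by rw [abs_le]; constructor <;> nlinarith [u2 r, u4 r]) (by norm_num) (by ring)
  have b5 : ∀ r, 0 ≤ r → |-(u r * v r) + 60 * (u r ^ 3 * v r) - 120 * (u r ^ 5 * v r)| ≤
      (2 * 181) * Real.exp (-r) :=
    fun r _ => bd (b := (-1 + 60 * u r ^ 2 - 120 * u r ^ 4) * v r) (by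
      rw [abs_mul]
      have h1 : |-1 + 60 * u r ^ 2 - 120 * u r ^ 4| ≤ 181 := by
        rw [abs_le]; constructor <;> nlinarith [u2 r, u4 r]
      calc _ ≤ (181 : ℝ) * 1 := mul_le_mul h1 (v_abs r) (abs_nonneg _) (by norm_num)
        _ = 181 := by ring)
      (by norm_num) (by ring)
  have cu := cu
  have cv := cv
  -- derivatives
  have d1 : ∀ r, HasDerivAt (fun r => -(u r * v r)) (u r - 2 * u r ^ 3) r := fun r => by
    have h := ((hu r).mul (hv r)).neg
    refine h.congr_deriv ?_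
    have := hv2 r
    linear_combination (u r) * this
  have d2 : ∀ r, HasDerivAt (fun r => u r - 2 * u r ^ 3)
      (-(u r * v r) + 6 * (u r ^ 3 * v r)) r := fun r => by
    have h := (hu r).sub (((hu r).pow 3).const_mul 2)
    refine h.congr_deriv ?_
    simp
    ring
  have d3 : ∀ r, HasDerivAt (fun r => -(u r * v r) + 6 * (u r ^ 3 * v r))
      (u r - 20 * u r ^ 3 + 24 * u r ^ 5) r := fun r => by
    have h := (((hu r).mul (hv r)).neg).add ((((hu r).pow 3).mul (hv r)).const_mul 6)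
    refine h.congr_deriv ?_
    have := hv2 r
    simp
    linear_combination (u r - 18 * u r ^ 3) * this
  have d4 : ∀ r, HasDerivAt (fun r => u r - 20 * u r ^ 3 + 24 * u r ^ 5)
      (-(u r * v r) + 60 * (u r ^ 3 * v r) - 120 * (u r ^ 5 * v r)) r := fun r => by
    have h := ((hu r).sub (((hu r).pow 3).const_mul 20)).add (((hu r).pow 5).const_mul 24)
    refine h.congr_deriv ?_
    simp
    ring
  have p0 := parts hu (by fun_prop) b0 b1 hs
  have p1 := parts d1 (by fun_prop) b1 b2 hs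
  have p2 := parts d2 (by fun_prop) b2 b3 hs
  have p3 := parts d3 (by fun_prop) b3 b4 hs
  have p4 := parts d4 (by fun_prop) b4 b5 hs
  have n5 := norm_lap_le b5 hs
  have u0 : u 0 = 1 := by simp [u]
  have v0 : v 0 = 0 := by simp [v]
  simp only [u0, v0] at p0 p1 p2 p3 p4
  push_cast at p0 p1 p2 p3 p4
  set L0 := Lap u s
  set L1 := Lap (fun r => -(u r * v r)) s
  set L2 := Lap (fun r => u r - 2 * u r ^ 3) s
  set L3 := Lap (fun r => -(u r * v r) + 6 * (u r ^ 3 * v r)) s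
  set L4 := Lap (fun r => u r - 20 * u r ^ 3 + 24 * u r ^ 5) s
  set L5 := Lap (fun r => -(u r * v r) + 60 * (u r ^ 3 * v r) - 120 * (u r ^ 5 * v r)) s
  have hfin : K s - 1 / s + 1 / s ^ 3 = (5 + L5) / s ^ 5 := by
    rw [hK]
    field_simp
    linear_combination s ^ 4 * p0 + s ^ 3 * p1 + s ^ 2 * p2 + s * p3 + p4
  rw [hfin, norm_div, norm_pow]
  have hspos : 0 < ‖s‖ := norm_pos_iff.mpr hs0
  apply div_le_div_of_nonneg_right _ (by positivity)
  calc ‖5 + L5‖ ≤ ‖(5 : ℂ)‖ + ‖L5‖ := norm_add_le _ _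
    _ ≤ 5 + 2 * 181 := by
        have : ‖(5 : ℂ)‖ = 5 := by simp
        rw [this]; linarith
    _ ≤ 400 := by norm_num

end

end Pool.Agent.R979.OC
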