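import Pool.Agent.R979.OC.Stm

namespace Pool.Agent.R979.OC

open MeasureTheory Set Filter Topology

noncomputable section

namespace KNZ

theorem inv_cosh_le (r : ℝ) : 1 / Real.cosh r ≤ 2 * Real.exp (-r) := by
  have h1 : Real.exp r / 2 ≤ Real.cosh r := by
    rw [Real.cosh_eq]; have := Real.exp_pos (-r); linarith
  have h2 := Real.exp_pos r
  rw [Real.exp_neg, div_le_iff₀ (Real.cosh_pos r)]
  calc (1:ℝ) = 2 * (Real.exp r)⁻¹ * (Real.exp r / 2) := by field_simp
    _ ≤ _ := by gcongr

theorem norm_exp_mul (s : ℂ) (r : ℝ) : ‖Complex.exp (-(s * r))‖ = Real.exp (-(s.re * r)) := by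
  rw [Complex.norm_exp]; simp

theorem norm_le (s : ℂ) (r : ℝ) :
    ‖Complex.exp (-(s * r)) / (Real.cosh r : ℂ)‖ ≤ 2 * Real.exp (-(s.re + 1) * r) := by
  rw [norm_div, norm_exp_mul, Complex.norm_real, Real.norm_of_nonneg (Real.cosh_pos r).le]
  have h := inv_cosh_le r
  calc Real.exp (-(s.re * r)) / Real.cosh r = Real.exp (-(s.re * r)) * (1 / Real.cosh r) := by ring
    _ ≤ Real.exp (-(s.re * r)) * (2 * Real.exp (-r)) := by gcongr
    _ = 2 * (Real.exp (-(s.re * r)) * Real.exp (-r)) := by ring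
    _ = _ := by rw [← Real.exp_add]; congr 2; ring

theorem cont_int (s : ℂ) : Continuous (fun r : ℝ => Complex.exp (-(s * r)) / (Real.cosh r : ℂ)) := by
  refine Continuous.div (by fun_prop) (Complex.continuous_ofReal.comp Real.continuous_cosh) ?_
  intro r
  exact_mod_cast (Real.cosh_pos r).ne'

theorem intg (s : ℂ) (hs : -1 < s.re) :
    IntegrableOn (fun r : ℝ => Complex.exp (-(s * r)) / (Real.cosh r : ℂ)) (Ioi 0) := by
  have h1 : IntegrableOn (fun r : ℝ => 2 * Real.exp (-(s.re + 1) * r)) (Ioi 0) :=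
    (exp_neg_integrableOn_Ioi 0 (by linarith : 0 < s.re + 1)).const_mul 2
  exact h1.mono' (cont_int s).aestronglyMeasurable (ae_of_all _ (norm_le s))

theorem K_hasDerivAt (s0 : ℂ) (hs : -1 < s0.re) : DifferentiableAt ℂ K s0 := by
  set e := (s0.re + 1) / 2 with he
  have hepos : 0 < e := by linarith
  have key := hasDerivAt_integral_of_dominated_loc_of_deriv_le (μ := volume.restrict (Ioi (0:ℝ))) (𝕜 := ℂ)
    (F := fun (s : ℂ) (r : ℝ) => Complex.exp (-(s * r)) / (Real.cosh r : ℂ))
    (F' := fun (s : ℂ) (r : ℝ) => (Complex.exp (-(s * r)) * (-r)) / (Real.cosh r : ℂ))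
    (x₀ := s0) (s := Metric.ball s0 e) (bound := fun r : ℝ => (4 / e) * Real.exp (-(e / 2) * r))
    (Metric.ball_mem_nhds s0 hepos) ?_ (intg s0 hs) ?_ ?_ ?_ ?_
  · exact key.2.differentiableAt
  · exact Eventually.of_forall (fun s => (cont_int s).aestronglyMeasurable)
  · refine Continuous.aestronglyMeasurable ?_
    refine Continuous.div (by fun_prop) (Complex.continuous_ofReal.comp Real.continuous_cosh) ?_
    intro r
    exact_mod_cast (Real.cosh_pos r).ne'
  · refine (ae_restrict_iff' measurableSet_Ioi).2 (ae_of_all _ ?_)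
    intro r hr s hs
    have hr0 : 0 < r := hr
    have h1 : e < s.re + 1 := by
      have h2 : ‖s - s0‖ < e := by simpa [dist_eq_norm] using hs
      have h3 := Complex.abs_re_le_norm (s - s0)
      have h4 := (abs_lt.1 (lt_of_le_of_lt h3 h2)).1
      simp at h4
      linarith
    have h5 : ‖(Complex.exp (-(s * r)) * (-r)) / (Real.cosh r : ℂ)‖ =
        r * ‖Complex.exp (-(s * r)) / (Real.cosh r : ℂ)‖ := by
      rw [norm_div, norm_div, norm_mul, norm_neg, Complex.norm_real r, Real.norm_of_nonneg hr0.le]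
      ring
    show ‖(Complex.exp (-(s * r)) * (-r)) / (Real.cosh r : ℂ)‖ ≤ _
    rw [h5]
    have h6 : r ≤ (2 / e) * Real.exp (e / 2 * r) := by
      have h7 := Real.add_one_le_exp (e / 2 * r)
      calc r = (2 / e) * (e / 2 * r) := by field_simp
        _ ≤ _ := by gcongr; linarith
    calc r * ‖Complex.exp (-(s * r)) / (Real.cosh r : ℂ)‖ ≤ ((2 / e) * Real.exp (e / 2 * r)) * (2 * Real.exp (-(s.re + 1) * r)) := by
          gcongr; exact norm_le s r
      _ ≤ ((2 / e) * Real.exp (e / 2 * r)) * (2 * Real.exp (-e * r)) := by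
          gcongr
      _ = (4 / e) * (Real.exp (e / 2 * r) * Real.exp (-e * r)) := by ring
      _ = _ := by rw [← Real.exp_add]; congr 2; ring
  · exact (exp_neg_integrableOn_Ioi 0 (by linarith : 0 < e / 2)).const_mul _
  · refine ae_of_all _ ?_
    intro r s _
    have h1 : HasDerivAt (fun s : ℂ => -(s * r)) (-r : ℂ) s := by
      simpa using ((hasDerivAt_id s).mul_const (r : ℂ)).fun_neg
    exact (h1.cexp).div_const _

theorem S_KD_proof : S_KD := by
  refine ⟨fun s hs => (K_hasDerivAt s hs).differentiableWithinAt, ?_⟩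
  intro s _
  unfold K
  rw [← integral_conj]
  congr 1
  funext r
  rw [map_div₀, ← Complex.exp_conj, map_neg, map_mul, Complex.conj_ofReal, Complex.conj_ofReal]

/-- minus the derivative of sech -/
def hh (r : ℝ) : ℝ := Real.sinh r / Real.cosh r ^ 2

theorem hh_pos {r : ℝ} (hr : 0 < r) : 0 < hh r := by
  unfold hh
  have := Real.sinh_pos_iff.2 hr
  have := Real.cosh_pos r
  positivity

theorem hh_le {r : ℝ} : |hh r| ≤ 2 * Real.exp (-r) := by
  unfold hh
  have h1 := Real.cosh_pos r
  have h2 : |Real.sinh r| ≤ Real.cosh r := by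
    rw [abs_le]
    constructor
    · have := Real.exp_pos r; rw [Real.sinh_eq, Real.cosh_eq]; linarith
    · exact (Real.sinh_lt_cosh r).le
  rw [abs_div, abs_of_pos (by positivity : 0 < Real.cosh r ^ 2)]
  calc |Real.sinh r| / Real.cosh r ^ 2 ≤ Real.cosh r / Real.cosh r ^ 2 := by gcongr
    _ = 1 / Real.cosh r := by field_simp
    _ ≤ _ := inv_cosh_le r

theorem hh_cont : Continuous hh := by
  unfold hh
  refine Continuous.div Real.continuous_sinh (Real.continuous_cosh.pow 2) ?_
  intro r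
  have := Real.cosh_pos r
  positivity

theorem intg_h (s : ℂ) (hs : 0 ≤ s.re) :
    IntegrableOn (fun r : ℝ => Complex.exp (-(s * r)) * (hh r : ℂ)) (Ioi 0) := by
  have h1 : IntegrableOn (fun r : ℝ => 2 * Real.exp (-(s.re + 1) * r)) (Ioi 0) :=
    (exp_neg_integrableOn_Ioi 0 (by linarith : 0 < s.re + 1)).const_mul 2
  refine h1.mono' (Continuous.aestronglyMeasurable ?_) (ae_of_all _ ?_)
  · exact (by fun_prop : Continuous (fun r : ℝ => Complex.exp (-(s * r)))).mul
      (Complex.continuous_ofReal.comp hh_cont)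
  · intro r
    rw [norm_mul, norm_exp_mul, Complex.norm_real, Real.norm_eq_abs]
    calc Real.exp (-(s.re * r)) * |hh r| ≤ Real.exp (-(s.re * r)) * (2 * Real.exp (-r)) := by
          gcongr; exact hh_le
      _ = 2 * (Real.exp (-(s.re * r)) * Real.exp (-r)) := by ring
      _ = _ := by rw [← Real.exp_add]; congr 2; ring

theorem parts (s : ℂ) (hs : 0 ≤ s.re) :
    ∫ r in Ioi (0:ℝ), Complex.exp (-(s * r)) * (hh r : ℂ) = 1 - s * K s := by
  have h1 : ∀ r : ℝ, HasDerivAt (fun r : ℝ => Complex.exp (-(s * r)) / (Real.cosh r : ℂ))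
      (-s * (Complex.exp (-(s * r)) / (Real.cosh r : ℂ)) - Complex.exp (-(s * r)) * (hh r : ℂ)) r := by
    intro r
    have hc : (Real.cosh r : ℂ) ≠ 0 := by exact_mod_cast (Real.cosh_pos r).ne'
    have d1 : HasDerivAt (fun r : ℝ => -(s * (r:ℂ))) (-s) r := by
      have := ((Complex.ofRealCLM.hasDerivAt (x := r)).const_mul s).fun_neg
      simpa using this
    have d2 := d1.cexp
    have d3 : HasDerivAt (fun r : ℝ => (Real.cosh r : ℂ)) (Real.sinh r : ℂ) r :=
      (Real.hasDerivAt_cosh r).ofReal_comp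
    refine (d2.fun_div d3 hc).congr_deriv ?_
    unfold hh
    push_cast
    push_cast at hc
    field_simp
  have h2 : Tendsto (fun r : ℝ => Complex.exp (-(s * r)) / (Real.cosh r : ℂ)) atTop (𝓝 0) := by
    have h3 : Tendsto (fun r : ℝ => 2 * Real.exp (-r)) atTop (𝓝 (2 * 0)) :=
      (Real.tendsto_exp_neg_atTop_nhds_zero).const_mul 2
    rw [mul_zero] at h3
    refine squeeze_zero_norm' ?_ h3
    filter_upwards [eventually_ge_atTop 0] with r hr
    refine (norm_le s r).trans ?_
    have : -(s.re + 1) * r ≤ -r := by nlinarith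
    gcongr
  have h3 := integral_Ioi_of_hasDerivAt_of_tendsto (a := (0:ℝ)) (cont_int s).continuousWithinAt
    (fun r _ => h1 r) (((intg s (by linarith)).const_mul (-s)).sub (intg_h s hs)) h2
  rw [integral_sub ((intg s (by linarith)).const_mul (-s)) (intg_h s hs), integral_const_mul] at h3
  have h4 : ∫ r in Ioi (0:ℝ), Complex.exp (-(s * r)) / (Real.cosh r : ℂ) = K s := rfl
  rw [h4] at h3
  simp at h3
  linear_combination -h3

theorem S_KNZ_proof : S_KNZ := by
  intro s hs h0
  have p1 := parts s hs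
  have p0 := parts 0 (by simp)
  rw [h0, mul_zero, sub_zero] at p1
  rw [zero_mul, sub_zero] at p0
  have i1 := intg_h s hs
  have i0 := intg_h 0 (by simp)
  have e1 : ∫ r in Ioi (0:ℝ), ((Complex.exp (-(0 * r)) * (hh r : ℂ)) - (Complex.exp (-(s * r)) * (hh r : ℂ))) = 0 := by
    rw [integral_sub i0 i1, p0, p1, sub_self]
  have i01 : IntegrableOn (fun r : ℝ => (Complex.exp (-(0 * r)) * (hh r : ℂ)) - (Complex.exp (-(s * r)) * (hh r : ℂ)))
      (Ioi 0) := i0.sub i1
  have e2 : ∫ r in Ioi (0:ℝ), (1 - (Complex.exp (-(s * r))).re) * hh r = 0 := by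
    have h5 := congrArg Complex.re e1
    rw [← RCLike.re_eq_complex_re, ← integral_re i01] at h5
    simp only [RCLike.re_eq_complex_re] at h5
    rw [Complex.zero_re] at h5
    refine Eq.trans ?_ h5
    congr 1
    funext r
    simp
    ring
  have i2 : IntegrableOn (fun r : ℝ => (1 - (Complex.exp (-(s * r))).re) * hh r) (Ioi 0) := by
    have h5 := i01.re
    refine h5.congr (ae_of_all _ ?_)
    intro r
    simp
    ring
  have hnn : 0 ≤ᵐ[volume.restrict (Ioi (0:ℝ))] (fun r : ℝ => (1 - (Complex.exp (-(s * r))).re) * hh r) := by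
    refine (ae_restrict_iff' measurableSet_Ioi).2 (ae_of_all _ ?_)
    intro r hr
    have hr0 : 0 < r := hr
    have h5 : (Complex.exp (-(s * r))).re ≤ 1 := by
      refine (Complex.re_le_norm _).trans ?_
      rw [norm_exp_mul]
      exact Real.exp_le_one_iff.2 (by nlinarith)
    exact mul_nonneg (by linarith) (hh_pos hr0).le
  have h6 := (integral_eq_zero_iff_of_nonneg_ae hnn i2).1 e2
  have h7 : ∀ᵐ r ∂(volume.restrict (Ioi (0:ℝ))), (Complex.exp (-(s * ((r:ℝ):ℂ)))).re = 1 := by
    have h8 : ∀ᵐ r ∂(volume.restrict (Ioi (0:ℝ))), r ∈ Ioi (0:ℝ) := ae_restrict_mem measurableSet_Ioi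
    filter_upwards [h6, h8] with r h9 h10
    have h11 := hh_pos (show 0 < r from h10)
    simp only [Pi.zero_apply] at h9
    rcases mul_eq_zero.1 h9 with h12 | h12
    · linarith
    · exact absurd h12 h11.ne'
  have h8 : (K s).re = ∫ r in Ioi (0:ℝ), 1 / Real.cosh r := by
    unfold K
    rw [← RCLike.re_eq_complex_re, ← integral_re (intg s (by linarith))]
    refine integral_congr_ae ?_
    filter_upwards [h7] with r h9
    simp only [RCLike.re_eq_complex_re]
    rw [Complex.div_ofReal_re, h9]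
  have i3 : IntegrableOn (fun r : ℝ => 1 / Real.cosh r) (Ioi 0) := by
    have h1 : IntegrableOn (fun r : ℝ => 2 * Real.exp (-1 * r)) (Ioi 0) :=
      (exp_neg_integrableOn_Ioi 0 one_pos).const_mul 2
    refine h1.mono' (Continuous.aestronglyMeasurable ?_) (ae_of_all _ ?_)
    · exact continuous_const.div Real.continuous_cosh (fun r => (Real.cosh_pos r).ne')
    · intro r
      have := inv_cosh_le r
      rw [Real.norm_of_nonneg (by have := Real.cosh_pos r; positivity)]
      simpa using this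
  have h9 : 0 < ∫ r in Ioi (0:ℝ), 1 / Real.cosh r := by
    rw [setIntegral_pos_iff_support_of_nonneg_ae]
    · have : (Function.support fun r : ℝ => 1 / Real.cosh r) ∩ Ioi 0 = Ioi 0 := by
        ext r
        simp [(Real.cosh_pos r).ne']
      rw [this]
      simp
    · exact ae_of_all _ (fun r => by have := Real.cosh_pos r; simp only [Pi.zero_apply]; positivity)
    · exact i3
  rw [← h8, h0] at h9
  simp at h9

end KNZ

theorem t_K : S_KD ∧ S_KNZ := ⟨KNZ.S_KD_proof, KNZ.S_KNZ_proof⟩

end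

end Pool.Agent.R979.OC
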