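import Pool.Agent.R979.OC.Stm

namespace Pool.Agent.R979.OC

open MeasureTheory Set Filter Topology

noncomputable section

namespace OM

/-- the domain -/
def U : Set ℂ := {s : ℂ | -1 < s.re}

theorem U_open : IsOpen U := isOpen_lt continuous_const Complex.continuous_re

theorem cos_diff : Differentiable ℂ (fun u : ℂ => Complex.cos (Real.pi * u / 2)) := by
  fun_prop

theorem K_diffAt (hK : S_KD) {u : ℂ} (hu : -1 < u.re) : DifferentiableAt ℂ K u :=
  hK.1.differentiableAt (U_open.mem_nhds hu)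

theorem D_diffAt (hK : S_KD) {u : ℂ} (hu : -1 < u.re) : DifferentiableAt ℂ D u := by
  have h : DifferentiableAt ℂ (fun u : ℂ => (Real.pi : ℂ) - K u * Complex.cos (Real.pi * u / 2)) u :=
    (differentiableAt_const _).sub ((K_diffAt hK hu).mul cos_diff.differentiableAt)
  exact h

theorem cos_conj' (u : ℂ) : Complex.cos (Real.pi * (starRingEnd ℂ) u / 2) = (starRingEnd ℂ) (Complex.cos (Real.pi * u / 2)) := by
  have h2 : (starRingEnd ℂ) (2:ℂ) = 2 := by apply Complex.ext <;> simp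
  rw [← Complex.cos_conj]
  congr 1
  rw [map_div₀, map_mul, Complex.conj_ofReal, h2]

theorem D_conj (hK : S_KD) {u : ℂ} (hu : -1 < u.re) : D ((starRingEnd ℂ) u) = (starRingEnd ℂ) (D u) := by
  unfold D
  rw [hK.2 u hu, cos_conj']
  simp

theorem deriv_D_conj (hK : S_KD) {a : ℂ} (ha : -1 < a.re) :
    HasDerivAt D ((starRingEnd ℂ) (deriv D a)) ((starRingEnd ℂ) a) := by
  have h1 := (D_diffAt hK ha).hasDerivAt.conj_conj
  refine h1.congr_of_eventuallyEq ?_
  have h2 : U ∈ 𝓝 ((starRingEnd ℂ) a) := U_open.mem_nhds (by simpa [U] using ha)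
  filter_upwards [h2] with u hu
  have h3 : -1 < ((starRingEnd ℂ) u).re := by simpa [U] using hu
  have h4 := D_conj hK h3
  rw [Complex.conj_conj] at h4
  exact h4

theorem dslope_mul {f : ℂ → ℂ} {c : ℂ} (h : f c = 0) (u : ℂ) : f u = (u - c) * dslope f c u := by
  by_cases hu : u = c
  · subst hu; rw [h]; simp
  · rw [dslope_of_ne _ hu, slope_def_field, h]
    have := sub_ne_zero.2 hu
    field_simp
    ring

/-- factorisation of `D` -/
theorem factor (hK : S_KD) {a : ℂ} (ha : -1 < a.re) (hai : 0 < a.im) (hD : D a = 0) :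
    ∃ D2 : ℂ → ℂ, DifferentiableOn ℂ D2 U ∧ (∀ u, D u = (u - a) * ((u - (starRingEnd ℂ) a) * D2 u)) ∧
      D2 a = deriv D a / (a - (starRingEnd ℂ) a) ∧
      D2 ((starRingEnd ℂ) a) = (starRingEnd ℂ) (deriv D a) / ((starRingEnd ℂ) a - a) := by
  have haU : U ∈ 𝓝 a := U_open.mem_nhds ha
  have hbre : -1 < ((starRingEnd ℂ) a).re := by simpa using ha
  have hbU : U ∈ 𝓝 ((starRingEnd ℂ) a) := U_open.mem_nhds hbre
  have hne : a - (starRingEnd ℂ) a ≠ 0 := by
    intro h
    have := congrArg Complex.im h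
    simp at this
    linarith
  have hne' : (starRingEnd ℂ) a ≠ a := fun h => hne (by rw [h, sub_self])
  have hDd : DifferentiableOn ℂ D U := fun u hu => (D_diffAt hK hu).differentiableWithinAt
  set D1 := dslope D a with hD1
  have d1 : DifferentiableOn ℂ D1 U := (Complex.differentiableOn_dslope haU).2 hDd
  have e1 : ∀ u, D u = (u - a) * D1 u := dslope_mul hD
  have hDb : D ((starRingEnd ℂ) a) = 0 := by rw [D_conj hK ha, hD, map_zero]
  have hD1b : D1 ((starRingEnd ℂ) a) = 0 := by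
    have h1 := e1 ((starRingEnd ℂ) a)
    rw [hDb] at h1
    rcases mul_eq_zero.1 h1.symm with h2 | h2
    · exact absurd (sub_eq_zero.1 h2) hne'
    · exact h2
  set D2 := dslope D1 ((starRingEnd ℂ) a) with hD2
  have d2 : DifferentiableOn ℂ D2 U := (Complex.differentiableOn_dslope hbU).2 d1
  have e2 : ∀ u, D1 u = (u - (starRingEnd ℂ) a) * D2 u := dslope_mul hD1b
  refine ⟨D2, d2, fun u => by rw [e1 u, e2 u], ?_, ?_⟩
  · have h1 : D1 a = deriv D a := by rw [hD1, dslope_same]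
    rw [e2 a] at h1
    rw [← h1]
    field_simp
  · have h1 : D2 ((starRingEnd ℂ) a) = deriv D1 ((starRingEnd ℂ) a) := by rw [hD2, dslope_same]
    have h2 : HasDerivAt D1 (deriv D1 ((starRingEnd ℂ) a)) ((starRingEnd ℂ) a) :=
      (d1.differentiableAt hbU).hasDerivAt
    have h3 : HasDerivAt (fun u : ℂ => (u - a) * D1 u) (1 * D1 ((starRingEnd ℂ) a) +
        ((starRingEnd ℂ) a - a) * deriv D1 ((starRingEnd ℂ) a)) ((starRingEnd ℂ) a) :=
      ((hasDerivAt_id _).sub_const a).mul h2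
    have h4 : HasDerivAt D (1 * D1 ((starRingEnd ℂ) a) +
        ((starRingEnd ℂ) a - a) * deriv D1 ((starRingEnd ℂ) a)) ((starRingEnd ℂ) a) := by
      have : D = fun u : ℂ => (u - a) * D1 u := funext e1
      rw [this]
      exact h3
    have h5 := h4.unique (deriv_D_conj hK ha)
    rw [hD1b, mul_zero, zero_add, ← h1] at h5
    rw [← h5]
    have := sub_ne_zero.2 hne'
    field_simp

/-- decomposition of `G` into a regular part and two simple poles -/
theorem decomp (hK : S_KD) (hN : S_KNZ) {a : ℂ} (ha3 : 3 < a.re) (ha4 : a.re < 4) (hai : 0 < a.im) (hD : D a = 0)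
    (hD' : deriv D a ≠ 0)
    (huniq : ∀ u : ℂ, 0 ≤ u.re → u.re ≤ 4 → D u = 0 → u = a ∨ u = (starRingEnd ℂ) a) :
    ∃ (r : ℂ) (H : ℂ → ℂ), r ≠ 0 ∧ (∀ u : ℂ, 0 ≤ u.re → u.re ≤ 4 → DifferentiableAt ℂ H u) ∧
      ∀ u : ℂ, 0 ≤ u.re → u.re ≤ 4 → u ≠ a → u ≠ (starRingEnd ℂ) a →
        G u = H u + r * (2 * a / (a ^ 2 - u ^ 2)) +
          (starRingEnd ℂ) r * (2 * (starRingEnd ℂ) a / ((starRingEnd ℂ) a ^ 2 - u ^ 2)) := by
  obtain ⟨D2, hd2, hfac, hD2a, hD2b⟩ := factor hK (by linarith : -1 < a.re) hai hD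
  set b := (starRingEnd ℂ) a with hb
  have hbre : b.re = a.re := by simp [hb]
  have hne : a - b ≠ 0 := by
    intro h
    have := congrArg Complex.im h
    simp [hb] at this
    linarith
  have hne' : b - a ≠ 0 := fun h => hne (by linear_combination -h)
  have hab : a ≠ b := sub_ne_zero.1 hne
  have hD2a' : D2 a ≠ 0 := by rw [hD2a]; exact div_ne_zero hD' hne
  have hD2b' : D2 b ≠ 0 := by
    rw [hD2b]; exact div_ne_zero ((map_ne_zero _).2 hD') hne'
  -- the good set
  set S : Set ℂ := (U ∩ K ⁻¹' {0}ᶜ) ∩ D2 ⁻¹' {0}ᶜ with hS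
  have hS1 : IsOpen (U ∩ K ⁻¹' {0}ᶜ) := by
    have hc : ContinuousOn K U := hK.1.continuousOn
    exact hc.isOpen_inter_preimage U_open isClosed_singleton.isOpen_compl
  have hSo : IsOpen S := by
    have hc : ContinuousOn D2 (U ∩ K ⁻¹' {0}ᶜ) := hd2.continuousOn.mono inter_subset_left
    exact hc.isOpen_inter_preimage hS1 isClosed_singleton.isOpen_compl
  have hSU : S ⊆ U := fun u hu => hu.1.1
  have hmem : ∀ u : ℂ, 0 ≤ u.re → u.re ≤ 4 → u ∈ S := by
    intro u h0 h4
    refine ⟨⟨by simp only [U, mem_ofPred_eq]; linarith, by simpa using hN u h0⟩, ?_⟩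
    show D2 u ∈ ({0}ᶜ : Set ℂ)
    simp only [mem_compl_iff, mem_singleton_iff]
    by_cases hua : u = a
    · rw [hua]; exact hD2a'
    by_cases hub : u = b
    · rw [hub]; exact hD2b'
    intro h
    have h1 : D u = 0 := by rw [hfac u, h]; ring
    rcases huniq u h0 h4 h1 with h2 | h2
    · exact hua h2
    · exact hub h2
  have haS : a ∈ S := hmem a (by linarith) (by linarith)
  have hbS : b ∈ S := hmem b (by rw [hbre]; linarith) (by rw [hbre]; linarith)
  have hKS : ∀ u ∈ S, K u ≠ 0 := fun u hu => hu.1.2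
  have hDS : ∀ u ∈ S, D2 u ≠ 0 := fun u hu => hu.2
  -- Q
  set Q : ℂ → ℂ := fun u => Complex.cos (Real.pi * u / 2) / (K u * D2 u) with hQ
  have hQd : DifferentiableOn ℂ Q S := by
    intro u hu
    have h1 : DifferentiableAt ℂ D2 u := hd2.differentiableAt (U_open.mem_nhds (hSU hu))
    have h2 : DifferentiableAt ℂ K u := K_diffAt hK (hSU hu)
    exact (cos_diff.differentiableAt.div (h2.mul h1) (mul_ne_zero (hKS u hu) (hDS u hu))).differentiableWithinAt
  set r : ℂ := -(Q a) / (a - b) with hr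
  have hQb : Q b = (starRingEnd ℂ) (Q a) := by
    simp only [hQ]
    rw [hD2a, hD2b, hb, hK.2 a (by linarith), cos_conj']
    simp only [map_div₀, map_mul, map_sub, Complex.conj_conj]
  have hrb : (starRingEnd ℂ) r = -(Q b) / (b - a) := by
    rw [hr, hQb]
    simp only [map_div₀, map_neg, map_sub, hb, Complex.conj_conj]
  have hcosa : K a * Complex.cos (Real.pi * a / 2) = Real.pi := by
    unfold D at hD
    linear_combination -hD
  have hpi : (Real.pi : ℂ) ≠ 0 := by exact_mod_cast Real.pi_ne_zero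
  have hcos : Complex.cos (Real.pi * a / 2) ≠ 0 := by
    intro h
    rw [h, mul_zero] at hcosa
    exact hpi hcosa.symm
  have hQa : Q a ≠ 0 := by
    simp only [hQ]
    exact div_ne_zero hcos (mul_ne_zero (hKS a haS) (hDS a haS))
  have hr0 : r ≠ 0 := div_ne_zero (neg_ne_zero.2 hQa) hne
  -- the regular part
  set R : ℂ → ℂ := fun u => Q u - (Q a * (u - b) / (a - b) + Q b * (u - a) / (b - a)) with hR
  have hRd : DifferentiableOn ℂ R S := by
    refine hQd.sub ?_
    fun_prop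
  have hRa : R a = 0 := by
    simp only [hR]
    field_simp
    ring
  have hRb : R b = 0 := by
    simp only [hR]
    field_simp
    ring
  set R1 := dslope R a with hR1
  have dR1 : DifferentiableOn ℂ R1 S := (Complex.differentiableOn_dslope (hSo.mem_nhds haS)).2 hRd
  have eR1 : ∀ u, R u = (u - a) * R1 u := dslope_mul hRa
  have hR1b : R1 b = 0 := by
    have h1 := eR1 b
    rw [hRb] at h1
    rcases mul_eq_zero.1 h1.symm with h2 | h2
    · exact absurd h2 hne'
    · exact h2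
  set R2 := dslope R1 b with hR2
  have dR2 : DifferentiableOn ℂ R2 S := (Complex.differentiableOn_dslope (hSo.mem_nhds hbS)).2 dR1
  have eR2 : ∀ u, R1 u = (u - b) * R2 u := dslope_mul hR1b
  refine ⟨r, fun u => R2 u + u ^ 2 + 2 - r / (a + u) - (starRingEnd ℂ) r / (b + u), hr0, ?_, ?_⟩
  · intro u h0 h4
    have h1 : DifferentiableAt ℂ R2 u := dR2.differentiableAt (hSo.mem_nhds (hmem u h0 h4))
    have h2 : a + u ≠ 0 := by
      intro h
      have := congrArg Complex.re h
      simp at this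
      linarith
    have h3 : b + u ≠ 0 := by
      intro h
      have := congrArg Complex.re h
      simp [hbre] at this
      linarith
    have h5 : DifferentiableAt ℂ (fun u : ℂ => r / (a + u)) u :=
      (differentiableAt_const _).div (by fun_prop) h2
    have h6 : DifferentiableAt ℂ (fun u : ℂ => (starRingEnd ℂ) r / (b + u)) u :=
      (differentiableAt_const _).div (by fun_prop) h3
    exact (((h1.add (by fun_prop)).add (differentiableAt_const _)).sub h5).sub h6
  · intro u h0 h4 hua hub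
    have h2 : a + u ≠ 0 := by
      intro h
      have := congrArg Complex.re h
      simp at this
      linarith
    have h3 : b + u ≠ 0 := by
      intro h
      have := congrArg Complex.re h
      simp [hbre] at this
      linarith
    have h5 : a - u ≠ 0 := sub_ne_zero.2 (Ne.symm hua)
    have h6 : b - u ≠ 0 := sub_ne_zero.2 (Ne.symm hub)
    have h5' : u - a ≠ 0 := sub_ne_zero.2 hua
    have h6' : u - b ≠ 0 := sub_ne_zero.2 hub
    have hu := hmem u h0 h4
    have hk := hKS u hu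
    have hd := hDS u hu
    have e1 : G u = Q u / ((u - a) * (u - b)) + u ^ 2 + 2 := by
      unfold G
      rw [hfac u]
      simp only [hQ]
      rw [div_div]
      congr 3
      ring
    have e2 : R2 u = R u / ((u - a) * (u - b)) := by
      rw [eR1 u, eR2 u]
      field_simp
    have e3 : R u = Q u - (Q a * (u - b) / (a - b) + Q b * (u - a) / (b - a)) := rfl
    have e4 : 2 * a / (a ^ 2 - u ^ 2) = 1 / (a - u) + 1 / (a + u) := by
      rw [sq_sub_sq]
      field_simp
      ring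
    have e5 : 2 * b / (b ^ 2 - u ^ 2) = 1 / (b - u) + 1 / (b + u) := by
      rw [sq_sub_sq]
      field_simp
      ring
    have e6 : r / (a - u) = Q a / ((a - b) * (u - a)) := by
      rw [hr, div_div, div_eq_div_iff (mul_ne_zero hne h5) (mul_ne_zero hne h5')]
      ring
    have e7 : (starRingEnd ℂ) r / (b - u) = Q b / ((b - a) * (u - b)) := by
      rw [hrb, div_div, div_eq_div_iff (mul_ne_zero hne' h6) (mul_ne_zero hne' h6')]
      ring
    have e8 : Q u / ((u - a) * (u - b)) = R2 u + r / (a - u) + (starRingEnd ℂ) r / (b - u) := by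
      rw [e6, e7, e2, e3]
      field_simp
      ring
    rw [e1, e4, e5, e8]
    ring

theorem pole_bound (a u : ℂ) (c : ℂ) (h : 2 * ‖a‖ + 1 ≤ |u.im|) :
    ‖c * (2 * a / (a ^ 2 - u ^ 2))‖ ≤ (16 * ‖c‖ * ‖a‖) / (1 + u.im ^ 2) := by
  have h0 := norm_nonneg a
  have h1 := Complex.abs_im_le_norm u
  have h2 : ‖u‖ ^ 2 - ‖a‖ ^ 2 ≤ ‖a ^ 2 - u ^ 2‖ := by
    have := norm_sub_norm_le (u ^ 2) (a ^ 2)
    rw [norm_pow, norm_pow, norm_sub_rev] at this
    exact this
  have h3 : |u.im| ^ 2 = u.im ^ 2 := sq_abs _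
  have h4 : (1 + u.im ^ 2) / 8 ≤ ‖a ^ 2 - u ^ 2‖ := by
    have h5 : |u.im| ^ 2 ≤ ‖u‖ ^ 2 := by gcongr
    nlinarith
  have h5 : 0 < 1 + u.im ^ 2 := by positivity
  have h6 : 0 < ‖a ^ 2 - u ^ 2‖ := by linarith
  rw [norm_mul, norm_div, norm_mul, ← mul_div_assoc, div_le_div_iff₀ h6 h5]
  have h7 : ‖(2:ℂ)‖ = 2 := by simp
  rw [h7]
  have h8 : 0 ≤ ‖c‖ * ‖a‖ := by positivity
  nlinarith

theorem H_bound (hGB : S_GB) {a r : ℂ} {H : ℂ → ℂ} 
    (hH : ∀ u : ℂ, 0 ≤ u.re → u.re ≤ 4 → DifferentiableAt ℂ H u)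
    (hG : ∀ u : ℂ, 0 ≤ u.re → u.re ≤ 4 → u ≠ a → u ≠ (starRingEnd ℂ) a →
        G u = H u + r * (2 * a / (a ^ 2 - u ^ 2)) +
          (starRingEnd ℂ) r * (2 * (starRingEnd ℂ) a / ((starRingEnd ℂ) a ^ 2 - u ^ 2))) :
    ∃ C : ℝ, ∀ u : ℂ, 0 ≤ u.re → u.re ≤ 4 → ‖H u‖ ≤ C / (1 + u.im ^ 2) := by
  obtain ⟨C, T, hCT⟩ := hGB
  set T' := |T| + 2 * ‖a‖ + 1 with hT'
  have hT0 : 0 ≤ T' := by positivity
  have hcomp : IsCompact (Icc (0:ℝ) 4 ×ℂ Icc (-T') T') := isCompact_Icc.reProdIm isCompact_Icc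
  obtain ⟨B, hB⟩ := hcomp.exists_bound_of_continuousOn (f := fun u : ℂ => H u * ((1 + u.im ^ 2 : ℝ) : ℂ)) (by
    intro u hu
    rw [Complex.mem_reProdIm] at hu
    have h1 : ContinuousAt H u := (hH u hu.1.1 hu.1.2).continuousAt
    have h2 : Continuous (fun u : ℂ => ((1 + u.im ^ 2 : ℝ) : ℂ)) := by fun_prop
    exact (h1.mul h2.continuousAt).continuousWithinAt)
  refine ⟨|B| + (|C| + 32 * ‖r‖ * ‖a‖), ?_⟩
  intro u h0 h4
  have hpos : 0 < 1 + u.im ^ 2 := by positivity
  have hra : 0 ≤ ‖r‖ * ‖a‖ := by positivity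
  by_cases h : |u.im| ≤ T'
  · have h1 := hB u (by rw [Complex.mem_reProdIm]; exact ⟨⟨h0, h4⟩, abs_le.1 h⟩)
    rw [norm_mul, Complex.norm_real, Real.norm_of_nonneg hpos.le] at h1
    rw [le_div_iff₀ hpos]
    have := le_abs_self B
    have := abs_nonneg C
    linarith
  · push Not at h
    have hna := norm_nonneg a
    have hTT := le_abs_self T
    have hT2 := abs_nonneg T
    have g1 : T ≤ |u.im| := by linarith
    have g2 : 2 * ‖a‖ + 1 ≤ |u.im| := by linarith
    have hua : u ≠ a := by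
      intro h5
      have := Complex.abs_im_le_norm a
      rw [← h5] at this g2
      have := norm_nonneg u
      linarith
    have hub : u ≠ (starRingEnd ℂ) a := by
      intro h5
      have h6 := Complex.abs_im_le_norm u
      have h7 : ‖u‖ = ‖a‖ := by rw [h5, RCLike.norm_conj]
      linarith
    have h1 := (hCT u h0 h4 g1).2
    have h2 := hG u h0 h4 hua hub
    have h3 := pole_bound a u r g2
    have h5 := pole_bound ((starRingEnd ℂ) a) u ((starRingEnd ℂ) r) (by rw [RCLike.norm_conj]; exact g2)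
    rw [RCLike.norm_conj, RCLike.norm_conj] at h5
    have h6 : H u = G u - r * (2 * a / (a ^ 2 - u ^ 2)) -
        (starRingEnd ℂ) r * (2 * (starRingEnd ℂ) a / ((starRingEnd ℂ) a ^ 2 - u ^ 2)) := by
      rw [h2]; ring
    rw [h6]
    refine (norm_sub_le _ _).trans ?_
    refine (add_le_add ((norm_sub_le _ _).trans (add_le_add h1 h3)) h5).trans ?_
    rw [← add_div, ← add_div]
    apply div_le_div_of_nonneg_right _ hpos.le
    have := le_abs_self C
    have := abs_nonneg B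
    linarith

theorem norm_e (σ ξ : ℝ) : ‖Complex.exp (-(ξ * Complex.I * σ))‖ = 1 := by
  rw [Complex.norm_exp]; simp

theorem int_mul {f : ℝ → ℂ} (hf : Integrable f) (σ : ℝ) :
    Integrable (fun ξ : ℝ => f ξ * Complex.exp (-(ξ * Complex.I * σ))) := by
  refine hf.mono (hf.aestronglyMeasurable.mul (Continuous.aestronglyMeasurable (by fun_prop))) (ae_of_all _ ?_)
  intro ξ
  rw [norm_mul, norm_e, mul_one]

theorem G_int (hGI : S_GI) : Integrable (fun ξ : ℝ => G ((ξ : ℂ) * Complex.I)) := by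
  have h1 : (fun ξ : ℝ => G ((ξ : ℂ) * Complex.I)) = fun ξ : ℝ => (((G ((ξ : ℂ) * Complex.I)).re : ℝ) : ℂ) := by
    funext ξ
    apply Complex.ext
    · simp
    · rw [hGI.2.2.1 ξ]; simp
  rw [h1]
  exact hGI.2.2.2.2.2.ofReal

theorem om_eq (hGI : S_GI) (σ : ℝ) :
    om σ = (1 / Real.pi) * (∫ ξ : ℝ, G (ξ * Complex.I) * Complex.exp (-(ξ * Complex.I * σ))).re := by
  unfold om
  congr 1
  rw [← RCLike.re_eq_complex_re, ← integral_re (int_mul (G_int hGI) σ)]
  congr 1
  funext ξ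
  simp only [RCLike.re_eq_complex_re]
  rw [Complex.mul_re, hGI.2.2.1 ξ, zero_mul, sub_zero, Complex.exp_re]
  simp

theorem om_cont (hGI : S_GI) : Continuous om := by
  unfold om
  refine continuous_const.mul ?_
  refine continuous_of_dominated (bound := fun ξ : ℝ => |(G ((ξ : ℂ) * Complex.I)).re|) ?_ ?_ ?_ ?_
  · intro σ
    exact (hGI.2.2.2.2.1.mul (by fun_prop)).aestronglyMeasurable
  · intro σ
    refine ae_of_all _ (fun ξ => ?_)
    rw [norm_mul, Real.norm_eq_abs, Real.norm_eq_abs]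
    exact mul_le_of_le_one_right (abs_nonneg _) (Real.abs_cos_le_one _)
  · exact hGI.2.2.2.2.2.abs
  · exact ae_of_all _ (fun ξ => by fun_prop)

end OM

theorem t_OM (hK : S_KD) (hN : S_KNZ) (hZA : S_ZA) (hZB : S_ZB) (hGB : S_GB) (hS : S_SHIFT) (hF : S_FTE)
    (hGI : S_GI) : S_OM := by
  refine ⟨OM.om_cont hGI, ?_, ?_⟩
  · intro σ
    unfold om
    simp
  obtain ⟨a, ha3, ha4, hai, hDa, hDa', hu⟩ := hZB
  have huniq : ∀ u : ℂ, 0 ≤ u.re → u.re ≤ 4 → D u = 0 → u = a ∨ u = (starRingEnd ℂ) a := by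
    intro u h0 h4 hD
    by_cases h : u.re ≤ 2
    · exact absurd hD (hZA u h0 h)
    · exact hu u (by linarith) h4 hD
  obtain ⟨r, H, hr, hH, hG⟩ := OM.decomp hK hN ha3 ha4 hai hDa hDa' huniq
  obtain ⟨C, hC⟩ := OM.H_bound hGB hH hG
  refine ⟨a, r, ha3, ha4, hai, hDa, huniq, hr, C, ?_⟩
  intro σ hσ
  have hpi := Real.pi_pos
  obtain ⟨i1, f1⟩ := hF a (by linarith) σ hσ
  obtain ⟨i2, f2⟩ := hF ((starRingEnd ℂ) a) (by simp; linarith) σ hσ
  have e1 : ∀ ξ : ℝ, G ((ξ : ℂ) * Complex.I) = H (ξ * Complex.I) + r * (2 * a / (a ^ 2 + (ξ : ℂ) ^ 2)) +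
      (starRingEnd ℂ) r * (2 * (starRingEnd ℂ) a / ((starRingEnd ℂ) a ^ 2 + (ξ : ℂ) ^ 2)) := by
    intro ξ
    have h1 := hG ((ξ : ℂ) * Complex.I) (by simp) (by simp) (by
      intro h; have := congrArg Complex.re h; simp at this; linarith) (by
      intro h; have := congrArg Complex.re h; simp at this; linarith)
    rw [mul_pow, Complex.I_sq] at h1
    rw [h1]
    congr 3 <;> ring
  have iH : Integrable (fun ξ : ℝ => H (ξ * Complex.I)) := by
    have h1 := ((OM.G_int hGI).sub (i1.const_mul r)).sub (i2.const_mul ((starRingEnd ℂ) r))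
    refine h1.congr (ae_of_all _ ?_)
    intro ξ
    simp only [Pi.sub_apply]
    rw [e1 ξ]
    ring
  have e2 : ∫ ξ : ℝ, G (ξ * Complex.I) * Complex.exp (-(ξ * Complex.I * σ)) =
      (∫ ξ : ℝ, H (ξ * Complex.I) * Complex.exp (-(ξ * Complex.I * σ))) +
      r * (2 * Real.pi * Complex.exp (-(a * σ))) +
      (starRingEnd ℂ) r * (2 * Real.pi * Complex.exp (-((starRingEnd ℂ) a * σ))) := by
    rw [← f1, ← f2, ← integral_const_mul, ← integral_const_mul]
    rw [← integral_add (OM.int_mul iH σ) ((OM.int_mul i1 σ).const_mul r)]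
    have j12 : Integrable (fun ξ : ℝ => H (ξ * Complex.I) * Complex.exp (-(ξ * Complex.I * σ)) +
        r * (2 * a / (a ^ 2 + (ξ : ℂ) ^ 2) * Complex.exp (-(ξ * Complex.I * σ)))) :=
      (OM.int_mul iH σ).add ((OM.int_mul i1 σ).const_mul r)
    rw [← integral_add j12 ((OM.int_mul i2 σ).const_mul ((starRingEnd ℂ) r))]
    congr 1
    funext ξ
    rw [e1 ξ]
    ring
  have e3 : ‖∫ ξ : ℝ, H (ξ * Complex.I) * Complex.exp (-(ξ * Complex.I * σ))‖ ≤ C * Real.pi * Real.exp (-(4 * σ)) := by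
    rw [hS H C hH hC σ hσ]
    have h1 : Integrable (fun ξ : ℝ => (C * Real.exp (-(4 * σ))) * (1 + ξ ^ 2)⁻¹) := integrable_inv_one_add_sq.const_mul _
    refine (norm_integral_le_of_norm_le h1 (ae_of_all _ ?_)).trans ?_
    · intro ξ
      rw [norm_mul]
      have h2 := hC (4 + ξ * Complex.I) (by simp) (by simp)
      have h3 : (4 + (ξ:ℂ) * Complex.I).im = ξ := by simp
      rw [h3] at h2
      have h4 : ‖Complex.exp (-((4 + ξ * Complex.I) * σ))‖ = Real.exp (-(4 * σ)) := by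
        rw [Complex.norm_exp]; simp
      rw [h4]
      calc ‖H (4 + ξ * Complex.I)‖ * Real.exp (-(4 * σ)) ≤ (C / (1 + ξ ^ 2)) * Real.exp (-(4 * σ)) := by gcongr
        _ = _ := by ring
    · rw [integral_const_mul, integral_univ_inv_one_add_sq]
      apply le_of_eq; ring
  rw [OM.om_eq hGI σ, e2]
  set J := ∫ ξ : ℝ, H (ξ * Complex.I) * Complex.exp (-(ξ * Complex.I * σ)) with hJ
  have e4 : (J + r * (2 * Real.pi * Complex.exp (-(a * σ))) +
      (starRingEnd ℂ) r * (2 * Real.pi * Complex.exp (-((starRingEnd ℂ) a * σ)))).re =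
      J.re + 4 * Real.pi * (r * Complex.exp (-(a * σ))).re := by
    have h1 : Complex.exp (-((starRingEnd ℂ) a * σ)) = (starRingEnd ℂ) (Complex.exp (-(a * σ))) := by
      rw [← Complex.exp_conj]
      simp
    rw [h1]
    simp only [Complex.add_re, Complex.mul_re, Complex.mul_im, Complex.conj_re, Complex.conj_im, Complex.ofReal_re,
      Complex.ofReal_im, Complex.re_ofNat, Complex.im_ofNat]
    ring
  rw [e4]
  have e5 : 1 / Real.pi * (J.re + 4 * Real.pi * (r * Complex.exp (-(a * σ))).re) - 4 * (r * Complex.exp (-(a * σ))).re =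
      J.re / Real.pi := by
    field_simp
    ring
  rw [e5, abs_div, abs_of_pos hpi, div_le_iff₀ hpi]
  have := (Complex.abs_re_le_norm J).trans e3
  linarith

end

end Pool.Agent.R979.OC
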