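import Pool.Agent.R979.OC.Stm

namespace Pool.Agent.R979.OC

open MeasureTheory Set Filter Topology

theorem pl_le (E : ℂ → ℂ) (B : ℝ) (hE : DiffContOnCl ℂ E {z : ℂ | 0 < z.re})
    (hB : ∀ z : ℂ, 0 ≤ z.re → ‖E z‖ ≤ B) (h0 : ∀ ξ : ℝ, (E ((ξ : ℂ) * Complex.I)).re = 0)
    (z : ℂ) (hz : 0 ≤ z.re) : (E z).re ≤ 0 := by
  have hd : DiffContOnCl ℂ (fun z => Complex.exp (E z)) {z : ℂ | 0 < z.re} :=
    Complex.differentiable_exp.comp_diffContOnCl hE
  have hbd : ∀ w : ℂ, 0 ≤ w.re → ‖Complex.exp (E w)‖ ≤ Real.exp B := by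
    intro w hw
    rw [Complex.norm_exp]
    exact Real.exp_le_exp.2 (((le_abs_self _).trans (Complex.abs_re_le_norm _)).trans (hB w hw))
  have h := PhragmenLindelof.right_half_plane_of_bounded_on_real (C := 1) (z := z) hd
    ⟨1, by norm_num, 0, by
      apply Asymptotics.IsBigO.of_bound (Real.exp B)
      have : ∀ᶠ w in Bornology.cobounded ℂ ⊓ 𝓟 {z : ℂ | 0 < z.re}, w ∈ {z : ℂ | 0 < z.re} :=
        mem_inf_of_right (mem_principal_self _)
      filter_upwards [this] with w hw
      have hw' : 0 < w.re := hw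
      simpa using hbd w hw'.le⟩
    (by
      refine ⟨Real.exp B, ?_⟩
      rw [eventually_map]
      filter_upwards [eventually_ge_atTop (0 : ℝ)] with x hx
      exact hbd x (by simpa using hx))
    (fun x => by
      rw [Complex.norm_exp, h0 x, Real.exp_zero]) hz
  rw [Complex.norm_exp, Real.exp_le_one_iff] at h
  exact h

theorem t_PL : S_PL := by
  intro E B hE hB h0 hlim
  have hre : ∀ z : ℂ, 0 ≤ z.re → (E z).re = 0 := by
    intro z hz
    apply le_antisymm (pl_le E B hE hB h0 z hz)
    have := pl_le (fun z => -E z) B hE.neg (fun z hz => by rw [norm_neg]; exact hB z hz)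
      (fun ξ => by rw [Complex.neg_re, h0, neg_zero]) z hz
    rw [Complex.neg_re] at this
    linarith
  have hconv : IsPreconnected {z : ℂ | 0 < z.re} := (convex_halfSpace_re_gt 0).isPreconnected
  have hopen : IsOpen {z : ℂ | 0 < z.re} := isOpen_lt continuous_const Complex.continuous_re
  have key : ∀ c : ℂ, 0 < c.re → ∀ l : ℝ, Complex.exp (l * E c) = 1 := by
    intro c hc l
    have hnorm : ∀ z : ℂ, 0 ≤ z.re → ‖Complex.exp (l * E z)‖ = 1 := by
      intro z hz
      rw [Complex.norm_exp, Complex.re_ofReal_mul, hre z hz, mul_zero, Real.exp_zero]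
    have hdiff : DifferentiableOn ℂ (fun z => Complex.exp (l * E z)) {z : ℂ | 0 < z.re} :=
      (hE.differentiableOn.const_mul _).cexp
    have hmax : IsMaxOn (norm ∘ fun z => Complex.exp (l * E z)) {z : ℂ | 0 < z.re} c := by
      intro z hz
      have hz' : 0 < z.re := hz
      show ‖Complex.exp (l * E z)‖ ≤ ‖Complex.exp (l * E c)‖
      rw [hnorm z hz'.le, hnorm c hc.le]
    have heq := Complex.eqOn_of_isPreconnected_of_isMaxOn_norm hconv hopen hdiff hc hmax
    have hl1 : Tendsto (fun x : ℝ => Complex.exp (l * E x)) atTop (𝓝 (Complex.exp (l * 0))) :=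
      (Complex.continuous_exp.tendsto _).comp (hlim.const_mul _)
    have hl2 : Tendsto (fun x : ℝ => Complex.exp (l * E x)) atTop (𝓝 (Complex.exp (l * E c))) := by
      refine tendsto_const_nhds.congr' ?_
      filter_upwards [eventually_gt_atTop (0 : ℝ)] with x hx
      have hx' : (x : ℂ) ∈ {z : ℂ | 0 < z.re} := by simpa using hx
      exact (heq hx').symm
    have := tendsto_nhds_unique hl2 hl1
    rw [this, mul_zero, Complex.exp_zero]
  have hopen0 : ∀ c : ℂ, 0 < c.re → E c = 0 := by
    intro c hc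
    by_contra hne
    have hr := hre c hc.le
    have him : (E c).im ≠ 0 := by
      intro h
      exact hne (Complex.ext hr h)
    have h1 := key c hc (Real.pi / (E c).im)
    have h2 : ((Real.pi / (E c).im : ℝ) : ℂ) * E c = Real.pi * Complex.I := by
      apply Complex.ext
      · simp [hr]
      · simp
        field_simp
    rw [h2, Complex.exp_pi_mul_I] at h1
    norm_num at h1
  have hcl : EqOn E (fun _ => 0) {z : ℂ | 0 ≤ z.re} := by
    have hc2 : closure {z : ℂ | 0 < z.re} = {z : ℂ | 0 ≤ z.re} := Complex.closure_setOfPred_lt_re 0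
    refine Set.EqOn.of_subset_closure (s := {z : ℂ | 0 < z.re}) (fun z hz => hopen0 z hz) ?_
      continuousOn_const (fun z (hz : 0 < z.re) => show 0 ≤ z.re from hz.le) hc2.ge
    rw [← hc2]
    exact hE.continuousOn
  exact fun z hz => hcl hz

end Pool.Agent.R979.OC
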