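import Pool.Agent.R979.OC.Stm

/-!
# Project OC, piece OC-PSI: the Fourier transform of `psi`
-/

namespace Pool.Agent.R979.OC

open MeasureTheory Set Filter Topology

noncomputable section

namespace PSI

/-- The hyperbolic secant. -/
def sh (p : ℝ) : ℝ := 1 / Real.cosh p

lemma sh_cont : Continuous sh := by
  unfold sh
  exact continuous_const.div Real.continuous_cosh (fun x => (Real.cosh_pos x).ne')

lemma sh_even (p : ℝ) : sh (-p) = sh p := by simp [sh]

lemma sh_nonneg (p : ℝ) : 0 ≤ sh p := by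
  unfold sh
  have := Real.cosh_pos p
  positivity

lemma sh_le_one (p : ℝ) : sh p ≤ 1 := by
  unfold sh
  rw [div_le_one (Real.cosh_pos p)]
  exact Real.one_le_cosh p

lemma sh_le (p : ℝ) : sh p ≤ 2 * Real.exp (-|p|) := by
  unfold sh
  rw [div_le_iff₀ (Real.cosh_pos p), ← Real.cosh_abs, Real.cosh_eq]
  have h1 : Real.exp (-|p|) * Real.exp |p| = 1 := by
    rw [← Real.exp_add]; simp
  have h2 := Real.exp_pos (-|p|)
  nlinarith [mul_pos h2 h2]

lemma int_exp : Integrable (fun x : ℝ => Real.exp (-|x|)) := by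
  rw [← integrableOn_univ, ← Iic_union_Ioi (a := (0 : ℝ))]
  refine IntegrableOn.union ?_ ?_
  · refine (integrableOn_exp_Iic 0).congr_fun (fun x hx => ?_) measurableSet_Iic
    simp [abs_of_nonpos (show x ≤ 0 from hx)]
  · refine (integrableOn_exp_neg_Ioi 0).congr_fun (fun x hx => ?_) measurableSet_Ioi
    simp [abs_of_pos (show 0 < x from hx)]

lemma int_of_le {f : ℝ → ℝ} (hf : Continuous f) (M : ℝ)
    (h : ∀ x, |f x| ≤ M * Real.exp (-|x|)) : Integrable f :=
  (int_exp.const_mul M).mono' hf.aestronglyMeasurable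
    (Eventually.of_forall fun x => by simpa [Real.norm_eq_abs] using h x)

lemma sh_int : Integrable sh :=
  int_of_le sh_cont 2 fun x => by
    rw [abs_of_nonneg (sh_nonneg x)]; exact sh_le x

lemma odd_int (f : ℝ → ℝ) (ho : ∀ x, f (-x) = -f x) : ∫ x, f x = 0 := by
  have h1 : ∫ x, f (-x) = ∫ x, f x := integral_neg_eq_self f volume
  simp_rw [ho, integral_neg] at h1
  linarith

lemma int_mul_cos {f : ℝ → ℝ} (hf : Integrable f) (c : ℝ) :
    Integrable (fun x => f x * Real.cos (c * x)) := by
  refine hf.mul_bdd (c := 1) (by fun_prop) (Eventually.of_forall fun x => ?_)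
  exact Real.abs_cos_le_one _

lemma int_mul_sin {f : ℝ → ℝ} (hf : Integrable f) (c : ℝ) :
    Integrable (fun x => f x * Real.sin (c * x)) := by
  refine hf.mul_bdd (c := 1) (by fun_prop) (Eventually.of_forall fun x => ?_)
  exact Real.abs_sin_le_one _

lemma even_int (f : ℝ → ℝ) (hf : Integrable f) (he : ∀ x, f (-x) = f x) (c : ℝ) :
    ∫ v : ℝ, Complex.exp ((c * v : ℝ) * Complex.I) * (f v : ℂ) =
      ((∫ v, f v * Real.cos (c * v) : ℝ) : ℂ) := by
  have h1 : ∀ v : ℝ, Complex.exp ((c * v : ℝ) * Complex.I) * (f v : ℂ) =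
      ((f v * Real.cos (c * v) : ℝ) : ℂ) + ((f v * Real.sin (c * v) : ℝ) : ℂ) * Complex.I := by
    intro v
    rw [Complex.exp_mul_I]
    push_cast
    ring
  simp_rw [h1]
  rw [integral_add (int_mul_cos hf c).ofReal ((int_mul_sin hf c).ofReal.mul_const _),
    integral_mul_const, integral_complex_ofReal, integral_complex_ofReal,
    odd_int (fun v => f v * Real.sin (c * v)) (fun x => by simp [he])]
  simp

/-- Transform of an even function whose cosine transform is known. -/
lemma inversion (g h : ℝ → ℝ) (hg : Continuous g) (hgi : Integrable g)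
    (hge : ∀ x, g (-x) = g x) (hhi : Integrable h) (hhe : ∀ x, h (-x) = h x)
    (hh : ∀ s, h s = (1 / Real.pi) * ∫ x : ℝ, g x * Real.cos (x * s)) (x : ℝ) :
    ∫ s, h s * Real.cos (x * s) = 2 * g x := by
  have hpi := Real.pi_pos
  have hF : FourierTransform.fourier (fun x : ℝ => (g x : ℂ)) =
      fun w : ℝ => ((Real.pi * h (2 * Real.pi * w) : ℝ) : ℂ) := by
    ext w
    rw [Real.fourier_real_eq_integral_exp_smul]
    have h1 := even_int g hgi hge (-(2 * Real.pi * w))
    have h2 : ∀ v : ℝ, Complex.exp (((-2 * Real.pi * v * w : ℝ) : ℂ) * Complex.I) • (g v : ℂ) =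
        Complex.exp (((-(2 * Real.pi * w) * v : ℝ) : ℂ) * Complex.I) * (g v : ℂ) := by
      intro v
      rw [smul_eq_mul]
      congr 3
      push_cast; ring
    simp_rw [h2]
    rw [h1, hh]
    congr 1
    rw [← mul_assoc, mul_one_div_cancel hpi.ne', one_mul]
    refine integral_congr_ae (Eventually.of_forall fun v => ?_)
    simp only
    rw [show -(2 * Real.pi * w) * v = -(v * (2 * Real.pi * w)) by ring, Real.cos_neg]
  have hFi : Integrable (fun w : ℝ => Real.pi * h (2 * Real.pi * w)) :=
    (hhi.comp_mul_left' (by positivity)).const_mul _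
  have hI := (Complex.continuous_ofReal.comp hg).fourierInv_fourier_eq (hgi.ofReal) (by
    show Integrable (FourierTransform.fourier (fun x : ℝ => (g x : ℂ)))
    rw [hF]; exact hFi.ofReal)
  have hx := congrFun hI x
  change FourierTransformInv.fourierInv (FourierTransform.fourier (fun x : ℝ => (g x : ℂ))) x
    = (g x : ℂ) at hx
  rw [hF, Real.fourierInv_eq'] at hx
  have h1 := even_int (fun w : ℝ => Real.pi * h (2 * Real.pi * w)) hFi
    (fun w => by simp only [mul_neg, hhe]) (2 * Real.pi * x)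
  have h2 : ∀ v : ℝ, Complex.exp (((2 * Real.pi * inner ℝ v x : ℝ) : ℂ) * Complex.I) •
        ((Real.pi * h (2 * Real.pi * v) : ℝ) : ℂ) =
        Complex.exp (((2 * Real.pi * x * v : ℝ) : ℂ) * Complex.I) *
          ((Real.pi * h (2 * Real.pi * v) : ℝ) : ℂ) := by
    intro v
    rw [smul_eq_mul]
    congr 3
    simp
    ring
  simp_rw [h2] at hx
  rw [h1] at hx
  have hx' : ∫ v : ℝ, Real.pi * h (2 * Real.pi * v) * Real.cos (2 * Real.pi * x * v) = g x := by
    exact_mod_cast hx
  have h3 := Measure.integral_comp_mul_left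
    (fun s : ℝ => Real.pi * h s * Real.cos (x * s)) (2 * Real.pi)
  have h4 : ∫ v : ℝ, Real.pi * h (2 * Real.pi * v) * Real.cos (2 * Real.pi * x * v) =
      ∫ v : ℝ, Real.pi * h (2 * Real.pi * v) * Real.cos (x * (2 * Real.pi * v)) := by
    refine integral_congr_ae (Eventually.of_forall fun v => ?_)
    simp only
    congr 2
    ring
  rw [h4, h3] at hx'
  rw [abs_of_pos (by positivity), smul_eq_mul] at hx'
  simp_rw [mul_assoc Real.pi] at hx'
  rw [integral_const_mul] at hx'
  rw [← hx']
  field_simp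

/-- The cosine transform of the hyperbolic secant. -/
def Sx (x : ℝ) : ℝ := ∫ q, sh q * Real.cos (x * q)

lemma K_re (x : ℝ) : Sx x = 2 * (K ((x : ℂ) * Complex.I)).re := by
  have h0 : IntegrableOn (fun r : ℝ => Complex.exp (-((x : ℂ) * Complex.I * r)) /
      (Real.cosh r : ℂ)) (Ioi 0) := by
    have h1 : Integrable (fun r : ℝ => (sh r : ℂ) *
        Complex.exp (-((x : ℂ) * Complex.I * r))) := by
      refine sh_int.ofReal.mul_bdd (c := 1) (by fun_prop) (Eventually.of_forall fun r => ?_)
      rw [Complex.norm_exp]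
      simp
    refine h1.integrableOn.congr_fun (fun r _ => ?_) measurableSet_Ioi
    simp only [sh]
    push_cast
    ring
  have h2 : (K ((x : ℂ) * Complex.I)).re = ∫ r in Ioi (0 : ℝ), sh r * Real.cos (x * r) := by
    unfold K
    have := (Complex.reCLM.integral_comp_comm h0)
    simp only [Complex.reCLM_apply] at this
    rw [← this]
    refine setIntegral_congr_fun measurableSet_Ioi (fun r _ => ?_)
    simp only [sh]
    rw [Complex.div_ofReal_re, Complex.exp_re]
    simp
    ring
  rw [h2]
  have h3 := integral_comp_abs (f := fun q => sh q * Real.cos (x * q))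
  rw [← h3]
  unfold Sx
  refine integral_congr_ae (Eventually.of_forall fun q => ?_)
  simp only
  rcases abs_cases q with ⟨h, _⟩ | ⟨h, _⟩
  · rw [h]
  · rw [h, sh_even, mul_neg, Real.cos_neg]

lemma int_sh3 : Integrable (fun p : ℝ => 1 / Real.cosh p ^ 3) := by
  refine int_of_le ?_ 2 (fun p => ?_)
  · exact continuous_const.div (Real.continuous_cosh.pow 3)
      (fun x => (pow_pos (Real.cosh_pos x) 3).ne')
  · have h1 : 1 / Real.cosh p ^ 3 ≤ sh p := by
      unfold sh
      apply one_div_le_one_div_of_le (Real.cosh_pos p)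
      exact le_self_pow₀ (Real.one_le_cosh p) (by norm_num)
    have h2 : 0 ≤ 1 / Real.cosh p ^ 3 := by
      have := Real.cosh_pos p
      positivity
    rw [abs_of_nonneg h2]
    exact h1.trans (sh_le p)

/-- The boundary part of `psi`. -/
def f1 (p : ℝ) : ℝ := -3 / Real.cosh p + 2 / Real.cosh p ^ 3

lemma f1_eq (p : ℝ) : f1 p = -3 * sh p + 2 * (1 / Real.cosh p ^ 3) := by
  unfold f1 sh; ring

lemma f1_cont : Continuous f1 := by
  have : f1 = fun p => -3 * sh p + 2 * (1 / Real.cosh p ^ 3) := funext f1_eq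
  rw [this]
  refine (continuous_const.mul sh_cont).add (continuous_const.mul ?_)
  exact continuous_const.div (Real.continuous_cosh.pow 3)
      (fun x => (pow_pos (Real.cosh_pos x) 3).ne')

lemma f1_int : Integrable f1 := by
  have : f1 = fun p => -3 * sh p + 2 * (1 / Real.cosh p ^ 3) := funext f1_eq
  rw [this]
  exact (sh_int.const_mul _).add (int_sh3.const_mul _)

lemma f1_even (p : ℝ) : f1 (-p) = f1 p := by simp [f1]

lemma f1_tr (x : ℝ) : ∫ p, f1 p * Real.cos (x * p) = (x ^ 2 - 2) * Sx x := by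
  -- the primitive
  set F : ℝ → ℝ := fun p => -(Real.sinh p / Real.cosh p ^ 2) * Real.cos (x * p) +
    x * (1 / Real.cosh p) * Real.sin (x * p) with hF
  set F' : ℝ → ℝ := fun p => (sh p - 2 * (1 / Real.cosh p ^ 3)) * Real.cos (x * p) +
    x ^ 2 * (sh p * Real.cos (x * p)) with hF'
  have hd : ∀ p, HasDerivAt F (F' p) p := by
    intro p
    have hc := (Real.cosh_pos p).ne'
    have h1 : HasDerivAt (fun p : ℝ => Real.cos (x * p)) (-Real.sin (x * p) * (x * 1)) p :=
      ((hasDerivAt_id p).const_mul x).cos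
    have h2 : HasDerivAt (fun p : ℝ => Real.sin (x * p)) (Real.cos (x * p) * (x * 1)) p :=
      ((hasDerivAt_id p).const_mul x).sin
    have h3 := ((Real.hasDerivAt_sinh p).div ((Real.hasDerivAt_cosh p).pow 2)
      (pow_ne_zero 2 hc)).neg.mul h1
    have h4 := (((hasDerivAt_const p (1 : ℝ)).div (Real.hasDerivAt_cosh p) hc).const_mul x).mul h2
    refine (h3.add h4).congr_deriv ?_
    simp only [hF', sh]
    have hs := Real.cosh_sq p
    simp only [Pi.neg_apply, Pi.div_apply, Pi.pow_apply]
    have hs' : Real.sinh p ^ 2 = Real.cosh p ^ 2 - 1 := by linarith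
    field_simp
    ring_nf
    rw [hs']
    ring
  have hF'i : Integrable F' := by
    refine Integrable.add ?_ ?_
    · exact int_mul_cos (sh_int.sub (int_sh3.const_mul 2)) x
    · exact (int_mul_cos sh_int x).const_mul _
  have hFc : Continuous F := continuous_iff_continuousAt.2 fun p => (hd p).continuousAt
  have hFi : Integrable F := by
    refine int_of_le hFc ((1 + |x|) * 2) (fun p => ?_)
    have hc := Real.cosh_pos p
    have h1 : |Real.sinh p / Real.cosh p ^ 2| ≤ sh p := by
      rw [abs_div, abs_of_pos (pow_pos hc 2)]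
      unfold sh
      rw [div_le_div_iff₀ (pow_pos hc 2) hc]
      have : |Real.sinh p| ≤ Real.cosh p := by
        rw [abs_le]
        constructor
        · have := Real.exp_pos p
          rw [← Real.cosh_add_sinh] at this
          linarith
        · exact (Real.sinh_lt_cosh p).le
      nlinarith
    have h2 : |F p| ≤ sh p * 1 + |x| * sh p * 1 := by
      refine (abs_add_le _ _).trans (add_le_add ?_ ?_)
      · rw [abs_mul, abs_neg]
        exact mul_le_mul h1 (Real.abs_cos_le_one _) (abs_nonneg _) (sh_nonneg p)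
      · rw [abs_mul, abs_mul]
        refine mul_le_mul ?_ (Real.abs_sin_le_one _) (abs_nonneg _)
          (mul_nonneg (abs_nonneg _) (sh_nonneg p))
        exact mul_le_mul_of_nonneg_left (le_of_eq (abs_of_nonneg (sh_nonneg p))) (abs_nonneg _)
    have h3 := sh_le p
    have h4 := abs_nonneg x
    nlinarith
  have h0 := integral_eq_zero_of_hasDerivAt_of_integrable hd hF'i hFi
  have h5 : ∀ p, f1 p * Real.cos (x * p) = (x ^ 2 - 2) * (sh p * Real.cos (x * p)) - F' p := by
    intro p
    rw [f1_eq]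
    simp only [hF']
    ring
  simp_rw [h5]
  rw [integral_sub ((int_mul_cos sh_int x).const_mul _) hF'i, h0, integral_const_mul]
  simp [Sx]

/-- The convolution part. -/
def cv (w : ℝ → ℝ) (p : ℝ) : ℝ := ∫ σ : ℝ, w σ * sh (p - σ)

lemma cv_cont {w : ℝ → ℝ} (hw : Integrable w) : Continuous (cv w) := by
  refine continuous_of_dominated (bound := fun σ => ‖w σ‖) ?_ ?_ hw.norm ?_
  · intro p
    exact hw.aestronglyMeasurable.mul (sh_cont.comp (by fun_prop)).aestronglyMeasurable
  · intro p
    refine Eventually.of_forall fun σ => ?_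
    rw [norm_mul]
    have h1 := sh_nonneg (p - σ)
    have h2 := sh_le_one (p - σ)
    rw [Real.norm_of_nonneg h1]
    exact mul_le_of_le_one_right (norm_nonneg _) h2
  · refine Eventually.of_forall fun σ => ?_
    exact continuous_const.mul (sh_cont.comp (by fun_prop))

lemma cv_even {w : ℝ → ℝ} (he : ∀ x, w (-x) = w x) (p : ℝ) : cv w (-p) = cv w p := by
  unfold cv
  rw [← integral_neg_eq_self]
  refine integral_congr_ae (Eventually.of_forall fun σ => ?_)
  simp only
  rw [he, show -p - -σ = -(p - σ) by ring, sh_even]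

lemma cv_prod {w : ℝ → ℝ} (hw : Integrable w) :
    Integrable (fun z : ℝ × ℝ => w z.2 * sh (z.1 - z.2)) (volume.prod volume) := by
  simpa using hw.convolution_integrand (ContinuousLinearMap.mul ℝ ℝ) sh_int

lemma cv_int {w : ℝ → ℝ} (hw : Integrable w) : Integrable (cv w) :=
  (cv_prod hw).integral_prod_left

lemma cv_tr {w : ℝ → ℝ} (hw : Integrable w) (x : ℝ) :
    ∫ p, cv w p * Real.cos (x * p) = (∫ σ, w σ * Real.cos (x * σ)) * Sx x := by
  have h1 : ∀ p, cv w p * Real.cos (x * p) = ∫ σ, w σ * sh (p - σ) * Real.cos (x * p) := by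
    intro p
    unfold cv
    rw [integral_mul_const]
  simp_rw [h1]
  have hI : Integrable (Function.uncurry fun p σ : ℝ => w σ * sh (p - σ) * Real.cos (x * p))
      (volume.prod volume) := by
    refine (cv_prod hw).mul_bdd (c := 1) (by fun_prop) (Eventually.of_forall fun z => ?_)
    exact Real.abs_cos_le_one _
  rw [integral_integral_swap hI]
  have h2 : ∀ σ, ∫ p, w σ * sh (p - σ) * Real.cos (x * p) =
      w σ * Real.cos (x * σ) * Sx x := by
    intro σ
    have h3 : ∫ p, w σ * sh (p - σ) * Real.cos (x * p) =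
        ∫ q, w σ * sh q * Real.cos (x * (q + σ)) := by
      rw [← integral_add_right_eq_self (μ := volume)
        (fun p => w σ * sh (p - σ) * Real.cos (x * p)) σ]
      simp
    rw [h3]
    have h4 : ∀ q, w σ * sh q * Real.cos (x * (q + σ)) =
        w σ * Real.cos (x * σ) * (sh q * Real.cos (x * q)) -
        w σ * Real.sin (x * σ) * (sh q * Real.sin (x * q)) := by
      intro q
      rw [mul_add, Real.cos_add]
      ring
    simp_rw [h4]
    rw [integral_sub ((int_mul_cos sh_int x).const_mul _) ((int_mul_sin sh_int x).const_mul _),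
      integral_const_mul, integral_const_mul,
      odd_int (fun q => sh q * Real.sin (x * q)) (fun q => by simp [sh_even])]
    simp [Sx]
  simp_rw [h2]
  rw [integral_mul_const]

lemma psi_eq (p : ℝ) : psi p = f1 p + (1 / 2) * cv om p := by
  unfold psi f1 cv sh
  congr 2
  refine integral_congr_ae (Eventually.of_forall fun σ => ?_)
  simp only
  ring

lemma om_int (hO : S_OM) : Integrable om := by
  obtain ⟨hc, he, a, r, ha, ha4, -, -, -, -, C, hC⟩ := hO
  have key : ∀ σ : ℝ, 0 ≤ σ → |om σ| ≤ (4 * ‖r‖ + |C|) * Real.exp (-σ) := by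
    intro σ hσ
    have h1 := hC σ hσ
    have h2 : |4 * (r * Complex.exp (-(a * σ))).re| ≤ 4 * ‖r‖ * Real.exp (-σ) := by
      rw [abs_mul, abs_of_pos (by norm_num : (0 : ℝ) < 4), mul_assoc]
      refine mul_le_mul_of_nonneg_left ?_ (by norm_num)
      refine (Complex.abs_re_le_norm _).trans ?_
      rw [norm_mul, Complex.norm_exp]
      refine mul_le_mul_of_nonneg_left (Real.exp_le_exp.2 ?_) (norm_nonneg _)
      simp
      nlinarith
    have h3 : C * Real.exp (-(4 * σ)) ≤ |C| * Real.exp (-σ) := by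
      refine mul_le_mul (le_abs_self C) (Real.exp_le_exp.2 (by linarith)) (Real.exp_pos _).le
        (abs_nonneg _)
    have h4 := abs_sub_abs_le_abs_sub (om σ) (4 * (r * Complex.exp (-(a * σ))).re)
    nlinarith
  refine int_of_le hc (4 * ‖r‖ + |C|) (fun σ => ?_)
  rcases abs_cases σ with ⟨h, h'⟩ | ⟨h, h'⟩
  · rw [h]; exact key σ h'
  · rw [h, ← he]; exact key (-σ) (by linarith)

end PSI

/-- Piece OC-PSI. -/
theorem t_PSI (hO : S_OM) (hGI : S_GI) (_hK : S_KD) (_hN : S_KNZ) : S_PSI := by
  have hoi := PSI.om_int hO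
  obtain ⟨hc, he, -⟩ := hO
  obtain ⟨hconj, hGK, hGim, hGe, hGc, hGint⟩ := hGI
  have hpsi : psi = fun p => PSI.f1 p + (1 / 2) * PSI.cv om p := funext PSI.psi_eq
  refine ⟨?_, ?_, ?_, ?_⟩
  · rw [hpsi]
    exact PSI.f1_cont.add (continuous_const.mul (PSI.cv_cont hoi))
  · rw [hpsi]
    exact PSI.f1_int.add ((PSI.cv_int hoi).const_mul _)
  · intro p
    rw [PSI.psi_eq, PSI.psi_eq, PSI.f1_even, PSI.cv_even he]
  · intro x
    have hinv := PSI.inversion (fun ξ : ℝ => (G ((ξ : ℂ) * Complex.I)).re) om hGc hGint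
      (fun ξ => by
        simp only [Complex.ofReal_neg, neg_mul]
        rw [hGe]) hoi he (fun s => rfl) x
    have h1 : ∀ p, psi p * Real.cos (x * p) =
        PSI.f1 p * Real.cos (x * p) + (1 / 2) * (PSI.cv om p * Real.cos (x * p)) := by
      intro p
      rw [PSI.psi_eq]; ring
    simp_rw [h1]
    rw [integral_add (PSI.int_mul_cos PSI.f1_int x)
      ((PSI.int_mul_cos (PSI.cv_int hoi) x).const_mul _), integral_const_mul, PSI.f1_tr,
      PSI.cv_tr hoi, hinv, PSI.K_re]
    have hG := hGK x
    rw [hconj x, Complex.mul_conj] at hG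
    have hre := congrArg Complex.re hG
    have hk : (1 / ((Complex.normSq (K ((x : ℂ) * Complex.I)) : ℝ) : ℂ) - (x : ℂ) ^ 2 + 2).re =
        1 / Complex.normSq (K ((x : ℂ) * Complex.I)) - x ^ 2 + 2 := by
      have : (1 / ((Complex.normSq (K ((x : ℂ) * Complex.I)) : ℝ) : ℂ) - (x : ℂ) ^ 2 + 2) =
        ((1 / Complex.normSq (K ((x : ℂ) * Complex.I)) - x ^ 2 + 2 : ℝ) : ℂ) := by
        push_cast; ring
      rw [this, Complex.ofReal_re]
    rw [hk] at hre
    rw [hre, one_div (K ((x : ℂ) * Complex.I)), Complex.inv_re]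
    ring

end

end Pool.Agent.R979.OC
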