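import Pool.Agent.R979.OC.KAsy

namespace Pool.Agent.R979.OC

open MeasureTheory Set Filter Topology

noncomputable section

namespace RECx

open KAsy

lemma v_lt (r : ℝ) : |v r| < 1 := by
  have h := hv2 r
  have h3 := u_pos r
  have h2 : v r ^ 2 < 1 := by rw [h]; nlinarith [mul_pos h3 h3]
  exact (sq_lt_one_iff_abs_lt_one _).mp h2

lemma v_nonneg {r : ℝ} (hr : 0 ≤ r) : 0 ≤ v r :=
  div_nonneg (Real.sinh_nonneg_iff.mpr hr) (Real.cosh_pos r).le

lemma v_pos {r : ℝ} (hr : 0 < r) : 0 < v r :=
  div_pos (Real.sinh_pos_iff.mpr hr) (Real.cosh_pos r)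

lemma tanh_v (r : ℝ) : Real.tanh r = v r := Real.tanh_eq_sinh_div_cosh r

lemma u_int : Integrable u := by
  refine Integrable.mono' (integrable_inv_one_add_sq.const_mul 4) cu.aestronglyMeasurable ?_
  refine Eventually.of_forall fun x => ?_
  rw [Real.norm_of_nonneg (u_pos x).le]
  have h1 := Real.quadratic_le_exp_of_nonneg (abs_nonneg x)
  have h2 := Real.add_one_le_exp (-|x|)
  have h3 : 1 + x ^ 2 / 4 ≤ Real.cosh x := by
    rw [← Real.cosh_abs, Real.cosh_eq]
    have := sq_abs x
    nlinarith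
  unfold u
  rw [← div_eq_mul_inv, div_le_div_iff₀ (Real.cosh_pos x) (by positivity)]
  nlinarith

lemma one_sub_ne {a b : ℝ} (ha : |a| < 1) (hb : |b| < 1) : 0 < 1 - a * b := by
  have h : |a * b| < 1 := by
    rw [abs_mul]
    nlinarith [abs_nonneg a, abs_nonneg b]
  linarith [le_abs_self (a * b)]

lemma u_sub (p s : ℝ) : u (p - s) = u p * u s / (1 - v p * v s) := by
  have h1 : Real.cosh p ≠ 0 := (Real.cosh_pos p).ne'
  have h2 : Real.cosh s ≠ 0 := (Real.cosh_pos s).ne'
  have h3 := one_sub_ne (v_lt p) (v_lt s)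
  have h4 : Real.cosh (p - s) = Real.cosh p * Real.cosh s * (1 - v p * v s) := by
    rw [Real.cosh_sub]
    unfold v
    field_simp
  unfold u
  rw [h4]
  field_simp

lemma u_neg (s : ℝ) : u (-s) = u s := by simp [u]
lemma v_neg (s : ℝ) : v (-s) = -v s := by simp [v, neg_div]

lemma u_half (p s : ℝ) : u (p - s) + u (p + s) = 2 * (u p * (u s / (1 - (v p * v s) ^ 2))) := by
  have h1 := u_sub p s
  have h2 := u_sub p (-s)
  rw [u_neg, v_neg, sub_neg_eq_add] at h2
  have h3 := one_sub_ne (v_lt p) (v_lt s)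
  have h4 := one_sub_ne (v_lt p) (b := -v s) (by rw [abs_neg]; exact v_lt s)
  rw [mul_neg, sub_neg_eq_add] at h4 h2
  have h5 : 1 - (v p * v s) ^ 2 = (1 - v p * v s) * (1 + v p * v s) := by ring
  rw [h1, h2, h5]
  generalize v p * v s = x at *
  have h3' : 1 - x ≠ 0 := h3.ne'
  have h4' : 1 + x ≠ 0 := h4.ne'
  field_simp
  ring

/-- power series coefficient lemma -/
lemma coef_zero (b : ℕ → ℝ) (B : ℝ) (hB : ∀ N, |b N| ≤ B)
    (h : ∀ x : ℝ, 0 < x → x < 1 → HasSum (fun N => b N * x ^ N) 0) : ∀ N, b N = 0 := by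
  intro N
  induction N using Nat.strong_induction_on with
  | _ N ih =>
    have hB0 : 0 ≤ B := (abs_nonneg _).trans (hB 0)
    have key : ∀ x : ℝ, 0 < x → x ≤ 1 / 2 → |b N| ≤ 2 * B * x := by
      intro x hx hx2
      have h1 := (hasSum_nat_add_iff' (N + 1)).mpr (h x hx (by linarith))
      rw [Finset.sum_range_succ, Finset.sum_eq_zero (fun i hi => by
        rw [ih i (Finset.mem_range.mp hi), zero_mul]), zero_add, zero_sub] at h1
      have hg : HasSum (fun n : ℕ => B * x ^ (N + 1) * x ^ n) (B * x ^ (N + 1) * (1 - x)⁻¹) :=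
        (hasSum_geometric_of_lt_one hx.le (by linarith)).mul_left _
      have h2 := tsum_of_norm_bounded (f := fun n => b (n + (N + 1)) * x ^ (n + (N + 1))) hg
        (fun n => by
          rw [norm_mul, Real.norm_eq_abs, Real.norm_of_nonneg (by positivity), pow_add]
          calc |b (n + (N + 1))| * (x ^ n * x ^ (N + 1)) ≤ B * (x ^ n * x ^ (N + 1)) :=
                mul_le_mul_of_nonneg_right (hB _) (by positivity)
            _ = _ := by ring)
      rw [h1.tsum_eq, norm_neg, norm_mul, Real.norm_eq_abs,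
        Real.norm_of_nonneg (by positivity)] at h2
      have hxN : 0 < x ^ N := pow_pos hx N
      have h3 : (1 - x)⁻¹ ≤ 2 := by
        rw [inv_le_comm₀ (by linarith) (by norm_num)]; linarith
      have h4 : |b N| * x ^ N ≤ (2 * B * x) * x ^ N := by
        calc |b N| * x ^ N ≤ B * x ^ (N + 1) * (1 - x)⁻¹ := h2
          _ ≤ B * x ^ (N + 1) * 2 := mul_le_mul_of_nonneg_left h3 (by positivity)
          _ = _ := by ring
      exact le_of_mul_le_mul_right h4 hxN
    by_contra hne
    have hpos : 0 < |b N| := abs_pos.mpr hne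
    have h5 := key (min (1 / 2) (|b N| / (4 * B + 1))) (by positivity) (min_le_left _ _)
    have h6 : 2 * B * min (1 / 2) (|b N| / (4 * B + 1)) ≤ 2 * B * (|b N| / (4 * B + 1)) :=
      mul_le_mul_of_nonneg_left (min_le_right _ _) (by positivity)
    have h7 : 2 * B * (|b N| / (4 * B + 1)) < |b N| := by
      rw [mul_div_assoc', div_lt_iff₀ (by positivity)]
      nlinarith
    linarith

lemma int_pow (q : ℝ) (n : ℕ) :
    ∫ p in (0:ℝ)..q, v p ^ n * u p ^ 2 = v q ^ (n + 1) / (n + 1) := by
  have hd : ∀ p ∈ uIcc (0:ℝ) q, HasDerivAt (fun p => v p ^ (n + 1) / (n + 1))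
      (v p ^ n * u p ^ 2) p := by
    intro p _
    have h := ((hv p).pow (n + 1)).div_const ((n:ℝ) + 1)
    refine h.congr_deriv ?_
    have : (n:ℝ) + 1 ≠ 0 := by positivity
    push_cast
    field_simp
  have hc : Continuous (fun p => v p ^ n * u p ^ 2) := by
    have := cu; have := cv
    fun_prop
  rw [intervalIntegral.integral_eq_sub_of_hasDerivAt hd (hc.intervalIntegrable _ _)]
  simp [v]

end RECx

open KAsy RECx

theorem t_REC : S_REC := by
  intro w hw ⟨C, hC⟩ hev hV
  have cu := cu
  have cv := cv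
  have hC0 : 0 ≤ C := (abs_nonneg _).trans (hC 0)
  -- moments
  set M : ℕ → ℝ := fun k => ∫ σ in Ioi (0 : ℝ), w σ * (v σ ^ (2 * k) * u σ) with hM
  have hMk : ∀ k : ℕ, ∫ σ in Ioi (0 : ℝ), w σ * (Real.tanh σ) ^ (2 * k) / Real.cosh σ = M k := by
    intro k
    rw [hM]
    simp only
    congr 1
    ext σ
    rw [tanh_v]
    unfold u
    ring
  set m : ℕ → ℝ := fun k => ee k + M k with hm
  simp only [hMk]
  change ∀ N : ℕ, ∑ k ∈ Finset.range (N + 1), m k / (N + k + 1 : ℝ) = if N = 0 then 1 else 0
  have hbase : IntegrableOn (fun σ => C * u σ) (Ioi 0) := (u_int.const_mul C).integrableOn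
  have vle : ∀ σ (n : ℕ), |v σ ^ n| ≤ 1 := fun σ n => by
    rw [abs_pow]; exact pow_le_one₀ (abs_nonneg _) (v_abs σ)
  have hIk : ∀ k : ℕ, IntegrableOn (fun σ => w σ * (v σ ^ (2 * k) * u σ)) (Ioi 0) := by
    intro k
    refine Integrable.mono' hbase (by fun_prop) ?_
    refine Eventually.of_forall fun σ => ?_
    rw [norm_mul, norm_mul, Real.norm_eq_abs, Real.norm_eq_abs, Real.norm_of_nonneg (u_pos σ).le]
    have h1 := vle σ (2 * k)
    have h2 := u_pos σ
    calc |w σ| * (|v σ ^ (2 * k)| * u σ) ≤ C * (1 * u σ) :=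
          mul_le_mul (hC σ) (mul_le_mul_of_nonneg_right h1 h2.le) (by positivity) hC0
      _ = _ := by ring
  set U : ℝ := ∫ σ in Ioi (0:ℝ), C * u σ with hU
  have hnormk : ∀ k : ℕ, ∫ σ in Ioi (0:ℝ), ‖w σ * (v σ ^ (2 * k) * u σ)‖ ≤ U := by
    intro k
    apply integral_mono (hIk k).norm hbase
    intro σ
    simp only
    rw [norm_mul, norm_mul, Real.norm_eq_abs, Real.norm_eq_abs, Real.norm_of_nonneg (u_pos σ).le]
    have h1 := vle σ (2 * k)
    have h2 := u_pos σ
    calc |w σ| * (|v σ ^ (2 * k)| * u σ) ≤ C * (1 * u σ) :=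
          mul_le_mul (hC σ) (mul_le_mul_of_nonneg_right h1 h2.le) (by positivity) hC0
      _ = _ := by ring
  have hU0 : 0 ≤ U := (integral_nonneg (fun σ => norm_nonneg _)).trans (hnormk 0)
  have hMb : ∀ k, |M k| ≤ U := fun k => (norm_integral_le_integral_norm _).trans (hnormk k)
  have hmb : ∀ k, |m k| ≤ 2 + U := by
    intro k
    have h1 : |ee k| ≤ 2 := by
      unfold ee
      split_ifs <;> norm_num
    exact (abs_add_le _ _).trans (add_le_add h1 (hMb k))
  -- step 1
  set Φ : ℝ → ℝ := fun x => ∑' k, m k * x ^ (2 * k) with hΦ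
  have hgeo : ∀ x : ℝ, |x| < 1 → Summable (fun k : ℕ => (x ^ 2) ^ k) := by
    intro x hx
    apply summable_geometric_of_lt_one (sq_nonneg x)
    exact (sq_lt_one_iff_abs_lt_one x).mpr hx
  have hsumm : ∀ x : ℝ, |x| < 1 → Summable (fun k => ‖m k * x ^ (2 * k)‖) := by
    intro x hx
    refine Summable.of_nonneg_of_le (fun k => norm_nonneg _) (fun k => ?_)
      ((hgeo x hx).mul_left (2 + U))
    rw [norm_mul, Real.norm_eq_abs, pow_mul, Real.norm_of_nonneg (by positivity)]
    exact mul_le_mul_of_nonneg_right (hmb k) (by positivity)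
  have hΦs : ∀ x : ℝ, |x| < 1 → HasSum (fun k => m k * x ^ (2 * k)) (Φ x) := fun x hx =>
    (hsumm x hx).of_norm.hasSum
  have step1 : ∀ p : ℝ, -3 / Real.cosh p + 2 / Real.cosh p ^ 3 +
      (1 / 2) * ∫ σ : ℝ, w σ / Real.cosh (p - σ) = u p * Φ (v p) := by
    intro p
    have hi : Integrable (fun σ => w σ * u (p - σ)) := by
      refine Integrable.mono' ((u_int.comp_sub_left p).const_mul C)
        (by fun_prop) ?_
      refine Eventually.of_forall fun σ => ?_
      rw [norm_mul, Real.norm_eq_abs, Real.norm_of_nonneg (u_pos _).le]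
      exact mul_le_mul_of_nonneg_right (hC σ) (u_pos _).le
    have hi2 : Integrable (fun σ => w σ * u (p + σ)) := by
      refine Integrable.mono' ((u_int.comp_add_left p).const_mul C)
        (by fun_prop) ?_
      refine Eventually.of_forall fun σ => ?_
      rw [norm_mul, Real.norm_eq_abs, Real.norm_of_nonneg (u_pos _).le]
      exact mul_le_mul_of_nonneg_right (hC σ) (u_pos _).le
    have e1 : ∫ σ : ℝ, w σ / Real.cosh (p - σ) = ∫ σ : ℝ, w σ * u (p - σ) := by
      congr 1; ext σ; unfold u; ring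
    have e2 : ∫ σ : ℝ, w σ * u (p - σ) =
        ∫ σ in Ioi (0:ℝ), 2 * (u p * (w σ * (u σ / (1 - (v p * v σ) ^ 2)))) := by
      rw [← intervalIntegral.integral_Iic_add_Ioi (b := 0) hi.integrableOn hi.integrableOn]
      have e3 := integral_comp_neg_Ioi (0:ℝ) (fun σ => w σ * u (p - σ))
      rw [neg_zero] at e3
      rw [← e3]
      simp only [hev, sub_neg_eq_add]
      rw [← integral_add hi2.integrableOn hi.integrableOn]
      congr 1
      ext σ
      have := u_half p σ
      linear_combination (w σ) * this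
    have e4 : HasSum (fun k => M k * v p ^ (2 * k))
        (∫ σ in Ioi (0:ℝ), w σ * (u σ / (1 - (v p * v σ) ^ 2))) := by
      have h := hasSum_integral_of_summable_integral_norm (μ := volume.restrict (Ioi (0:ℝ)))
        (F := fun k σ => (w σ * (v σ ^ (2 * k) * u σ)) * v p ^ (2 * k))
        (fun k => (hIk k).mul_const _) (by
          refine Summable.of_nonneg_of_le (fun k => integral_nonneg fun σ => norm_nonneg _)
            (fun k => ?_) ((hgeo (v p) (v_lt p)).mul_left U)
          simp only [norm_mul _ (v p ^ (2 * k))]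
          rw [integral_mul_const, pow_mul, Real.norm_of_nonneg (by positivity)]
          exact mul_le_mul_of_nonneg_right (hnormk k) (by positivity))
      have h1 : ∀ k : ℕ, ∫ σ in Ioi (0:ℝ), (w σ * (v σ ^ (2 * k) * u σ)) * v p ^ (2 * k) =
          M k * v p ^ (2 * k) := fun k => by rw [integral_mul_const]
      simp only [h1] at h
      have h2 : ∀ σ : ℝ, ∑' k : ℕ, (w σ * (v σ ^ (2 * k) * u σ)) * v p ^ (2 * k) =
          w σ * (u σ / (1 - (v p * v σ) ^ 2)) := by
        intro σ
        have h3 : |(v p * v σ) ^ 2| < 1 := by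
          rw [abs_pow, abs_mul]
          have a1 := v_lt p
          have a2 := v_lt σ
          have a3 := abs_nonneg (v p)
          have a4 := abs_nonneg (v σ)
          have a5 : |v p| * |v σ| < 1 := by nlinarith
          exact pow_lt_one₀ (by positivity) a5 (by norm_num)
        have h4 := (hasSum_geometric_of_abs_lt_one h3).mul_left (w σ * u σ)
        have h5 : (fun k : ℕ => (w σ * (v σ ^ (2 * k) * u σ)) * v p ^ (2 * k)) =
            fun k : ℕ => w σ * u σ * ((v p * v σ) ^ 2) ^ k := by
          ext k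
          rw [← pow_mul, mul_pow]
          ring
        rw [h5, h4.tsum_eq]
        rw [div_eq_mul_inv]
        ring
      simp only [h2] at h
      exact h
    have e5 : HasSum (fun k => ee k * v p ^ (2 * k)) (-1 - 2 * v p ^ 2) := by
      have h : HasSum (fun k => ee k * v p ^ (2 * k))
          (∑ k ∈ Finset.range 2, ee k * v p ^ (2 * k)) := hasSum_sum_of_ne_finset_zero (by
          intro k hk
          simp only [Finset.mem_range, not_lt] at hk
          have : ee k = 0 := by
            unfold ee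
            rw [if_neg (by omega), if_neg (by omega)]
          rw [this, zero_mul])
      have h2 : ∑ k ∈ Finset.range 2, ee k * v p ^ (2 * k) = -1 - 2 * v p ^ 2 := by
        simp [Finset.sum_range_succ, ee]
        ring
      rw [h2] at h
      exact h
    have e6 : Φ (v p) = (-1 - 2 * v p ^ 2) +
        ∫ σ in Ioi (0:ℝ), w σ * (u σ / (1 - (v p * v σ) ^ 2)) := by
      have h := e5.add e4
      have h2 : (fun k => ee k * v p ^ (2 * k) + M k * v p ^ (2 * k)) =
          fun k => m k * v p ^ (2 * k) := by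
        ext k; rw [hm]; ring
      rw [h2] at h
      exact h.tsum_eq
    rw [e1, e2, e6, integral_const_mul, integral_const_mul]
    have e7 : -3 / Real.cosh p + 2 / Real.cosh p ^ 3 = u p * (-1 - 2 * v p ^ 2) := by
      rw [hv2]
      unfold u
      have : Real.cosh p ≠ 0 := (Real.cosh_pos p).ne'
      field_simp
      ring
    rw [e7]
    ring
  -- step 2
  have step2 : ∀ q : ℝ, 0 < q →
      ∫ p in (0:ℝ)..q, u p ^ 2 * Φ (v p) / (1 - v q * v p) = v q := by
    intro q hq
    have h := hV q hq.le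
    simp only [step1] at h
    have h2 : (fun p => u p * Φ (v p) / Real.cosh (q - p)) =
        fun p => u q * (u p ^ 2 * Φ (v p) / (1 - v q * v p)) := by
      ext p
      have h3 := u_sub q p
      have h4 : u p * Φ (v p) / Real.cosh (q - p) = u p * Φ (v p) * u (q - p) := by
        unfold u; ring
      rw [h4, h3]
      ring
    rw [h2, intervalIntegral.integral_const_mul] at h
    have h5 : Real.tanh q / Real.cosh q = u q * v q := by
      rw [tanh_v]; unfold u; ring
    rw [h5] at h
    exact mul_left_cancel₀ (u_pos q).ne' h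
  -- step 3
  have step3 : ∀ q : ℝ, 0 < q → HasSum (fun N : ℕ =>
      (∑ k ∈ Finset.range (N + 1), m k / (N + k + 1 : ℝ)) * v q ^ (2 * N + 1)) (v q) := by
    intro q hq
    have hvq0 : 0 < v q := v_pos hq
    have hvq1 : |v q| < 1 := v_lt q
    have hconv : ∀ n : ℕ, ∫ p in Ioc (0:ℝ) q, v p ^ n * u p ^ 2 = v q ^ (n + 1) / (n + 1) := by
      intro n
      rw [← intervalIntegral.integral_of_le hq.le, int_pow]
    have hcn : ∀ n : ℕ, IntegrableOn (fun p => v p ^ n * u p ^ 2) (Ioc 0 q) := by
      intro n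
      have hc : Continuous (fun p => v p ^ n * u p ^ 2) := by fun_prop
      exact (hc.intervalIntegrable 0 q).1
    set F : ℕ × ℕ → ℝ → ℝ := fun kj p =>
      (m kj.1 * v q ^ kj.2) * (v p ^ (2 * kj.1 + kj.2) * u p ^ 2) with hF
    have hFi : ∀ kj, Integrable (F kj) (volume.restrict (Ioc 0 q)) := fun kj =>
      (hcn _).const_mul _
    have hFint : ∀ kj, ∫ p in Ioc (0:ℝ) q, F kj p =
        (m kj.1 * v q ^ kj.2) * (v q ^ (2 * kj.1 + kj.2 + 1) / ((2 * kj.1 + kj.2 : ℕ) + 1)) := by
      intro kj
      rw [hF]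
      simp only
      rw [integral_const_mul, hconv]
    have hFn : ∀ kj, ∫ p in Ioc (0:ℝ) q, ‖F kj p‖ =
        (|m kj.1| * v q ^ kj.2) *
          (v q ^ (2 * kj.1 + kj.2 + 1) / ((2 * kj.1 + kj.2 : ℕ) + 1)) := by
      intro kj
      rw [← hconv, ← integral_const_mul]
      apply setIntegral_congr_fun measurableSet_Ioc
      intro p hp
      have hp0 : 0 ≤ v p := v_nonneg hp.1.le
      have hup := u_pos p
      simp only [hF]
      rw [norm_mul, norm_mul, Real.norm_eq_abs, Real.norm_of_nonneg (by positivity),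
        Real.norm_of_nonneg (by positivity)]
    have hsummF : Summable (fun kj => ∫ p in Ioc (0:ℝ) q, ‖F kj p‖) := by
      have hg := hgeo (v q) hvq1
      have hg2 := (hg.mul_of_nonneg hg (fun k => by positivity) (fun k => by positivity)).mul_left
        (2 + U)
      refine Summable.of_nonneg_of_le (fun kj => integral_nonneg fun σ => norm_nonneg _)
        (fun kj => ?_) hg2
      rw [hFn]
      have h1 : v q ^ (2 * kj.1 + kj.2 + 1) / (((2 * kj.1 + kj.2 : ℕ) : ℝ) + 1) ≤
          v q ^ (2 * kj.1 + kj.2) := by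
        have h2 : v q ^ (2 * kj.1 + kj.2 + 1) ≤ v q ^ (2 * kj.1 + kj.2) :=
          pow_le_pow_of_le_one hvq0.le (le_of_lt (abs_lt.mp hvq1).2) (Nat.le_succ _)
        refine le_trans (div_le_self (by positivity) ?_) h2
        have : (0:ℝ) ≤ ((2 * kj.1 + kj.2 : ℕ) : ℝ) := Nat.cast_nonneg _
        linarith
      have hmk := hmb kj.1
      calc (|m kj.1| * v q ^ kj.2) *
          (v q ^ (2 * kj.1 + kj.2 + 1) / (((2 * kj.1 + kj.2 : ℕ) : ℝ) + 1))
          ≤ ((2 + U) * v q ^ kj.2) * v q ^ (2 * kj.1 + kj.2) := by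
            apply mul_le_mul (mul_le_mul_of_nonneg_right hmk (by positivity)) h1
              (by positivity) (by positivity)
        _ = (2 + U) * ((v q ^ 2) ^ kj.1 * (v q ^ 2) ^ kj.2) := by
            rw [← pow_mul, ← pow_mul, pow_add, mul_comm 2 kj.2, pow_mul (v q) kj.2 2]
            ring
    have hS := hasSum_integral_of_summable_integral_norm hFi hsummF
    simp only [hFint] at hS
    have hpt : ∫ p in Ioc (0:ℝ) q, ∑' kj, F kj p = v q := by
      rw [← step2 q hq, intervalIntegral.integral_of_le hq.le]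
      apply setIntegral_congr_fun measurableSet_Ioc
      intro p hp
      simp only
      have a1 := v_lt p
      have a3 : |v q * v p| < 1 := by
        rw [abs_mul]
        nlinarith [abs_nonneg (v p), abs_nonneg (v q)]
      have s1 := hΦs (v p) a1
      have s2 := hasSum_geometric_of_abs_lt_one a3
      have s3 : Summable (fun j : ℕ => ‖(v q * v p) ^ j‖) := by
        simp only [norm_pow]
        exact summable_geometric_of_lt_one (norm_nonneg _) a3
      have s4 := s1.mul s2 (summable_mul_of_summable_norm (hsumm (v p) a1) s3)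
      have s5 := s4.mul_left (u p ^ 2)
      have s6 : (fun kj : ℕ × ℕ => u p ^ 2 * (m kj.1 * v p ^ (2 * kj.1) * (v q * v p) ^ kj.2)) =
          fun kj => F kj p := by
        ext kj
        rw [hF]
        simp only
        rw [mul_pow, pow_add]
        ring
      rw [s6] at s5
      rw [s5.tsum_eq, div_eq_mul_inv]
      ring
    rw [hpt] at hS
    have hS2 := (Finset.HasAntidiagonal.sigmaAntidiagonalEquivProd (A := ℕ)).hasSum_iff.mpr hS
    refine hS2.sigma (fun N => ?_)
    have hfin := hasSum_fintype (fun c : Finset.HasAntidiagonal.antidiagonal N =>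
      ((fun x : ℕ × ℕ => m x.1 * v q ^ x.2 *
        (v q ^ (2 * x.1 + x.2 + 1) / (((2 * x.1 + x.2 : ℕ) : ℝ) + 1))) ∘
        (Finset.HasAntidiagonal.sigmaAntidiagonalEquivProd (A := ℕ))) ⟨N, c⟩)
    have hval : ∑ c : Finset.HasAntidiagonal.antidiagonal N,
      ((fun x : ℕ × ℕ => m x.1 * v q ^ x.2 *
        (v q ^ (2 * x.1 + x.2 + 1) / (((2 * x.1 + x.2 : ℕ) : ℝ) + 1))) ∘
        (Finset.HasAntidiagonal.sigmaAntidiagonalEquivProd (A := ℕ))) ⟨N, c⟩ =
        (∑ k ∈ Finset.range (N + 1), m k / (N + k + 1 : ℝ)) * v q ^ (2 * N + 1) := by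
      have h1 : ∑ c : Finset.HasAntidiagonal.antidiagonal N,
        ((fun x : ℕ × ℕ => m x.1 * v q ^ x.2 *
          (v q ^ (2 * x.1 + x.2 + 1) / (((2 * x.1 + x.2 : ℕ) : ℝ) + 1))) ∘
          (Finset.HasAntidiagonal.sigmaAntidiagonalEquivProd (A := ℕ))) ⟨N, c⟩ =
          ∑ x ∈ Finset.HasAntidiagonal.antidiagonal N, m x.1 * v q ^ x.2 *
          (v q ^ (2 * x.1 + x.2 + 1) / (((2 * x.1 + x.2 : ℕ) : ℝ) + 1)) := by
        rw [← Finset.sum_coe_sort (Finset.HasAntidiagonal.antidiagonal N)
          (fun x : ℕ × ℕ => m x.1 * v q ^ x.2 *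
          (v q ^ (2 * x.1 + x.2 + 1) / (((2 * x.1 + x.2 : ℕ) : ℝ) + 1)))]
        rfl
      rw [h1, Finset.Nat.sum_antidiagonal_eq_sum_range_succ (fun a b => m a * v q ^ b *
          (v q ^ (2 * a + b + 1) / (((2 * a + b : ℕ) : ℝ) + 1))) N, Finset.sum_mul]
      apply Finset.sum_congr rfl
      intro k hk
      have hk' : k ≤ N := Nat.lt_succ_iff.mp (Finset.mem_range.mp hk)
      have e1 : (((2 * k + (N - k) : ℕ) : ℝ) + 1) = (N + k + 1 : ℝ) := by
        rw [show 2 * k + (N - k) = N + k by omega]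
        push_cast
        ring
      have e2 : v q ^ (2 * N + 1) = v q ^ (N - k) * v q ^ (2 * k + (N - k) + 1) := by
        rw [← pow_add]; congr 1; omega
      rw [e1, e2]
      ring
    rw [hval] at hfin
    exact hfin
  -- step 4
  set b : ℕ → ℝ := fun N => (∑ k ∈ Finset.range (N + 1), m k / (N + k + 1 : ℝ)) -
    if N = 0 then 1 else 0 with hb
  have hbz : ∀ N, b N = 0 := by
    apply coef_zero b (2 + U + 1)
    · intro N
      have h1 : |∑ k ∈ Finset.range (N + 1), m k / (N + k + 1 : ℝ)| ≤ 2 + U := by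
        calc |∑ k ∈ Finset.range (N + 1), m k / (N + k + 1 : ℝ)|
            ≤ ∑ k ∈ Finset.range (N + 1), |m k / (N + k + 1 : ℝ)| :=
              Finset.abs_sum_le_sum_abs _ _
          _ ≤ ∑ k ∈ Finset.range (N + 1), (2 + U) / (N + 1 : ℝ) := by
              apply Finset.sum_le_sum
              intro k _
              rw [abs_div, abs_of_pos (show (0:ℝ) < N + k + 1 by positivity)]
              apply div_le_div₀ (by positivity) (hmb k) (by positivity)
              have : (0:ℝ) ≤ k := Nat.cast_nonneg _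
              linarith
          _ = 2 + U := by
              rw [Finset.sum_const, Finset.card_range, nsmul_eq_mul]
              push_cast
              field_simp
      have h2 : |(if N = 0 then (1:ℝ) else 0)| ≤ 1 := by
        split_ifs <;> norm_num
      exact (abs_sub _ _).trans (add_le_add h1 h2)
    · intro x hx0 hx1
      have hs0 : 0 < Real.sqrt x := Real.sqrt_pos.mpr hx0
      have hs1 : Real.sqrt x < 1 := by
        rw [Real.sqrt_lt' (by norm_num)]; linarith
      have hq := Real.tanh_artanh (x := Real.sqrt x) ⟨by linarith, hs1⟩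
      rw [tanh_v] at hq
      have hqpos : 0 < Real.artanh (Real.sqrt x) := by
        by_contra hneg
        push Not at hneg
        have : v (Real.artanh (Real.sqrt x)) ≤ 0 := by
          have h1 := v_nonneg (r := -Real.artanh (Real.sqrt x)) (by linarith)
          rw [v_neg] at h1
          linarith
        linarith
      have h3 := step3 _ hqpos
      rw [hq] at h3
      have h4 := h3.mul_right (Real.sqrt x)⁻¹
      have h5 : (fun N : ℕ => (∑ k ∈ Finset.range (N + 1), m k / (N + k + 1 : ℝ)) *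
          Real.sqrt x ^ (2 * N + 1) * (Real.sqrt x)⁻¹) =
          fun N : ℕ => (∑ k ∈ Finset.range (N + 1), m k / (N + k + 1 : ℝ)) * x ^ N := by
        ext N
        rw [pow_succ, pow_mul, Real.sq_sqrt hx0.le]
        field_simp
      rw [h5, mul_inv_cancel₀ hs0.ne'] at h4
      have h6 : HasSum (fun N : ℕ => (if N = 0 then (1:ℝ) else 0) * x ^ N) 1 := by
        have h := hasSum_single (f := fun N : ℕ => (if N = 0 then (1:ℝ) else 0) * x ^ N) 0
          (by intro N hN; simp [hN])
        simpa using h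
      have h7 := h4.sub h6
      rw [sub_self] at h7
      have h8 : (fun N : ℕ => (∑ k ∈ Finset.range (N + 1), m k / (N + k + 1 : ℝ)) * x ^ N -
          (if N = 0 then (1:ℝ) else 0) * x ^ N) = fun N => b N * x ^ N := by
        ext N
        rw [hb]
        ring
      rw [h8] at h7
      exact h7
  intro N
  have := hbz N
  rw [hb] at this
  exact sub_eq_zero.mp this

end

end Pool.Agent.R979.OC
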