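import Pool.Agent.R979.OC.Stm

namespace Pool.Agent.R979.OC

open MeasureTheory Set Filter Topology

theorem t_SHIFT : S_SHIFT := by
  intro H C hd hb σ hσ
  have hC : 0 ≤ C := by
    have := (norm_nonneg _).trans (hb 0 (by simp) (by simp))
    simpa using this
  set F : ℂ → ℂ := fun u => H u * Complex.exp (-(u * σ)) with hF
  have hFd : ∀ u : ℂ, 0 ≤ u.re → u.re ≤ 4 → DifferentiableAt ℂ F u := by
    intro u h0 h4
    exact (hd u h0 h4).mul (by fun_prop)
  have hFb : ∀ u : ℂ, 0 ≤ u.re → u.re ≤ 4 → ‖F u‖ ≤ C / (1 + u.im ^ 2) := by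
    intro u h0 h4
    rw [hF]
    show ‖H u * Complex.exp (-(u * σ))‖ ≤ _
    rw [norm_mul, Complex.norm_exp]
    have h1 : Real.exp (-(u * σ)).re ≤ 1 := by
      rw [Real.exp_le_one_iff, Complex.neg_re, Complex.re_mul_ofReal]
      have := mul_nonneg h0 hσ
      linarith
    calc ‖H u‖ * Real.exp (-(u * σ)).re ≤ ‖H u‖ * 1 := by gcongr
      _ ≤ C / (1 + u.im ^ 2) := by rw [mul_one]; exact hb u h0 h4
  have hcont : ∀ c : ℝ, 0 ≤ c → c ≤ 4 → Continuous (fun y : ℝ => F ((c : ℂ) + y * Complex.I)) := by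
    intro c h0 h4
    rw [continuous_iff_continuousAt]
    intro y
    have h1 : ContinuousAt F ((c : ℂ) + y * Complex.I) :=
      (hFd _ (by simpa using h0) (by simpa using h4)).continuousAt
    exact ContinuousAt.comp (f := fun y : ℝ => (c : ℂ) + y * Complex.I) h1 (by fun_prop)
  have hint : ∀ c : ℝ, 0 ≤ c → c ≤ 4 → Integrable (fun y : ℝ => F ((c : ℂ) + y * Complex.I)) := by
    intro c h0 h4
    refine (integrable_inv_one_add_sq.const_mul C).mono' (hcont c h0 h4).aestronglyMeasurable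
      (Eventually.of_forall fun y => ?_)
    have := hFb ((c : ℂ) + y * Complex.I) (by simpa using h0) (by simpa using h4)
    simpa [div_eq_mul_inv] using this
  have hrect : ∀ R : ℝ, 0 ≤ R →
      ‖(∫ y in (-R)..R, F ((4 : ℝ) + y * Complex.I)) - ∫ y in (-R)..R, F ((0 : ℝ) + y * Complex.I)‖ ≤
        8 * (C / (1 + R ^ 2)) := by
    intro R hR
    have h1 := Complex.integral_boundary_rect_eq_zero_of_differentiableOn F
      (((0 : ℝ) : ℂ) + ((-R : ℝ) : ℂ) * Complex.I) (((4 : ℝ) : ℂ) + ((R : ℝ) : ℂ) * Complex.I) (by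
        intro u hu
        rw [Complex.mem_reProdIm] at hu
        have h2 := hu.1
        simp only [Complex.add_re, Complex.ofReal_re, Complex.mul_re, Complex.I_re, mul_zero,
          Complex.ofReal_im, Complex.I_im, mul_one, sub_self, add_zero] at h2
        rw [uIcc_of_le (by norm_num)] at h2
        exact (hFd u h2.1 h2.2).differentiableWithinAt)
    simp only [Complex.add_re, Complex.ofReal_re, Complex.mul_re, Complex.I_re, mul_zero,
      Complex.ofReal_im, Complex.I_im, mul_one, sub_self, add_zero, Complex.add_im,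
      Complex.mul_im, zero_add, smul_eq_mul] at h1
    have hh : ∀ s : ℝ, s ^ 2 = R ^ 2 → ‖∫ x in (0 : ℝ)..4, F (x + (s : ℂ) * Complex.I)‖ ≤
        4 * (C / (1 + R ^ 2)) := by
      intro s hs
      have := intervalIntegral.norm_integral_le_of_norm_le_const (a := 0) (b := 4)
        (f := fun x : ℝ => F (x + (s : ℂ) * Complex.I)) (C := C / (1 + R ^ 2)) (by
          intro x hx
          rw [uIoc_of_le (by norm_num)] at hx
          have h3 := hFb (x + (s : ℂ) * Complex.I) (by simpa using hx.1.le) (by simpa using hx.2)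
          simpa [hs] using h3)
      refine this.trans (le_of_eq ?_)
      norm_num
      ring
    have e1 := hh (-R) (by ring)
    have e2 := hh R rfl
    set a := ∫ x in (0 : ℝ)..4, F (x + ((-R : ℝ) : ℂ) * Complex.I) with ha
    set b := ∫ x in (0 : ℝ)..4, F (x + ((R : ℝ) : ℂ) * Complex.I) with hb'
    set c := ∫ y in (-R)..R, F (((4 : ℝ) : ℂ) + y * Complex.I) with hc
    set d := ∫ y in (-R)..R, F (((0 : ℝ) : ℂ) + y * Complex.I) with hd'
    have h4 : Complex.I * (c - d) = b - a := by linear_combination h1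
    have h5 : ‖c - d‖ = ‖b - a‖ := by
      rw [← h4, norm_mul, Complex.norm_I, one_mul]
    rw [h5]
    calc ‖b - a‖ ≤ ‖b‖ + ‖a‖ := norm_sub_le _ _
      _ ≤ 8 * (C / (1 + R ^ 2)) := by linarith
  have hl4 : Tendsto (fun R : ℝ => ∫ y in (-R)..R, F ((4 : ℝ) + y * Complex.I)) atTop
      (𝓝 (∫ y : ℝ, F ((4 : ℝ) + y * Complex.I))) :=
    intervalIntegral_tendsto_integral (hint 4 (by norm_num) le_rfl) tendsto_neg_atTop_atBot tendsto_id
  have hl0 : Tendsto (fun R : ℝ => ∫ y in (-R)..R, F ((0 : ℝ) + y * Complex.I)) atTop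
      (𝓝 (∫ y : ℝ, F ((0 : ℝ) + y * Complex.I))) :=
    intervalIntegral_tendsto_integral (hint 0 le_rfl (by norm_num)) tendsto_neg_atTop_atBot tendsto_id
  have hz : Tendsto (fun R : ℝ => 8 * (C / (1 + R ^ 2))) atTop (𝓝 0) := by
    have h1 : Tendsto (fun R : ℝ => 1 + R ^ 2) atTop atTop :=
      tendsto_atTop_add_const_left _ _ (tendsto_pow_atTop (by norm_num))
    have h2 := (h1.const_div_atTop C).const_mul 8
    simpa using h2
  have h0 : Tendsto (fun R : ℝ => (∫ y in (-R)..R, F ((4 : ℝ) + y * Complex.I)) -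
      ∫ y in (-R)..R, F ((0 : ℝ) + y * Complex.I)) atTop (𝓝 0) := by
    apply squeeze_zero_norm' _ hz
    filter_upwards [eventually_ge_atTop (0 : ℝ)] with R hR using hrect R hR
  have heq := tendsto_nhds_unique h0 (hl4.sub hl0)
  have h6 : ∫ y : ℝ, F ((4 : ℝ) + y * Complex.I) = ∫ y : ℝ, F ((0 : ℝ) + y * Complex.I) :=
    sub_eq_zero.1 heq.symm
  have h7 : ∫ y : ℝ, F ((0 : ℝ) + y * Complex.I) =
      ∫ ξ : ℝ, H (ξ * Complex.I) * Complex.exp (-(ξ * Complex.I * σ)) := by
    congr 1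
    funext y
    simp [hF]
  have h8 : ∫ y : ℝ, F ((4 : ℝ) + y * Complex.I) =
      ∫ ξ : ℝ, H (4 + ξ * Complex.I) * Complex.exp (-((4 + ξ * Complex.I) * σ)) := by
    congr 1
  rw [← h7, ← h8, h6]

end Pool.Agent.R979.OC
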