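import Mathlib

/-!
# Project OC: asymptotics of the orthorecursive coefficients of unity (MP_f2798c_nt)

Definitions and exact statements of the pieces.  Only Mathlib is needed.
-/

namespace Pool.Agent.R979.OC

open MeasureTheory Set Filter Topology

noncomputable section

/-- Laplace transform of the hyperbolic secant. -/
def K (s : ℂ) : ℂ := ∫ r in Ioi (0 : ℝ), Complex.exp (-(s * r)) / (Real.cosh r : ℂ)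

/-- `D u = π - K u * cos (π u / 2)`. -/
def D (u : ℂ) : ℂ := (Real.pi : ℂ) - K u * Complex.cos (Real.pi * u / 2)

/-- `G u = cos (π u / 2) / (K u * D u) + u ^ 2 + 2`. -/
def G (u : ℂ) : ℂ := Complex.cos (Real.pi * u / 2) / (K u * D u) + u ^ 2 + 2

/-- The even real density `om`. -/
def om (σ : ℝ) : ℝ :=
  (1 / Real.pi) * ∫ ξ : ℝ, (G ((ξ : ℂ) * Complex.I)).re * Real.cos (ξ * σ)

/-- The function `psi p = f (tanh p ^ 2) / cosh p`. -/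
def psi (p : ℝ) : ℝ :=
  -3 / Real.cosh p + 2 / Real.cosh p ^ 3 + (1 / 2) * ∫ σ : ℝ, om σ / Real.cosh (p - σ)

/-- Boundary terms. -/
def ee (n : ℕ) : ℝ := if n = 0 then -1 else if n = 1 then -2 else 0

/-- The moments. -/
def ct (n : ℕ) : ℝ :=
  ee n + ∫ σ in Ioi (0 : ℝ), om σ * (Real.tanh σ) ^ (2 * n) / Real.cosh σ

/-- The function `g*` of the problem (series, terms grouped in pairs). -/
def gstar (z : ℂ) : ℂ := 2 * z * ∑' i : ℕ, (1 / (z - (2 * i : ℕ)) - 1 / (z - (2 * i + 1 : ℕ)))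

/-! ### Statements -/

/-- `K` is holomorphic on `Re s > -1` and commutes with conjugation. -/
def S_KD : Prop := DifferentiableOn ℂ K {s : ℂ | -1 < s.re} ∧
  ∀ s : ℂ, -1 < s.re → K ((starRingEnd ℂ) s) = (starRingEnd ℂ) (K s)

/-- `K` has no zeros in the closed right half plane. -/
def S_KNZ : Prop := ∀ s : ℂ, 0 ≤ s.re → K s ≠ 0

/-- Asymptotic expansion of `K`. -/
def S_KASY : Prop := ∃ C : ℝ, ∀ s : ℂ, 0 ≤ s.re → s ≠ 0 →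
  ‖K s - 1 / s + 1 / s ^ 3‖ ≤ C / ‖s‖ ^ 5

/-- Functional equation. -/
def S_FE : Prop := ∀ u : ℂ, -1 < u.re → u.re < 1 → Complex.cos (Real.pi * u / 2) ≠ 0 ∧
  K u + K (-u) = (Real.pi : ℂ) / Complex.cos (Real.pi * u / 2)

/-- Link with `gstar`. -/
def S_GS : Prop := ∀ z : ℂ, -1 < z.re → (∀ n : ℕ, z ≠ n) →
  gstar z * Complex.sin (Real.pi * z) = 2 * z * D (2 * z + 1)

/-- No zeros of `D` in `0 ≤ Re u ≤ 2`. -/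
def S_ZA : Prop := ∀ u : ℂ, 0 ≤ u.re → u.re ≤ 2 → D u ≠ 0

/-- The zeros of `D` in `2 ≤ Re u ≤ 4`. -/
def S_ZB : Prop := ∃ a : ℂ, 3 < a.re ∧ a.re < 4 ∧ 0 < a.im ∧ D a = 0 ∧ deriv D a ≠ 0 ∧
  ∀ u : ℂ, 2 ≤ u.re → u.re ≤ 4 → D u = 0 → u = a ∨ u = (starRingEnd ℂ) a

/-- Bound of `G` in the strip, far from the real axis. -/
def S_GB : Prop := ∃ C T : ℝ, ∀ u : ℂ, 0 ≤ u.re → u.re ≤ 4 → T ≤ |u.im| →
  D u ≠ 0 ∧ ‖G u‖ ≤ C / (1 + u.im ^ 2)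

/-- Shift of a line integral. -/
def S_SHIFT : Prop := ∀ (H : ℂ → ℂ) (C : ℝ),
  (∀ u : ℂ, 0 ≤ u.re → u.re ≤ 4 → DifferentiableAt ℂ H u) →
  (∀ u : ℂ, 0 ≤ u.re → u.re ≤ 4 → ‖H u‖ ≤ C / (1 + u.im ^ 2)) →
  ∀ σ : ℝ, 0 ≤ σ →
    ∫ ξ : ℝ, H (ξ * Complex.I) * Complex.exp (-(ξ * Complex.I * σ)) =
    ∫ ξ : ℝ, H (4 + ξ * Complex.I) * Complex.exp (-((4 + ξ * Complex.I) * σ))

/-- Fourier transform of the two sided exponential with complex rate. -/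
def S_FTE : Prop := ∀ a : ℂ, 0 < a.re → ∀ σ : ℝ, 0 ≤ σ →
  Integrable (fun ξ : ℝ => 2 * a / (a ^ 2 + (ξ : ℂ) ^ 2)) ∧
  ∫ ξ : ℝ, 2 * a / (a ^ 2 + (ξ : ℂ) ^ 2) * Complex.exp (-(ξ * Complex.I * σ)) =
    2 * Real.pi * Complex.exp (-(a * σ))

/-- Facts about `G` on the imaginary axis. -/
def S_GI : Prop :=
  (∀ ξ : ℝ, K (-((ξ : ℂ) * Complex.I)) = (starRingEnd ℂ) (K ((ξ : ℂ) * Complex.I))) ∧
  (∀ ξ : ℝ, G ((ξ : ℂ) * Complex.I) =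
    1 / (K ((ξ : ℂ) * Complex.I) * K (-((ξ : ℂ) * Complex.I))) - (ξ : ℂ) ^ 2 + 2) ∧
  (∀ ξ : ℝ, (G ((ξ : ℂ) * Complex.I)).im = 0) ∧
  (∀ ξ : ℝ, G (-((ξ : ℂ) * Complex.I)) = G ((ξ : ℂ) * Complex.I)) ∧
  Continuous (fun ξ : ℝ => (G ((ξ : ℂ) * Complex.I)).re) ∧
  Integrable (fun ξ : ℝ => (G ((ξ : ℂ) * Complex.I)).re)

/-- Asymptotics of `om`. -/
def S_OM : Prop := Continuous om ∧ (∀ σ, om (-σ) = om σ) ∧
  ∃ a r : ℂ, 3 < a.re ∧ a.re < 4 ∧ 0 < a.im ∧ D a = 0 ∧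
    (∀ u : ℂ, 0 ≤ u.re → u.re ≤ 4 → D u = 0 → u = a ∨ u = (starRingEnd ℂ) a) ∧ r ≠ 0 ∧
    ∃ C : ℝ, ∀ σ : ℝ, 0 ≤ σ →
      |om σ - 4 * (r * Complex.exp (-(a * σ))).re| ≤ C * Real.exp (-(4 * σ))

/-- `psi` and its Fourier transform. -/
def S_PSI : Prop := Continuous psi ∧ Integrable psi ∧ (∀ p, psi (-p) = psi p) ∧
  ∀ ξ : ℝ, ∫ p : ℝ, psi p * Real.cos (ξ * p) = 2 * (1 / K ((ξ : ℂ) * Complex.I)).re

/-- Uniqueness in the right half plane. -/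
def S_PL : Prop := ∀ (E : ℂ → ℂ) (B : ℝ), DiffContOnCl ℂ E {z : ℂ | 0 < z.re} →
  (∀ z : ℂ, 0 ≤ z.re → ‖E z‖ ≤ B) → (∀ ξ : ℝ, (E ((ξ : ℂ) * Complex.I)).re = 0) →
  Tendsto (fun x : ℝ => E x) atTop (𝓝 0) → ∀ z : ℂ, 0 ≤ z.re → E z = 0

/-- The Volterra equation. -/
def S_VOLT : Prop := ∀ f : ℝ → ℝ, Continuous f → Integrable f → (∀ p, f (-p) = f p) →
  (∀ ξ : ℝ, ∫ p : ℝ, f p * Real.cos (ξ * p) = 2 * (1 / K ((ξ : ℂ) * Complex.I)).re) →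
  ∀ q : ℝ, 0 ≤ q → ∫ p in (0 : ℝ)..q, f p / Real.cosh (q - p) = Real.tanh q / Real.cosh q

/-- From the Volterra equation to the recursion. -/
def S_REC : Prop := ∀ w : ℝ → ℝ, Continuous w → (∃ C, ∀ σ, |w σ| ≤ C) →
  (∀ σ, w (-σ) = w σ) →
  (∀ q : ℝ, 0 ≤ q → ∫ p in (0 : ℝ)..q,
      (-3 / Real.cosh p + 2 / Real.cosh p ^ 3 + (1 / 2) * ∫ σ : ℝ, w σ / Real.cosh (p - σ)) /
        Real.cosh (q - p) = Real.tanh q / Real.cosh q) →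
  ∀ N : ℕ, ∑ k ∈ Finset.range (N + 1),
    (ee k + ∫ σ in Ioi (0 : ℝ), w σ * (Real.tanh σ) ^ (2 * k) / Real.cosh σ) / (N + k + 1 : ℝ)
      = if N = 0 then 1 else 0

/-- Asymptotics of the basic integrals. -/
def S_IN : Prop := ∀ ρ : ℂ, 0 < ρ.re → ∃ C : ℝ, ∀ n : ℕ, 1 ≤ n →
  ‖(∫ σ in Ioi (0 : ℝ), ((Real.tanh σ) ^ (2 * n) / Real.cosh σ : ℝ) *
      Complex.exp (-((2 * ρ + 1) * σ))) - Complex.Gamma (ρ + 1) * (4 * n : ℂ) ^ (-(ρ + 1))‖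
    ≤ C * (n : ℝ) ^ (-(ρ.re + 2))

/-- Upper bound of the remainder integral. -/
def S_IE : Prop := ∃ C : ℝ, ∀ n : ℕ, 1 ≤ n →
  (∫ σ in Ioi (0 : ℝ), (Real.tanh σ) ^ (2 * n) / Real.cosh σ * Real.exp (-(4 * σ)))
    ≤ C * (n : ℝ) ^ (-(5 / 2 : ℝ))

end

end Pool.Agent.R979.OC
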