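import Pool.Agent.R979.OC.Stm

/-!
# OC-VOLT: the Volterra equation
-/

namespace Pool.Agent.R979.OC

open MeasureTheory Set Filter Topology FourierTransform

noncomputable section

/-- Laplace transform on the positive half line. -/
def Lp (f : ℝ → ℝ) (s : ℂ) : ℂ := ∫ p in Ioi (0 : ℝ), (f p : ℂ) * Complex.exp (-(s * p))

theorem norm_exp_neg (s : ℂ) (p : ℝ) : ‖Complex.exp (-(s * p))‖ = Real.exp (-(s.re * p)) := by
  rw [Complex.norm_exp]
  simp

theorem norm_exp_neg_le (s : ℂ) (hs : 0 ≤ s.re) (p : ℝ) (hp : 0 < p) :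
    ‖Complex.exp (-(s * p))‖ ≤ 1 := by
  rw [norm_exp_neg, Real.exp_le_one_iff]
  have := mul_nonneg hs hp.le
  linarith

theorem Lp_norm_le (f : ℝ → ℝ) (hf : Integrable f) (s : ℂ) (hs : 0 ≤ s.re) :
    ‖Lp f s‖ ≤ ∫ p in Ioi (0 : ℝ), |f p| := by
  refine norm_integral_le_of_norm_le hf.abs.integrableOn ?_
  refine (ae_restrict_iff' measurableSet_Ioi).mpr (Eventually.of_forall fun p hp => ?_)
  rw [norm_mul, Complex.norm_real, Real.norm_eq_abs]
  calc |f p| * ‖Complex.exp (-(s * p))‖ ≤ |f p| * 1 := by
        gcongr; exact norm_exp_neg_le s hs p hp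
    _ = |f p| := mul_one _

theorem Lp_meas (f : ℝ → ℝ) (hf : Continuous f) (s : ℂ) :
    AEStronglyMeasurable (fun p : ℝ => (f p : ℂ) * Complex.exp (-(s * p)))
      (volume.restrict (Ioi 0)) := by
  have : Continuous (fun p : ℝ => (f p : ℂ) * Complex.exp (-(s * p))) := by fun_prop
  exact this.aestronglyMeasurable

theorem Lp_cont (f : ℝ → ℝ) (hf : Continuous f) (hfi : Integrable f) :
    ContinuousOn (Lp f) {s : ℂ | 0 ≤ s.re} := by
  refine continuousOn_of_dominated (bound := fun p => |f p|) (fun s _ => Lp_meas f hf s) ?_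
    hfi.abs.integrableOn ?_
  · intro s hs
    refine (ae_restrict_iff' measurableSet_Ioi).mpr (Eventually.of_forall fun p hp => ?_)
    rw [norm_mul, Complex.norm_real, Real.norm_eq_abs]
    calc |f p| * ‖Complex.exp (-(s * p))‖ ≤ |f p| * 1 := by
          gcongr; exact norm_exp_neg_le s hs p hp
      _ = |f p| := mul_one _
  · refine Eventually.of_forall fun p => ?_
    have : Continuous (fun s : ℂ => (f p : ℂ) * Complex.exp (-(s * p))) := by fun_prop
    exact this.continuousOn

theorem Lp_diff (f : ℝ → ℝ) (hf : Continuous f) (hfi : Integrable f) :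
    DifferentiableOn ℂ (Lp f) {s : ℂ | 0 < s.re} := by
  intro s₀ hs₀
  have hs₀' : 0 < s₀.re := hs₀
  set ε := s₀.re / 2 with hε
  have hε0 : 0 < ε := by positivity
  have hball : Metric.ball s₀ ε ∈ 𝓝 s₀ := Metric.ball_mem_nhds _ hε0
  have hre : ∀ s ∈ Metric.ball s₀ ε, ε ≤ s.re := by
    intro s hs
    rw [mem_ball_iff_norm] at hs
    have h1 : |(s - s₀).re| ≤ ‖s - s₀‖ := Complex.abs_re_le_norm _
    have h2 := neg_le_of_abs_le h1
    rw [Complex.sub_re] at h2
    linarith
  have key := hasDerivAt_integral_of_dominated_loc_of_deriv_le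
    (μ := volume.restrict (Ioi (0 : ℝ)))
    (F := fun (s : ℂ) (p : ℝ) => (f p : ℂ) * Complex.exp (-(s * p)))
    (F' := fun (s : ℂ) (p : ℝ) => (f p : ℂ) * (Complex.exp (-(s * p)) * (-(p : ℂ))))
    (x₀ := s₀) (s := Metric.ball s₀ ε) (bound := fun p => |f p| * (1 / ε)) hball
    (Eventually.of_forall fun s => Lp_meas f hf s)
    (by
      refine Integrable.mono' hfi.abs.integrableOn (Lp_meas f hf s₀) ?_
      refine (ae_restrict_iff' measurableSet_Ioi).mpr (Eventually.of_forall fun p hp => ?_)
      rw [norm_mul, Complex.norm_real, Real.norm_eq_abs]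
      calc |f p| * ‖Complex.exp (-(s₀ * p))‖ ≤ |f p| * 1 := by
            gcongr; exact norm_exp_neg_le s₀ hs₀'.le p hp
        _ = |f p| := mul_one _)
    (by
      have : Continuous (fun p : ℝ => (f p : ℂ) * (Complex.exp (-(s₀ * p)) * (-(p : ℂ)))) := by
        fun_prop
      exact this.aestronglyMeasurable)
    (by
      refine (ae_restrict_iff' measurableSet_Ioi).mpr (Eventually.of_forall fun p hp s hs => ?_)
      have hp' : (0 : ℝ) < p := hp
      rw [norm_mul, norm_mul, norm_neg, Complex.norm_real, Complex.norm_real, Real.norm_eq_abs,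
        Real.norm_eq_abs, abs_of_pos hp', norm_exp_neg]
      refine mul_le_mul_of_nonneg_left ?_ (abs_nonneg _)
      have h1 : ε * p ≤ s.re * p := mul_le_mul_of_nonneg_right (hre s hs) hp'.le
      have h2 : Real.exp (-(s.re * p)) ≤ Real.exp (-(ε * p)) := Real.exp_le_exp.mpr (by linarith)
      have h3 : ε * p ≤ Real.exp (ε * p) := by
        have := Real.add_one_le_exp (ε * p); linarith
      have h4 : Real.exp (-(ε * p)) * p ≤ 1 / ε := by
        rw [Real.exp_neg, le_div_iff₀ hε0]
        have hpos := Real.exp_pos (ε * p)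
        rw [mul_assoc, inv_mul_le_iff₀ hpos]
        linarith
      calc Real.exp (-(s.re * p)) * p ≤ Real.exp (-(ε * p)) * p := by gcongr
        _ ≤ 1 / ε := h4)
    (hfi.abs.integrableOn.mul_const _)
    (by
      refine Eventually.of_forall fun p s _ => ?_
      have h1 : HasDerivAt (fun s : ℂ => -(s * (p : ℂ))) (-(p : ℂ)) s := by
        have := ((hasDerivAt_id' s).mul_const (p : ℂ)).fun_neg
        simpa using this
      exact (h1.cexp).const_mul _)
  exact key.2.differentiableAt.differentiableWithinAt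

theorem Lp_tendsto (f : ℝ → ℝ) (hf : Continuous f) (hfi : Integrable f) :
    Tendsto (fun x : ℝ => Lp f x) atTop (𝓝 0) := by
  have h0 : (0 : ℂ) = ∫ p in Ioi (0 : ℝ), (0 : ℂ) := by simp
  rw [h0]
  refine tendsto_integral_filter_of_dominated_convergence (fun p => |f p|)
    (Eventually.of_forall fun x => Lp_meas f hf x) ?_ hfi.abs.integrableOn ?_
  · filter_upwards [eventually_ge_atTop 0] with x hx
    refine (ae_restrict_iff' measurableSet_Ioi).mpr (Eventually.of_forall fun p hp => ?_)
    rw [norm_mul, Complex.norm_real, Real.norm_eq_abs]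
    calc |f p| * ‖Complex.exp (-((x : ℂ) * p))‖ ≤ |f p| * 1 := by
          gcongr; exact norm_exp_neg_le x (by simpa using hx) p hp
      _ = |f p| := mul_one _
  · refine (ae_restrict_iff' measurableSet_Ioi).mpr (Eventually.of_forall fun p hp => ?_)
    have hp' : (0 : ℝ) < p := hp
    rw [tendsto_zero_iff_norm_tendsto_zero]
    have h1 : Tendsto (fun x : ℝ => |f p| * Real.exp (-(x * p))) atTop (𝓝 (|f p| * 0)) := by
      refine Tendsto.const_mul _ ?_
      refine Real.tendsto_exp_atBot.comp ?_
      refine tendsto_neg_atTop_atBot.comp ?_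
      exact tendsto_id.atTop_mul_const hp'
    rw [mul_zero] at h1
    refine h1.congr fun x => ?_
    rw [norm_mul, Complex.norm_real, Real.norm_eq_abs, norm_exp_neg]
    simp

/-- Bound of `1/K s - s`. -/
theorem invK_bound (hN : S_KNZ) (hA : S_KASY) : ∃ C R : ℝ, 1 ≤ R ∧ ∀ s : ℂ, 0 ≤ s.re →
    R ≤ ‖s‖ → ‖1 / K s - s‖ ≤ C / ‖s‖ := by
  obtain ⟨C0, hC0⟩ := hA
  set C := |C0| with hCdef
  have hC : 0 ≤ C := abs_nonneg _
  refine ⟨2 * (1 + C), 2 + 2 * C, by linarith, fun s hs hR => ?_⟩
  have hn : 0 < ‖s‖ := by linarith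
  have hs0 : s ≠ 0 := norm_pos_iff.mp hn
  have hK := hN s hs
  set e := K s - 1 / s + 1 / s ^ 3 with he
  have heb : ‖e‖ ≤ C / ‖s‖ ^ 5 := by
    refine (hC0 s hs hs0).trans ?_
    gcongr
    exact le_abs_self _
  set x := ‖s‖ with hx
  have hx2 : 2 + 2 * C ≤ x := hR
  have hx1 : 1 ≤ x := by linarith
  -- 1 - s K = 1/s^2 - s e
  have h1 : 1 - s * K s = 1 / s ^ 2 - s * e := by
    rw [he]; field_simp; ring
  have h2 : ‖1 - s * K s‖ ≤ (1 + C) / x ^ 2 := by
    rw [h1]
    refine (norm_sub_le _ _).trans ?_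
    have e1 : ‖(1 : ℂ) / s ^ 2‖ = 1 / x ^ 2 := by rw [norm_div, norm_pow, norm_one]
    have e2 : ‖s * e‖ ≤ C / x ^ 2 := by
      rw [norm_mul]
      calc x * ‖e‖ ≤ x * (C / x ^ 5) := by gcongr
        _ = C / x ^ 4 := by field_simp
        _ ≤ C / x ^ 2 := by
          gcongr
          · norm_num
    rw [e1]
    calc 1 / x ^ 2 + ‖s * e‖ ≤ 1 / x ^ 2 + C / x ^ 2 := by gcongr
      _ = _ := by ring
  -- lower bound for K
  have h3 : 1 / 2 ≤ ‖s * K s‖ := by
    have h4 : ‖(1 : ℂ)‖ - ‖1 - s * K s‖ ≤ ‖s * K s‖ := by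
      have := norm_sub_norm_le (1 : ℂ) (1 - s * K s)
      have h5 : (1 : ℂ) - (1 - s * K s) = s * K s := by ring
      rwa [h5] at this
    have h6 : (1 + C) / x ^ 2 ≤ 1 / 2 := by
      rw [div_le_iff₀ (by positivity)]
      nlinarith
    rw [norm_one] at h4
    linarith
  have h7 : 1 / K s - s = (1 - s * K s) / K s := by
    field_simp
  have hKpos : 0 < ‖K s‖ := norm_pos_iff.mpr hK
  rw [h7, norm_div, div_le_div_iff₀ hKpos hn]
  rw [norm_mul] at h3
  have h8 : ‖1 - s * K s‖ * x ≤ (1 + C) / x := by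
    calc ‖1 - s * K s‖ * x ≤ (1 + C) / x ^ 2 * x := by gcongr
      _ = (1 + C) / x := by field_simp
  have h9 : (1 + C) / x ≤ 2 * (1 + C) * ‖K s‖ := by
    rw [div_le_iff₀ hn]
    have : 1 / 2 ≤ x * ‖K s‖ := h3
    nlinarith
  linarith

/-- The boundary identity. -/
theorem Lp_eq (hPL : S_PL) (hK : S_KD) (hN : S_KNZ) (hA : S_KASY) (f : ℝ → ℝ)
    (hf : Continuous f) (hfi : Integrable f) (hev : ∀ p, f (-p) = f p)
    (hft : ∀ ξ : ℝ, ∫ p : ℝ, f p * Real.cos (ξ * p) = 2 * (1 / K ((ξ : ℂ) * Complex.I)).re) :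
    ∀ s : ℂ, 0 ≤ s.re → Lp f s = 1 / K s - s := by
  obtain ⟨C, R, hR1, hCR⟩ := invK_bound hN hA
  have hKc : ContinuousOn K {s : ℂ | 0 ≤ s.re} :=
    hK.1.continuousOn.mono (fun s (hs : 0 ≤ s.re) => by
      show -1 < s.re
      linarith)
  have hqc : ContinuousOn (fun s : ℂ => 1 / K s - s) {s : ℂ | 0 ≤ s.re} :=
    (continuousOn_const.div hKc fun s hs => hN s hs).sub continuousOn_id
  have hqd : DifferentiableOn ℂ (fun s : ℂ => 1 / K s - s) {s : ℂ | 0 < s.re} := by
    have h1 : DifferentiableOn ℂ K {s : ℂ | 0 < s.re} := hK.1.mono (fun s (hs : 0 < s.re) => by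
      show -1 < s.re
      linarith)
    exact ((differentiableOn_const _).div h1 fun s (hs : 0 < s.re) => hN s hs.le).sub
      differentiableOn_id
  -- compact part
  obtain ⟨C1, hC1⟩ : ∃ C1, ∀ s ∈ {s : ℂ | 0 ≤ s.re} ∩ Metric.closedBall 0 R,
      ‖1 / K s - s‖ ≤ C1 := by
    have hcomp : IsCompact ({s : ℂ | 0 ≤ s.re} ∩ Metric.closedBall 0 R) := by
      refine (isCompact_closedBall 0 R).inter_left ?_
      exact isClosed_le continuous_const Complex.continuous_re
    exact hcomp.exists_bound_of_continuousOn (hqc.mono inter_subset_left)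
  have hqb : ∀ s : ℂ, 0 ≤ s.re → ‖1 / K s - s‖ ≤ max C1 |C| := by
    intro s hs
    rcases le_total ‖s‖ R with h | h
    · exact (hC1 s ⟨hs, by simpa using h⟩).trans (le_max_left _ _)
    · refine (hCR s hs h).trans (le_trans ?_ (le_max_right _ _))
      have hn : 1 ≤ ‖s‖ := hR1.trans h
      rw [div_le_iff₀ (by linarith)]
      have h1 := le_abs_self C
      have h2 := abs_nonneg C
      nlinarith
  have hE := hPL (fun s => Lp f s - (1 / K s - s))
    ((∫ p in Ioi (0 : ℝ), |f p|) + max C1 |C|)
    ⟨(Lp_diff f hf hfi).sub hqd, by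
      rw [Complex.closure_setOfPred_lt_re]
      exact (Lp_cont f hf hfi).sub hqc⟩
    (fun z hz => (norm_sub_le _ _).trans (add_le_add (Lp_norm_le f hfi z hz) (hqb z hz)))
    (fun ξ => ?_) ?_
  · intro s hs
    exact sub_eq_zero.mp (hE s hs)
  · -- real part on the imaginary axis
    have h1 : (Lp f ((ξ : ℂ) * Complex.I)).re = ∫ p in Ioi (0 : ℝ), f p * Real.cos (ξ * p) := by
      unfold Lp
      have hint : IntegrableOn (fun p : ℝ => (f p : ℂ) *
          Complex.exp (-((ξ : ℂ) * Complex.I * p))) (Ioi 0) := by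
        refine Integrable.mono' hfi.abs.integrableOn (Lp_meas f hf _) ?_
        refine (ae_restrict_iff' measurableSet_Ioi).mpr (Eventually.of_forall fun p hp => ?_)
        rw [norm_mul, Complex.norm_real, Real.norm_eq_abs]
        calc |f p| * ‖Complex.exp (-((ξ : ℂ) * Complex.I * p))‖ ≤ |f p| * 1 := by
              gcongr
              exact norm_exp_neg_le _ (by simp) p hp
          _ = |f p| := mul_one _
      have := Complex.reCLM.integral_comp_comm hint
      simp only [Complex.reCLM_apply] at this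
      rw [← this]
      refine integral_congr_ae (Eventually.of_forall fun p => ?_)
      simp only
      rw [Complex.re_ofReal_mul]
      congr 1
      have h2 : -((ξ : ℂ) * Complex.I * p) = ((-(ξ * p) : ℝ) : ℂ) * Complex.I := by
        push_cast; ring
      rw [h2, Complex.exp_ofReal_mul_I_re, Real.cos_neg]
    have h2 : ∫ p : ℝ, f p * Real.cos (ξ * p) = 2 * ∫ p in Ioi (0 : ℝ), f p * Real.cos (ξ * p) := by
      rw [← integral_comp_abs (f := fun p => f p * Real.cos (ξ * p))]
      refine integral_congr_ae (Eventually.of_forall fun p => ?_)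
      simp only
      rcases abs_choice p with h | h
      · rw [h]
      · rw [h, hev, mul_neg, Real.cos_neg]
    have h3 := hft ξ
    rw [h2] at h3
    rw [Complex.sub_re, Complex.sub_re, h1]
    have h4 : ((ξ : ℂ) * Complex.I).re = 0 := by simp
    rw [h4]
    linarith
  · -- limit along the real axis
    have h1 := Lp_tendsto f hf hfi
    have h2 : Tendsto (fun x : ℝ => 1 / K (x : ℂ) - (x : ℂ)) atTop (𝓝 0) := by
      rw [tendsto_zero_iff_norm_tendsto_zero]
      refine squeeze_zero' (g := fun x : ℝ => |C| / x)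
        (Eventually.of_forall fun x => norm_nonneg _) ?_ ?_
      · filter_upwards [eventually_ge_atTop R] with x hx
        have hx0 : 0 < x := by linarith
        have hxn : ‖(x : ℂ)‖ = x := by
          rw [Complex.norm_real, Real.norm_eq_abs, abs_of_pos hx0]
        have h5 := hCR (x : ℂ) (by simpa using hx0.le) (by rw [hxn]; exact hx)
        rw [hxn] at h5
        refine h5.trans ?_
        gcongr
        exact le_abs_self C
      · exact tendsto_const_nhds.div_atTop tendsto_id
    have := h1.sub h2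
    simpa using this

/-- `K` as an integral over the positive half line with the exponential on the right. -/
theorem K_eq (s : ℂ) : K s = Lp (fun p => 1 / Real.cosh p) s := by
  unfold K Lp
  refine integral_congr_ae (Eventually.of_forall fun p => ?_)
  simp only
  push_cast
  ring

theorem sech_le (p : ℝ) : 1 / Real.cosh p ≤ 2 * Real.exp (-|p|) := by
  have h := Real.cosh_pos p
  rw [div_le_iff₀ h, Real.exp_neg]
  have h1 : Real.exp |p| ≤ 2 * Real.cosh p := by
    rw [← Real.cosh_abs p, Real.cosh_eq]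
    have := Real.exp_pos (-|p|)
    linarith
  have h2 := Real.exp_pos |p|
  have h3 : 2 * (Real.exp |p|)⁻¹ * Real.cosh p = (2 * Real.cosh p) / Real.exp |p| := by
    rw [div_eq_mul_inv]; ring
  rw [h3, le_div_iff₀ h2]
  linarith

theorem sech_int : IntegrableOn (fun p : ℝ => 1 / Real.cosh p) (Ioi 0) := by
  have hc : Continuous fun p : ℝ => 1 / Real.cosh p :=
    continuous_const.div Real.continuous_cosh fun p => (Real.cosh_pos p).ne'
  have h1 : IntegrableOn (fun p : ℝ => 2 * Real.exp (-p)) (Ioi 0) :=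
    (integrableOn_exp_neg_Ioi 0).const_mul 2
  refine Integrable.mono' h1 hc.aestronglyMeasurable ?_
  refine (ae_restrict_iff' measurableSet_Ioi).mpr (Eventually.of_forall fun p hp => ?_)
  have hp' : (0 : ℝ) < p := hp
  have := sech_le p
  rw [abs_of_pos hp'] at this
  rw [Real.norm_eq_abs, abs_of_pos (by have := Real.cosh_pos p; positivity)]
  exact this

theorem sech_cont : Continuous fun p : ℝ => 1 / Real.cosh p :=
  continuous_const.div Real.continuous_cosh fun p => (Real.cosh_pos p).ne'

theorem tanh_cont : Continuous Real.tanh := by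
  have : Real.tanh = fun x => Real.sinh x / Real.cosh x := by
    funext x; exact Real.tanh_eq_sinh_div_cosh x
  rw [this]
  exact Real.continuous_sinh.div Real.continuous_cosh fun p => (Real.cosh_pos p).ne'

theorem ts_int : IntegrableOn (fun p : ℝ => Real.tanh p / Real.cosh p) (Ioi 0) := by
  refine Integrable.mono' sech_int
    (tanh_cont.div Real.continuous_cosh fun p => (Real.cosh_pos p).ne').aestronglyMeasurable ?_
  refine Eventually.of_forall fun p => ?_
  rw [norm_div, Real.norm_eq_abs, Real.norm_eq_abs, abs_of_pos (Real.cosh_pos p)]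
  have h := Real.cosh_pos p
  gcongr
  exact (Real.abs_tanh_lt_one p).le

/-- Integration by parts. -/
theorem ts_Lp (s : ℂ) (hs : 0 ≤ s.re) :
    Lp (fun p => Real.tanh p / Real.cosh p) s = 1 - s * K s := by
  have hder : ∀ x : ℝ, HasDerivAt (fun x : ℝ => ((1 / Real.cosh x : ℝ) : ℂ) *
      Complex.exp (-(s * x)))
      (-((Real.tanh x / Real.cosh x : ℝ) : ℂ) * Complex.exp (-(s * x)) -
        s * (((1 / Real.cosh x : ℝ) : ℂ) * Complex.exp (-(s * x)))) x := by
    intro x
    have hcx := Real.cosh_pos x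
    have h1 : HasDerivAt (fun x : ℝ => 1 / Real.cosh x) (-(Real.tanh x / Real.cosh x)) x := by
      have := (hasDerivAt_const x (1 : ℝ)).fun_div (Real.hasDerivAt_cosh x) hcx.ne'
      refine this.congr_deriv ?_
      rw [Real.tanh_eq_sinh_div_cosh]
      field_simp
      ring
    have h2 : HasDerivAt (fun x : ℝ => Complex.exp (-(s * x)))
        (Complex.exp (-(s * x)) * (-s)) x := by
      have h3 : HasDerivAt (fun x : ℝ => -(s * (x : ℂ))) (-s) x := by
        have := ((Complex.ofRealCLM.hasDerivAt (x := x)).const_mul s).fun_neg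
        simpa using this
      exact h3.cexp
    refine (h1.ofReal_comp.mul h2).congr_deriv ?_
    push_cast
    ring
  have hint1 : IntegrableOn (fun x : ℝ => ((Real.tanh x / Real.cosh x : ℝ) : ℂ) *
      Complex.exp (-(s * x))) (Ioi 0) := by
    refine Integrable.mono' ts_int.abs ?_ ?_
    · have h0 : Continuous fun p : ℝ => Real.tanh p / Real.cosh p :=
        tanh_cont.div Real.continuous_cosh fun p => (Real.cosh_pos p).ne'
      exact Lp_meas _ h0 s
    · refine (ae_restrict_iff' measurableSet_Ioi).mpr (Eventually.of_forall fun p hp => ?_)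
      rw [norm_mul, Complex.norm_real, Real.norm_eq_abs]
      calc |Real.tanh p / Real.cosh p| * ‖Complex.exp (-(s * p))‖
          ≤ |Real.tanh p / Real.cosh p| * 1 := by
            gcongr; exact norm_exp_neg_le s hs p hp
        _ = _ := mul_one _
  have hint2 : IntegrableOn (fun x : ℝ => ((1 / Real.cosh x : ℝ) : ℂ) *
      Complex.exp (-(s * x))) (Ioi 0) := by
    refine Integrable.mono' sech_int.abs (Lp_meas _ sech_cont s) ?_
    refine (ae_restrict_iff' measurableSet_Ioi).mpr (Eventually.of_forall fun p hp => ?_)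
    rw [norm_mul, Complex.norm_real, Real.norm_eq_abs]
    calc |1 / Real.cosh p| * ‖Complex.exp (-(s * p))‖
        ≤ |1 / Real.cosh p| * 1 := by
          gcongr; exact norm_exp_neg_le s hs p hp
      _ = _ := mul_one _
  have hlim : Tendsto (fun x : ℝ => ((1 / Real.cosh x : ℝ) : ℂ) * Complex.exp (-(s * x)))
      atTop (𝓝 0) := by
    rw [tendsto_zero_iff_norm_tendsto_zero]
    refine squeeze_zero' (g := fun x : ℝ => 2 * Real.exp (-x))
      (Eventually.of_forall fun x => norm_nonneg _) ?_ ?_
    · filter_upwards [eventually_gt_atTop 0] with x hx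
      rw [norm_mul, Complex.norm_real, Real.norm_eq_abs]
      have h1 := norm_exp_neg_le s hs x hx
      have h2 := sech_le x
      rw [abs_of_pos hx] at h2
      have h3 : 0 < 1 / Real.cosh x := by have := Real.cosh_pos x; positivity
      rw [abs_of_pos h3]
      calc 1 / Real.cosh x * ‖Complex.exp (-(s * x))‖ ≤ 1 / Real.cosh x * 1 := by gcongr
        _ ≤ _ := by rw [mul_one]; exact h2
    · have := (Real.tendsto_exp_neg_atTop_nhds_zero).const_mul 2
      simpa using this
  have hFTC := integral_Ioi_of_hasDerivAt_of_tendsto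
    (hder 0).continuousAt.continuousWithinAt (fun x _ => hder x)
    (by
      have := (hint1.neg).sub (hint2.const_mul s)
      refine this.congr (Eventually.of_forall fun x => ?_)
      simp) hlim
  have hsplit : ∫ x in Ioi (0 : ℝ), (-((Real.tanh x / Real.cosh x : ℝ) : ℂ) *
        Complex.exp (-(s * x)) - s * (((1 / Real.cosh x : ℝ) : ℂ) * Complex.exp (-(s * x)))) =
      - Lp (fun p => Real.tanh p / Real.cosh p) s - s * K s := by
    have e1 : ∫ x in Ioi (0 : ℝ), (-((Real.tanh x / Real.cosh x : ℝ) : ℂ) *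
        Complex.exp (-(s * x)) - s * (((1 / Real.cosh x : ℝ) : ℂ) * Complex.exp (-(s * x)))) =
        (∫ x in Ioi (0 : ℝ), -(((Real.tanh x / Real.cosh x : ℝ) : ℂ) *
        Complex.exp (-(s * x)))) - ∫ x in Ioi (0 : ℝ), s * (((1 / Real.cosh x : ℝ) : ℂ) *
          Complex.exp (-(s * x))) := by
      rw [← integral_sub]
      · refine integral_congr_ae (Eventually.of_forall fun x => ?_)
        simp
      · exact hint1.neg
      · exact hint2.const_mul s
    rw [e1, integral_neg, integral_const_mul, K_eq]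
    rfl
  rw [hsplit] at hFTC
  simp at hFTC
  linear_combination -hFTC

theorem t_VOLT (hPL : S_PL) (hK : S_KD) (hN : S_KNZ) (hA : S_KASY) : S_VOLT := by
  intro f hf hfi hev hft
  have hLp := Lp_eq hPL hK hN hA f hf hfi hev hft
  -- the function
  set V : ℝ → ℝ := fun q => ∫ p in (0 : ℝ)..q, f p / Real.cosh (q - p) with hV
  have hVc : Continuous V := by
    refine intervalIntegral.continuous_parametric_intervalIntegral_of_continuous (a₀ := 0)
      (f := fun q p => f p / Real.cosh (q - p)) ?_ continuous_id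
    refine Continuous.div ?_ ?_ fun x => (Real.cosh_pos _).ne'
    · exact hf.comp continuous_snd
    · exact Real.continuous_cosh.comp (continuous_fst.sub continuous_snd)
  set W : ℝ → ℝ := fun q => V q - Real.tanh q / Real.cosh q with hW
  have hWc : Continuous W :=
    hVc.sub (tanh_cont.div Real.continuous_cosh fun p => (Real.cosh_pos p).ne')
  have hW0 : W 0 = 0 := by simp [hW, hV]
  -- forward convolution
  have hf1 : ∀ ξ : ℝ, IntegrableOn (fun t : ℝ => (f t : ℂ) *
      Complex.exp (-((ξ : ℂ) * Complex.I * t))) (Ioi 0) := by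
    intro ξ
    refine Integrable.mono' hfi.abs.integrableOn (Lp_meas f hf _) ?_
    refine (ae_restrict_iff' measurableSet_Ioi).mpr (Eventually.of_forall fun p hp => ?_)
    rw [norm_mul, Complex.norm_real, Real.norm_eq_abs]
    calc |f p| * ‖Complex.exp (-((ξ : ℂ) * Complex.I * p))‖ ≤ |f p| * 1 := by
          gcongr
          exact norm_exp_neg_le _ (by simp) p hp
      _ = |f p| := mul_one _
  have hg1 : ∀ ξ : ℝ, IntegrableOn (fun t : ℝ => ((1 / Real.cosh t : ℝ) : ℂ) *
      Complex.exp (-((ξ : ℂ) * Complex.I * t))) (Ioi 0) := by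
    intro ξ
    refine Integrable.mono' sech_int.abs (Lp_meas _ sech_cont _) ?_
    refine (ae_restrict_iff' measurableSet_Ioi).mpr (Eventually.of_forall fun p hp => ?_)
    rw [norm_mul, Complex.norm_real, Real.norm_eq_abs]
    calc |1 / Real.cosh p| * ‖Complex.exp (-((ξ : ℂ) * Complex.I * p))‖
        ≤ |1 / Real.cosh p| * 1 := by
          gcongr; exact norm_exp_neg_le _ (by simp) p hp
      _ = _ := mul_one _
  have hconv : ∀ (ξ x : ℝ), ∫ t in (0 : ℝ)..x, (ContinuousLinearMap.mul ℝ ℂ)
      ((f t : ℂ) * Complex.exp (-((ξ : ℂ) * Complex.I * t)))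
      (((1 / Real.cosh (x - t) : ℝ) : ℂ) * Complex.exp (-((ξ : ℂ) * Complex.I * ((x - t : ℝ) : ℂ))))
      = (V x : ℂ) * Complex.exp (-((ξ : ℂ) * Complex.I * x)) := by
    intro ξ x
    rw [hV]
    simp only [ContinuousLinearMap.mul_apply']
    rw [← intervalIntegral.integral_ofReal, ← intervalIntegral.integral_mul_const]
    refine intervalIntegral.integral_congr fun t _ => ?_
    have h1 : Complex.exp (-((ξ : ℂ) * Complex.I * t)) *
        Complex.exp (-((ξ : ℂ) * Complex.I * ((x - t : ℝ) : ℂ))) =
        Complex.exp (-((ξ : ℂ) * Complex.I * x)) := by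
      rw [← Complex.exp_add]
      congr 1
      push_cast
      ring
    rw [← h1]
    push_cast
    ring
  have hVtr : ∀ ξ : ℝ, ∫ x in Ioi (0 : ℝ), (V x : ℂ) * Complex.exp (-((ξ : ℂ) * Complex.I * x)) =
      Lp f ((ξ : ℂ) * Complex.I) * K ((ξ : ℂ) * Complex.I) := by
    intro ξ
    have := integral_posConvolution (μ := volume) (ν := volume) (hf1 ξ) (hg1 ξ)
      (ContinuousLinearMap.mul ℝ ℂ)
    rw [K_eq]
    unfold Lp
    simp only [ContinuousLinearMap.mul_apply'] at this hconv ⊢
    rw [← this]
    refine integral_congr_ae (Eventually.of_forall fun x => ?_)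
    exact (hconv ξ x).symm
  have hVint : IntegrableOn (fun x : ℝ => (V x : ℂ)) (Ioi 0) := by
    have h1 := integrable_posConvolution (μ := volume) (ν := volume) (hf1 0) (hg1 0)
      (ContinuousLinearMap.mul ℝ ℂ)
    unfold posConvolution at h1
    rw [integrable_indicator_iff measurableSet_Ioi] at h1
    refine h1.congr (Eventually.of_forall fun x => ?_)
    simp only
    rw [hconv 0 x]
    simp
  have hWint : IntegrableOn (fun x : ℝ => (W x : ℂ)) (Ioi 0) := by
    have := hVint.sub (ts_int.ofReal (𝕜 := ℂ))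
    refine this.congr (Eventually.of_forall fun x => ?_)
    simp [hW]
  -- the extension by zero
  set F : ℝ → ℂ := fun x => if 0 ≤ x then (W x : ℂ) else 0 with hF
  have hFc : Continuous F := by
    refine Continuous.if_le ?_ continuous_const continuous_const continuous_id ?_
    · exact Complex.continuous_ofReal.comp hWc
    · intro x hx
      have hx0 : (0 : ℝ) = x := hx
      rw [← hx0, hW0]; simp
  have hFi : Integrable F := by
    have h1 : F = indicator (Ioi (0 : ℝ)) (fun x => (W x : ℂ)) := by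
      funext x
      rw [hF]
      simp only [indicator, mem_Ioi]
      rcases lt_trichotomy x 0 with h | h | h
      · rw [if_neg (not_le.mpr h), if_neg (by linarith)]
      · rw [if_pos h.ge, if_neg (by linarith), h, hW0]; simp
      · rw [if_pos h.le, if_pos h]
    rw [h1, integrable_indicator_iff measurableSet_Ioi]
    exact hWint
  have hFtr : 𝓕 F = 0 := by
    funext w
    rw [Real.fourier_real_eq_integral_exp_smul]
    have h1 : ∀ x : ℝ, Complex.exp (((-2 * Real.pi * x * w : ℝ) : ℂ) * Complex.I) • F x =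
        indicator (Ioi (0 : ℝ)) (fun x : ℝ => (W x : ℂ) *
          Complex.exp (-(((2 * Real.pi * w : ℝ) : ℂ) * Complex.I * x))) x := by
      intro x
      rw [hF]
      simp only [indicator, mem_Ioi, smul_eq_mul]
      have h2 : Complex.exp (((-2 * Real.pi * x * w : ℝ) : ℂ) * Complex.I) =
          Complex.exp (-(((2 * Real.pi * w : ℝ) : ℂ) * Complex.I * x)) := by
        congr 1
        push_cast
        ring
      rw [h2]
      rcases lt_trichotomy x 0 with h | h | h
      · rw [if_neg (not_le.mpr h), if_neg (by linarith), mul_zero]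
      · rw [if_pos h.ge, if_neg (by linarith), h, hW0]; simp
      · rw [if_pos h.le, if_pos h, mul_comm]
    rw [show (∫ v : ℝ, Complex.exp (((-2 * Real.pi * v * w : ℝ) : ℂ) * Complex.I) • F v) =
      ∫ x : ℝ, indicator (Ioi (0 : ℝ)) (fun x : ℝ => (W x : ℂ) *
          Complex.exp (-(((2 * Real.pi * w : ℝ) : ℂ) * Complex.I * x))) x from
      integral_congr_ae (Eventually.of_forall h1), integral_indicator measurableSet_Ioi]
    set ξ : ℝ := 2 * Real.pi * w with hξ
    have hs0 : 0 ≤ ((ξ : ℂ) * Complex.I).re := by simp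
    have hVi : IntegrableOn (fun x : ℝ => (V x : ℂ) *
        Complex.exp (-((ξ : ℂ) * Complex.I * x))) (Ioi 0) := by
      refine Integrable.mono' hVint.norm
        ((Complex.continuous_ofReal.comp hVc).mul (by fun_prop)).aestronglyMeasurable ?_
      refine (ae_restrict_iff' measurableSet_Ioi).mpr (Eventually.of_forall fun p hp => ?_)
      rw [norm_mul]
      calc ‖(V p : ℂ)‖ * ‖Complex.exp (-((ξ : ℂ) * Complex.I * p))‖ ≤ ‖(V p : ℂ)‖ * 1 := by
            gcongr
            exact norm_exp_neg_le _ hs0 p hp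
        _ = _ := mul_one _
    have hTi : IntegrableOn (fun x : ℝ => ((Real.tanh x / Real.cosh x : ℝ) : ℂ) *
        Complex.exp (-((ξ : ℂ) * Complex.I * x))) (Ioi 0) := by
      refine Integrable.mono' ts_int.abs (Lp_meas _
        (tanh_cont.div Real.continuous_cosh fun p => (Real.cosh_pos p).ne') _) ?_
      refine (ae_restrict_iff' measurableSet_Ioi).mpr (Eventually.of_forall fun p hp => ?_)
      rw [norm_mul, Complex.norm_real, Real.norm_eq_abs]
      calc |Real.tanh p / Real.cosh p| * ‖Complex.exp (-((ξ : ℂ) * Complex.I * p))‖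
          ≤ |Real.tanh p / Real.cosh p| * 1 := by
            gcongr; exact norm_exp_neg_le _ hs0 p hp
        _ = _ := mul_one _
    have h3 : ∫ x in Ioi (0 : ℝ), (W x : ℂ) * Complex.exp (-((ξ : ℂ) * Complex.I * x)) =
        (∫ x in Ioi (0 : ℝ), (V x : ℂ) * Complex.exp (-((ξ : ℂ) * Complex.I * x))) -
        Lp (fun p => Real.tanh p / Real.cosh p) ((ξ : ℂ) * Complex.I) := by
      unfold Lp
      rw [← integral_sub hVi hTi]
      refine integral_congr_ae (Eventually.of_forall fun x => ?_)
      simp only [hW]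
      push_cast
      ring
    rw [h3, hVtr ξ, ts_Lp _ hs0, hLp _ hs0]
    have hK0 := hN _ hs0
    simp only [Pi.zero_apply]
    field_simp
    ring
  have hF0 : F = 0 := by
    have h1 := Continuous.fourierInv_fourier_eq hFc hFi (by rw [hFtr]; exact integrable_zero _ _ _)
    rw [hFtr] at h1
    rw [← h1]
    funext x
    rw [Real.fourierInv_eq]
    simp
  intro q hq
  have h1 := congrFun hF0 q
  rw [hF] at h1
  simp only [if_pos hq, Pi.zero_apply] at h1
  have h2 : W q = 0 := by exact_mod_cast h1
  have h3 : V q - Real.tanh q / Real.cosh q = 0 := h2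
  have h4 : V q = Real.tanh q / Real.cosh q := by linarith
  exact h4

end

end Pool.Agent.R979.OC
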