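import Pool.Agent.R979.OC.Stm

namespace Pool.Agent.R979.OC

open MeasureTheory Set Filter Topology

namespace ZA

theorem K_real_bound (hFE : S_FE) {t : ℝ} (ht : 0 ≤ t) : ‖K (t : ℂ)‖ ≤ Real.pi / 2 := by
  have h0 := (hFE 0 (by simp) (by simp)).2
  simp only [neg_zero, mul_zero, zero_div, Complex.cos_zero, div_one] at h0
  have hK0 : K 0 = ((Real.pi / 2 : ℝ) : ℂ) := by
    push_cast
    linear_combination h0 / 2
  have hK0' : K 0 = ∫ r in Ioi (0 : ℝ), ((1 / Real.cosh r : ℝ) : ℂ) := by
    unfold K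
    congr 1
    funext r
    simp
  have hint : Integrable (fun r : ℝ => 1 / Real.cosh r) (volume.restrict (Ioi 0)) := by
    by_contra hne
    have h1 : ∫ r in Ioi (0 : ℝ), ((1 / Real.cosh r : ℝ) : ℂ) = 0 := by
      rw [integral_complex_ofReal, integral_undef hne]
      simp
    rw [← hK0', hK0] at h1
    have : Real.pi / 2 = 0 := by exact_mod_cast h1
    linarith [Real.pi_pos]
  have hval : ∫ r in Ioi (0 : ℝ), 1 / Real.cosh r = Real.pi / 2 := by
    rw [integral_complex_ofReal, hK0] at hK0'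
    exact_mod_cast hK0'.symm
  rw [← hval]
  unfold K
  apply norm_integral_le_of_norm_le hint
  rw [ae_restrict_iff' measurableSet_Ioi]
  refine Eventually.of_forall fun r hr => ?_
  have hr' : (0 : ℝ) < r := hr
  rw [norm_div, Complex.norm_exp, Complex.norm_real, Real.norm_eq_abs,
    abs_of_pos (Real.cosh_pos r)]
  have hc := Real.cosh_pos r
  gcongr
  rw [Real.exp_le_one_iff]
  simp
  positivity

theorem im_inv (z : ℂ) (j : ℕ) : (1 / (z - (j : ℂ))).im = -z.im / (((j : ℝ) - z.re) ^ 2 + z.im ^ 2) := by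
  rw [one_div, Complex.inv_im]
  congr 1
  · simp
  · rw [Complex.normSq_apply]
    simp
    ring

theorem gstar_ne {z : ℂ} (h2 : z.re ≤ 1 / 2) (hb : z.im ≠ 0) : gstar z ≠ 0 := by
  have hz0 : z ≠ 0 := by
    intro h; rw [h] at hb; simp at hb
  have hne : ∀ j : ℕ, z - (j : ℂ) ≠ 0 := by
    intro j h
    have := congrArg Complex.im h
    simp at this
    exact hb this
  set T : ℕ → ℂ := fun i => 1 / (z - ((2 * i : ℕ) : ℂ)) - 1 / (z - ((2 * i + 1 : ℕ) : ℂ)) with hT
  have hnorm : ∀ j : ℕ, (j : ℝ) - 1 / 2 ≤ ‖z - (j : ℂ)‖ := by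
    intro j
    have := Complex.abs_re_le_norm (z - (j : ℂ))
    simp only [Complex.sub_re, Complex.natCast_re] at this
    have h3 := neg_abs_le (z.re - j)
    linarith
  have hsum : Summable T := by
    apply Summable.of_norm_bounded_eventually_nat (g := fun i : ℕ => 1 / (i : ℝ) ^ 2)
      (Real.summable_one_div_nat_pow.2 (by norm_num))
    filter_upwards [eventually_ge_atTop 1] with i hi
    have hi' : (1 : ℝ) ≤ i := by exact_mod_cast hi
    have e1 : T i = -1 / ((z - ((2 * i : ℕ) : ℂ)) * (z - ((2 * i + 1 : ℕ) : ℂ))) := by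
      have a1 := hne (2 * i)
      have a2 := hne (2 * i + 1)
      simp only [hT]
      push_cast at a1 a2 ⊢
      field_simp
      ring
    rw [e1, norm_div, norm_neg, norm_one, norm_mul]
    have b1 := hnorm (2 * i)
    have b2 := hnorm (2 * i + 1)
    push_cast at b1 b2 ⊢
    have c1 : (i : ℝ) ≤ ‖z - 2 * (i : ℂ)‖ := by linarith
    have c2 : (i : ℝ) ≤ ‖z - (2 * (i : ℂ) + 1)‖ := by linarith
    have hi0 : (0 : ℝ) < i := by linarith
    rw [sq]
    gcongr
  set s : ℕ → ℝ := fun i => 1 / ((((2 * i : ℕ) : ℝ) - z.re) ^ 2 + z.im ^ 2) -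
    1 / ((((2 * i + 1 : ℕ) : ℝ) - z.re) ^ 2 + z.im ^ 2) with hs
  have him : ∀ i, (T i).im = -z.im * s i := by
    intro i
    simp only [hT, hs, Complex.sub_im, im_inv]
    ring
  have hims : HasSum (fun i => -z.im * s i) (∑' i, T i).im := by
    have := Complex.hasSum_im hsum.hasSum
    simpa only [him] using this
  have hb2 : 0 < z.im ^ 2 := by positivity
  have hs0 : ∀ i, 0 ≤ s i := by
    intro i
    simp only [hs]
    rw [sub_nonneg]
    apply one_div_le_one_div_of_le (by positivity)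
    push_cast
    have : (0 : ℝ) ≤ i := Nat.cast_nonneg i
    nlinarith
  have hs1 : 0 < s 1 := by
    simp only [hs]
    rw [sub_pos]
    apply one_div_lt_one_div_of_lt (by positivity)
    push_cast
    nlinarith
  have hss : Summable s := by
    have := hims.summable.mul_left (-z.im)⁻¹
    refine this.congr fun i => ?_
    field_simp
  have hpos : 0 < ∑' i, s i := hss.tsum_pos hs0 1 hs1
  have htot : (∑' i, T i).im = -z.im * ∑' i, s i := by
    rw [← hims.tsum_eq, tsum_mul_left]
  have hT0 : ∑' i, T i ≠ 0 := by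
    intro h
    rw [h] at htot
    simp only [Complex.zero_im] at htot
    rcases mul_eq_zero.1 htot.symm with h3 | h3
    · exact hb (neg_eq_zero.1 h3)
    · exact hpos.ne' h3
  unfold gstar
  have : (∑' i : ℕ, (1 / (z - (2 * i : ℕ)) - 1 / (z - (2 * i + 1 : ℕ)))) = ∑' i, T i := rfl
  rw [this]
  exact mul_ne_zero (mul_ne_zero two_ne_zero hz0) hT0

theorem sin_ne {z : ℂ} (hb : z.im ≠ 0) : Complex.sin (Real.pi * z) ≠ 0 := by
  intro h
  rw [Complex.sin_eq_zero_iff] at h
  obtain ⟨k, hk⟩ := h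
  have h2 := congrArg Complex.im hk
  simp [Real.pi_ne_zero] at h2
  exact hb h2

end ZA

open ZA in
theorem t_ZA (hGS : S_GS) (hFE : S_FE) : S_ZA := by
  intro u h0 h2 hD
  by_cases him : u.im = 0
  · have hu : u = ((u.re : ℝ) : ℂ) := Complex.ext rfl (by simp [him])
    have hKb := K_real_bound hFE h0
    rw [← hu] at hKb
    have hcos : ‖Complex.cos (Real.pi * u / 2)‖ ≤ 1 := by
      have e : (Real.pi : ℂ) * u / 2 = ((Real.pi * u.re / 2 : ℝ) : ℂ) := by
        rw [hu]; push_cast; simp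
      rw [e, ← Complex.ofReal_cos, Complex.norm_real]
      exact Real.abs_cos_le_one _
    unfold D at hD
    have h3 : (Real.pi : ℂ) = K u * Complex.cos (Real.pi * u / 2) := sub_eq_zero.1 hD
    have h4 := congrArg norm h3
    rw [norm_mul, Complex.norm_real, Real.norm_eq_abs, abs_of_pos Real.pi_pos] at h4
    have h5 : ‖K u‖ * ‖Complex.cos (Real.pi * u / 2)‖ ≤ Real.pi / 2 * 1 :=
      mul_le_mul hKb hcos (norm_nonneg _) (by positivity)
    have := Real.pi_pos
    linarith
  · set z : ℂ := (u - 1) / 2 with hz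
    have hzre : z.re = (u.re - 1) / 2 := by rw [hz]; simp
    have hzim : z.im = u.im / 2 := by rw [hz]; simp
    have hzi : z.im ≠ 0 := by rw [hzim]; exact div_ne_zero him two_ne_zero
    have h3 := hGS z (by rw [hzre]; linarith) (fun n hn => by
      rw [hn] at hzi; simp at hzi)
    have h4 : 2 * z + 1 = u := by rw [hz]; ring
    rw [h4, hD, mul_zero] at h3
    exact mul_ne_zero (gstar_ne (by rw [hzre]; linarith) hzi)
      (sin_ne hzi) h3

end Pool.Agent.R979.OC
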