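import Pool.Agent.R979.OC.Stm

/-!
# Project OC, piece ZB: the zeros of `D` in `2 ≤ Re u ≤ 4`

The unique zero in the upper half plane is the fixed point of a contraction.
-/

namespace Pool.Agent.R979.OC
namespace ZB

open MeasureTheory Set Filter Topology

noncomputable section

/-! ### Bounds of the Laplace transform -/

theorem e_int {r : ℝ} (hr : 0 < r) : IntegrableOn (fun s : ℝ => Real.exp (-(r * s))) (Ioi 0) ∧
    ∫ s in Ioi (0 : ℝ), Real.exp (-(r * s)) = 1 / r := by
  constructor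
  · have := integrableOn_exp_mul_Ioi (a := -r) (by linarith) 0
    simpa [neg_mul] using this
  · have := integral_exp_mul_Ioi (a := -r) (by linarith) 0
    simp only [neg_mul] at this
    rw [this]
    simp

theorem gam_int {r : ℝ} (hr : 0 < r) :
    IntegrableOn (fun s : ℝ => s * Real.exp (-(r * s))) (Ioi 0) ∧
    ∫ s in Ioi (0 : ℝ), s * Real.exp (-(r * s)) = 1 / r ^ 2 := by
  constructor
  · have h := integrableOn_rpow_mul_exp_neg_mul_rpow (s := 1) (p := 1) (b := r) (by norm_num)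
      (by norm_num) hr
    refine h.congr_fun ?_ measurableSet_Ioi
    intro s _
    simp only [Real.rpow_one]
    rw [neg_mul]
  · have h := Real.integral_rpow_mul_exp_neg_mul_Ioi (a := 2) (r := r) (by norm_num) hr
    have e : ∫ s in Ioi (0 : ℝ), s * Real.exp (-(r * s)) =
        ∫ t in Ioi (0 : ℝ), t ^ ((2 : ℝ) - 1) * Real.exp (-(r * t)) := by
      apply setIntegral_congr_fun measurableSet_Ioi
      intro s _
      simp only
      norm_num
    rw [e, h]
    have : Real.Gamma 2 = 1 := Real.Gamma_two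
    rw [this, mul_one]
    rw [show (2 : ℝ) = ((2 : ℕ) : ℝ) by norm_num, Real.rpow_natCast, one_div_pow]

theorem nexp (u : ℂ) (r : ℝ) : ‖Complex.exp (-(u * r))‖ = Real.exp (-(u.re * r)) := by
  rw [Complex.norm_exp]
  simp [Complex.mul_re]

/-- the integrand of `K` -/
def kf (u : ℂ) (r : ℝ) : ℂ := Complex.exp (-(u * r)) / (Real.cosh r : ℂ)

/-- the integrand of `1 - u K u` -/
def jf (u : ℂ) (r : ℝ) : ℂ := Complex.exp (-(u * r)) * ((Real.sinh r / Real.cosh r ^ 2 : ℝ) : ℂ)

theorem kf_cont (u : ℂ) : Continuous (kf u) := by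
  unfold kf
  apply Continuous.div
  · fun_prop
  · exact Complex.continuous_ofReal.comp Real.continuous_cosh
  · intro r
    exact_mod_cast (Real.cosh_pos r).ne'

theorem jf_cont (u : ℂ) : Continuous (jf u) := by
  unfold jf
  apply Continuous.mul
  · fun_prop
  · apply Complex.continuous_ofReal.comp
    apply Continuous.div Real.continuous_sinh (Real.continuous_cosh.pow 2)
    intro r
    exact pow_ne_zero 2 (Real.cosh_pos r).ne'

theorem kf_le (u : ℂ) (r : ℝ) : ‖kf u r‖ ≤ Real.exp (-(u.re * r)) := by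
  unfold kf
  rw [norm_div, nexp, Complex.norm_real, Real.norm_eq_abs, abs_of_pos (Real.cosh_pos r)]
  exact div_le_self (Real.exp_pos _).le (Real.one_le_cosh r)

theorem sinh_le (r : ℝ) (hr : 0 ≤ r) : Real.sinh r ≤ r * Real.cosh r := by
  have h1 : MonotoneOn (fun r : ℝ => r * Real.cosh r - Real.sinh r) (Ici 0) := by
    apply monotoneOn_of_deriv_nonneg (convex_Ici 0)
    · exact (Continuous.sub (continuous_id.mul Real.continuous_cosh)
        Real.continuous_sinh).continuousOn
    · intro x _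
      exact ((differentiableAt_id.mul Real.differentiable_cosh.differentiableAt).sub
        Real.differentiable_sinh.differentiableAt).differentiableWithinAt
    · intro x hx
      rw [interior_Ici] at hx
      have h : HasDerivAt (fun r : ℝ => r * Real.cosh r - Real.sinh r)
          (1 * Real.cosh x + x * Real.sinh x - Real.cosh x) x :=
        ((hasDerivAt_id x).mul (Real.hasDerivAt_cosh x)).sub (Real.hasDerivAt_sinh x)
      rw [h.deriv]
      have h2 : 0 < Real.sinh x := Real.sinh_pos_iff.2 hx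
      have h3 : 0 < x := hx
      nlinarith
  have h2 := h1 (mem_Ici.2 le_rfl) (mem_Ici.2 hr) hr
  simp at h2
  linarith

theorem jf_le (u : ℂ) (r : ℝ) (hr : 0 ≤ r) : ‖jf u r‖ ≤ r * Real.exp (-(u.re * r)) := by
  unfold jf
  rw [norm_mul, nexp, Complex.norm_real, Real.norm_eq_abs]
  have hc := Real.cosh_pos r
  have hc1 := Real.one_le_cosh r
  have hs : 0 ≤ Real.sinh r := Real.sinh_nonneg_iff.2 hr
  rw [abs_of_nonneg (by positivity)]
  have h : Real.sinh r / Real.cosh r ^ 2 ≤ r := by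
    rw [div_le_iff₀ (by positivity)]
    have := sinh_le r hr
    calc Real.sinh r ≤ r * Real.cosh r := this
      _ = r * Real.cosh r * 1 := by ring
      _ ≤ r * Real.cosh r * Real.cosh r := by gcongr
      _ = r * Real.cosh r ^ 2 := by ring
  have he := Real.exp_pos (-(u.re * r))
  nlinarith

theorem kf_int {u : ℂ} (hu : 0 < u.re) : IntegrableOn (kf u) (Ioi 0) := by
  refine Integrable.mono' (e_int hu).1 (kf_cont u).aestronglyMeasurable ?_
  filter_upwards with r
  exact kf_le u r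

theorem jf_int {u : ℂ} (hu : 0 < u.re) : IntegrableOn (jf u) (Ioi 0) := by
  refine Integrable.mono' (gam_int hu).1 (jf_cont u).aestronglyMeasurable ?_
  filter_upwards [ae_restrict_mem measurableSet_Ioi] with r hr
  exact jf_le u r (le_of_lt hr)

theorem K_le {u : ℂ} (hu : 0 < u.re) : ‖K u‖ ≤ 1 / u.re := by
  rw [← (e_int hu).2]
  unfold K
  refine norm_integral_le_of_norm_le (e_int hu).1 ?_
  filter_upwards with r
  exact kf_le u r

theorem J_le {u : ℂ} (hu : 0 < u.re) : ‖∫ r in Ioi (0 : ℝ), jf u r‖ ≤ 1 / u.re ^ 2 := by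
  rw [← (gam_int hu).2]
  refine norm_integral_le_of_norm_le (gam_int hu).1 ?_
  filter_upwards [ae_restrict_mem measurableSet_Ioi] with r hr
  exact jf_le u r (le_of_lt hr)

theorem parts {u : ℂ} (hu : 0 < u.re) : u * K u + ∫ r in Ioi (0 : ℝ), jf u r = 1 := by
  have h1 : ∀ r ∈ Ioi (0 : ℝ), HasDerivAt (fun r : ℝ => -kf u r) (u * kf u r + jf u r) r := by
    intro r _
    have hc := Real.cosh_pos r
    have hc' : (Real.cosh r : ℂ) ≠ 0 := by exact_mod_cast hc.ne'
    have e1 : HasDerivAt (fun r : ℝ => Complex.exp (-(u * r)))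
        (Complex.exp (-(u * r)) * (-u)) r := by
      have h0 : HasDerivAt (fun r : ℝ => -(u * (r : ℂ))) (-u) r := by
        have := ((Complex.ofRealCLM.hasDerivAt (x := r)).const_mul u).fun_neg
        simpa using this
      exact h0.cexp
    have e2 : HasDerivAt (fun r : ℝ => (Real.cosh r : ℂ)) (Real.sinh r : ℂ) r :=
      (Real.hasDerivAt_cosh r).ofReal_comp
    have e3 := (e1.div e2 hc').neg
    unfold kf
    refine e3.congr_deriv ?_
    unfold jf
    push_cast
    have hc2 : Complex.cosh (r : ℂ) ≠ 0 := by rw [← Complex.ofReal_cosh]; exact hc'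
    field_simp
    ring
  have h2 : Tendsto (fun r : ℝ => -kf u r) atTop (𝓝 0) := by
    rw [tendsto_zero_iff_norm_tendsto_zero]
    refine squeeze_zero (fun _ => norm_nonneg _) (fun r => ?_) (g := fun r => Real.exp (-(u.re * r))) ?_
    · rw [norm_neg]; exact kf_le u r
    · apply Real.tendsto_exp_neg_atTop_nhds_zero.comp
      exact tendsto_id.const_mul_atTop hu
  have h3 := integral_Ioi_of_hasDerivAt_of_tendsto ((kf_cont u).neg.continuousWithinAt) h1
    (((kf_int hu).const_mul u).add (jf_int hu)) h2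
  rw [integral_add ((kf_int hu).const_mul u) (jf_int hu), integral_const_mul] at h3
  have h4 : kf u 0 = 1 := by unfold kf; simp
  rw [Pi.neg_apply, h4] at h3
  unfold K
  have h5 : ∫ r in Ioi (0 : ℝ), Complex.exp (-(u * r)) / (Real.cosh r : ℂ) =
    ∫ r in Ioi (0 : ℝ), kf u r := rfl
  rw [h5, h3]
  norm_num

/-- the function `u K u` -/
def A (u : ℂ) : ℂ := u * K u

theorem A_le {u : ℂ} (hu : 0 < u.re) : ‖A u - 1‖ ≤ 1 / u.re ^ 2 := by
  have h := parts hu
  have e : A u - 1 = -∫ r in Ioi (0 : ℝ), jf u r := by unfold A; rw [← h]; ring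
  rw [e, norm_neg]
  exact J_le hu

theorem A_diff (hK : S_KD) {u : ℂ} (hu : 0 < u.re) : DifferentiableAt ℂ A u := by
  unfold A
  have h1 : DifferentiableAt ℂ K u := by
    apply (hK.1 u (by simp only [mem_ofPred_eq]; linarith)).differentiableAt
    apply (isOpen_lt continuous_const Complex.continuous_re).mem_nhds
    simp only [mem_ofPred_eq]; linarith
  exact differentiableAt_id.mul h1

theorem A_deriv (hK : S_KD) {u : ℂ} (hu : 2 ≤ u.re) : ‖deriv A u‖ ≤ 27 / 32 := by
  have h0 : deriv A u = deriv (fun z => A z - 1) u := by rw [deriv_sub_const]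
  rw [h0]
  have hre : ∀ z ∈ Metric.closedBall u (2 / 3), 4 / 3 ≤ z.re := by
    intro z hz
    rw [Metric.mem_closedBall, dist_eq_norm] at hz
    have := Complex.abs_re_le_norm (z - u)
    rw [Complex.sub_re] at this
    have h2 := abs_le.1 (this.trans hz)
    linarith [h2.1]
  have h := Complex.norm_deriv_le_of_forall_mem_sphere_norm_le (c := u) (R := 2 / 3) (C := 9 / 16)
    (f := fun z => A z - 1) (by norm_num) ?_ ?_
  · refine h.trans (by norm_num)
  · apply DifferentiableOn.diffContOnCl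
    rw [closure_ball u (by norm_num)]
    intro z hz
    have := hre z hz
    exact ((A_diff hK (by linarith)).sub_const 1).differentiableWithinAt
  · intro z hz
    have h2 := hre z (Metric.sphere_subset_closedBall hz)
    refine (A_le (by linarith)).trans ?_
    rw [div_le_iff₀ (by positivity)]
    nlinarith

/-! ### The contraction -/

/-- `exp (π i u)` -/
def E (u : ℂ) : ℂ := Complex.exp (Real.pi * Complex.I * u)

/-- the logarithm of `2 π u / (A u (1 + E u))` -/
def Lg (u : ℂ) : ℂ := (Real.log (2 * Real.pi) : ℂ) + Complex.log u - Complex.log (A u) -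
  Complex.log (1 + E u)

/-- the contraction -/
def Ph (u : ℂ) : ℂ := 4 + 2 * Complex.I / Real.pi * Lg u

/-- the domain of the contraction -/
def Om : Set ℂ := {u | 2 ≤ u.re ∧ u.re ≤ 21 / 5 ∧ 3 / 2 ≤ u.im}

theorem exp3 : Real.exp 3 ≤ 20.0856 ∧ 20.08 ≤ Real.exp 3 := by
  have e : Real.exp 3 = Real.exp 1 ^ 3 := by rw [← Real.exp_nat_mul]; norm_num
  have h1 := Real.exp_one_lt_d9
  have h2 := Real.exp_one_gt_d9
  rw [e]
  constructor
  · calc Real.exp 1 ^ 3 ≤ 2.7182818286 ^ 3 := by gcongr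
      _ ≤ _ := by norm_num
  · calc (20.08 : ℝ) ≤ 2.7182818283 ^ 3 := by norm_num
      _ ≤ _ := by gcongr

theorem nE (u : ℂ) : ‖E u‖ = Real.exp (-(Real.pi * u.im)) := by
  unfold E
  rw [Complex.norm_exp]
  simp [Complex.mul_re]

theorem E_le {u : ℂ} (h : 3 / 2 ≤ u.im) : ‖E u‖ ≤ 1 / 100 := by
  rw [nE]
  have hpi := Real.pi_gt_d2
  have h1 : Real.exp (-(Real.pi * u.im)) ≤ Real.exp (-(471 / 100)) := by
    apply Real.exp_le_exp.2; nlinarith
  refine h1.trans ?_
  rw [Real.exp_neg, inv_eq_one_div]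
  apply one_div_le_one_div_of_le (by norm_num)
  have e : Real.exp (471 / 100) = Real.exp 3 * Real.exp (171 / 100) := by
    rw [← Real.exp_add]; norm_num
  rw [e]
  have h2 := Real.quadratic_le_exp_of_nonneg (x := 171 / 100) (by norm_num)
  have h3 := exp3.2
  have h4 : (5 : ℝ) ≤ Real.exp (171 / 100) := by
    have e5 : Real.exp (171 / 100) = Real.exp 1 * Real.exp (71 / 100) := by
      rw [← Real.exp_add]; norm_num
    have h6 := Real.quadratic_le_exp_of_nonneg (x := 71 / 100) (by norm_num)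
    have h7 := Real.exp_one_gt_d9
    rw [e5]
    nlinarith
  nlinarith

theorem log_bd {z : ℂ} {c : ℝ} (hc : c < 1) (h : ‖z - 1‖ ≤ c) :
    ‖Complex.log z‖ ≤ c ^ 2 * (1 - c)⁻¹ / 2 + c := by
  have h0 := norm_nonneg (z - 1)
  have h1 := Complex.norm_log_one_add_le (z := z - 1) (by linarith)
  rw [add_sub_cancel] at h1
  refine h1.trans ?_
  have h2 : 0 < 1 - c := by linarith
  have h3 : 1 - c ≤ 1 - ‖z - 1‖ := by linarith
  have h4 : 0 ≤ (1 - ‖z - 1‖)⁻¹ := inv_nonneg.2 (by linarith)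
  gcongr

theorem A_one {u : ℂ} (h : 2 ≤ u.re) : ‖A u - 1‖ ≤ 1 / 4 := by
  refine (A_le (by linarith)).trans ?_
  rw [div_le_iff₀ (by positivity)]
  nlinarith

theorem logA {u : ℂ} (h : 2 ≤ u.re) : ‖Complex.log (A u)‖ ≤ 7 / 24 := by
  refine (log_bd (c := 1 / 4) (by norm_num) (A_one h)).trans (by norm_num)

theorem logE {u : ℂ} (h : 3 / 2 ≤ u.im) : ‖Complex.log (1 + E u)‖ ≤ 101 / 10000 := by
  refine (log_bd (c := 1 / 100) (by norm_num) ?_).trans (by norm_num)
  rw [add_sub_cancel_left]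
  exact E_le h

theorem A_re {u : ℂ} (h : 2 ≤ u.re) : 3 / 4 ≤ (A u).re := by
  have h1 := Complex.abs_re_le_norm (A u - 1)
  have h2 := abs_le.1 (h1.trans (A_one h))
  rw [Complex.sub_re, Complex.one_re] at h2
  linarith [h2.1]

theorem E_re {u : ℂ} (h : 3 / 2 ≤ u.im) : 99 / 100 ≤ (1 + E u).re := by
  have h1 := Complex.abs_re_le_norm (E u)
  have h2 := abs_le.1 (h1.trans (E_le h))
  rw [Complex.add_re, Complex.one_re]
  linarith [h2.1]

theorem slit {z : ℂ} (h : 0 < z.re) : z ∈ Complex.slitPlane := Or.inl h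

theorem ne_re {z : ℂ} (h : 0 < z.re) : z ≠ 0 := by
  intro h0; rw [h0] at h; simp at h

theorem exp_Lg {u : ℂ} (hu : u ∈ Om) :
    Complex.exp (Lg u) = 2 * Real.pi * u / (A u * (1 + E u)) := by
  obtain ⟨h1, -, h3⟩ := hu
  have a0 : A u ≠ 0 := ne_re (by have := A_re h1; linarith)
  have e0 : 1 + E u ≠ 0 := ne_re (by have := E_re h3; linarith)
  have u0 : u ≠ 0 := ne_re (by linarith)
  unfold Lg
  rw [Complex.exp_sub, Complex.exp_sub, Complex.exp_add, Complex.exp_log a0, Complex.exp_log e0,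
    Complex.exp_log u0, ← Complex.ofReal_exp, Real.exp_log (by positivity)]
  push_cast
  field_simp

theorem key {u : ℂ} (hu : u ∈ Om) :
    D u = Real.pi * (1 - Complex.exp (-(Real.pi * Complex.I / 2) * (u - Ph u))) := by
  have hL := exp_Lg hu
  obtain ⟨h1, -, h3⟩ := hu
  have a0 : A u ≠ 0 := ne_re (by have := A_re h1; linarith)
  have e0 : 1 + E u ≠ 0 := ne_re (by have := E_re h3; linarith)
  have u0 : u ≠ 0 := ne_re (by linarith)
  have pi0 : (Real.pi : ℂ) ≠ 0 := by exact_mod_cast Real.pi_pos.ne'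
  have e1 : -(Real.pi * Complex.I / 2) * (u - Ph u) =
      -(Real.pi * u / 2 * Complex.I) + 2 * Real.pi * Complex.I + -Lg u := by
    unfold Ph
    field_simp
    ring_nf
    rw [Complex.I_sq]
    ring
  rw [e1, Complex.exp_add, Complex.exp_add, Complex.exp_two_pi_mul_I, Complex.exp_neg (Lg u), hL]
  unfold D
  have e2 : E u = Complex.exp (Real.pi * u / 2 * Complex.I) ^ 2 := by
    unfold E
    rw [← Complex.exp_nat_mul]
    congr 1
    push_cast
    ring
  rw [Complex.cos, neg_mul]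
  have e3 : Complex.exp (-(Real.pi * u / 2 * Complex.I)) =
    (Complex.exp (Real.pi * u / 2 * Complex.I))⁻¹ := Complex.exp_neg _
  rw [e3]
  have x0 : Complex.exp (Real.pi * u / 2 * Complex.I) ≠ 0 := Complex.exp_ne_zero _
  rw [e2]
  unfold A
  rw [e2] at e0
  unfold A at a0
  set X := Complex.exp (Real.pi * u / 2 * Complex.I)
  field_simp
  ring

/-- the derivative of the contraction -/
def Ph' (u : ℂ) : ℂ := 2 * Complex.I / Real.pi * (1 / u - deriv A u / A u -
  (E u * (Real.pi * Complex.I)) / (1 + E u))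

theorem Ph_deriv (hK : S_KD) {u : ℂ} (h1 : 2 ≤ u.re) (h3 : 3 / 2 ≤ u.im) :
    HasDerivAt Ph (Ph' u) u := by
  have a0 := A_re h1
  have e0 := E_re h3
  have d1 : HasDerivAt Complex.log (1 / u) u := by
    rw [one_div]; exact Complex.hasDerivAt_log (slit (by linarith))
  have d2 : HasDerivAt (fun z => Complex.log (A z)) (deriv A u / A u) u :=
    (A_diff hK (by linarith)).hasDerivAt.clog (slit (by linarith))
  have d3 : HasDerivAt E (E u * (Real.pi * Complex.I)) u := by
    unfold E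
    have h0 : HasDerivAt (fun z : ℂ => Real.pi * Complex.I * z) (Real.pi * Complex.I) u := by
      simpa using (hasDerivAt_id u).const_mul (Real.pi * Complex.I)
    exact h0.cexp
  have d4 : HasDerivAt (fun z => Complex.log (1 + E z)) ((E u * (Real.pi * Complex.I)) / (1 + E u)) u :=
    (d3.const_add 1).clog (slit (by linarith))
  have d5 := ((d1.const_add (Real.log (2 * Real.pi) : ℂ)).sub d2).sub d4
  have d6 := (d5.const_mul (2 * Complex.I / Real.pi)).const_add 4
  exact d6

theorem norm_ge {u : ℂ} (h1 : 2 ≤ u.re) (h3 : 3 / 2 ≤ u.im) : 5 / 2 ≤ ‖u‖ := by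
  rw [Complex.norm_def]
  apply Real.le_sqrt_of_sq_le
  rw [Complex.normSq_apply]
  nlinarith

theorem Ph'_le (hK : S_KD) {u : ℂ} (h1 : 2 ≤ u.re) (h3 : 3 / 2 ≤ u.im) :
    ‖Ph' u‖ ≤ 199 / 200 := by
  have hpi := Real.pi_gt_d4
  have hpi2 := Real.pi_lt_d4
  have hpi0 := Real.pi_pos
  unfold Ph'
  rw [norm_mul, norm_div, norm_mul, Complex.norm_I, mul_one, Complex.norm_real, Real.norm_eq_abs,
    abs_of_pos Real.pi_pos]
  have hn := norm_ge h1 h3
  have t1 : ‖1 / u‖ ≤ 2 / 5 := by
    rw [norm_div, norm_one]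
    rw [div_le_iff₀ (by linarith)]
    linarith
  have t2 : ‖deriv A u / A u‖ ≤ 9 / 8 := by
    rw [norm_div]
    have h4 : 3 / 4 ≤ ‖A u‖ := (A_re h1).trans (Complex.re_le_norm _)
    rw [div_le_iff₀ (by linarith)]
    have := A_deriv hK h1
    linarith
  have t3 : ‖(E u * (Real.pi * Complex.I)) / (1 + E u)‖ ≤ 318 / 10000 := by
    rw [norm_div, norm_mul, norm_mul, Complex.norm_I, mul_one, Complex.norm_real,
      Real.norm_eq_abs, abs_of_pos Real.pi_pos]
    have h4 : 99 / 100 ≤ ‖1 + E u‖ := (E_re h3).trans (Complex.re_le_norm _)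
    rw [div_le_iff₀ (by linarith)]
    have h5 := E_le h3
    have h6 := norm_nonneg (E u)
    nlinarith
  have t4 : ‖1 / u - deriv A u / A u - (E u * (Real.pi * Complex.I)) / (1 + E u)‖ ≤
      2 / 5 + 9 / 8 + 318 / 10000 := by
    refine (norm_sub_le _ _).trans ?_
    have := norm_sub_le (1 / u) (deriv A u / A u)
    linarith
  have t5 : ‖(2 : ℂ)‖ / Real.pi ≤ 2 / 3.1415 := by
    rw [Complex.norm_ofNat]
    apply div_le_div_of_nonneg_left (by norm_num) (by norm_num) hpi.le
  calc ‖(2 : ℂ)‖ / Real.pi * ‖1 / u - deriv A u / A u - (E u * (Real.pi * Complex.I)) / (1 + E u)‖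
      ≤ 2 / 3.1415 * (2 / 5 + 9 / 8 + 318 / 10000) := by gcongr
    _ ≤ 199 / 200 := by norm_num

theorem Om_conv : Convex ℝ Om := by
  intro x hx y hy a b ha hb hab
  obtain ⟨x1, x2, x3⟩ := hx
  obtain ⟨y1, y2, y3⟩ := hy
  refine ⟨?_, ?_, ?_⟩ <;>
  · simp only [Complex.add_re, Complex.real_smul, Complex.mul_re, Complex.ofReal_re,
      Complex.ofReal_im, zero_mul, sub_zero, Complex.add_im, Complex.mul_im, add_zero]
    nlinarith

theorem lip (hK : S_KD) {u v : ℂ} (hu : u ∈ Om) (hv : v ∈ Om) :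
    ‖Ph v - Ph u‖ ≤ 199 / 200 * ‖v - u‖ :=
  Convex.norm_image_sub_le_of_norm_hasDerivWithin_le (f' := Ph')
    (fun _ hx => (Ph_deriv hK hx.1 hx.2.2).hasDerivWithinAt) (fun _ hx => Ph'_le hK hx.1 hx.2.2)
    Om_conv hu hv

theorem fix_unique (hK : S_KD) {u v : ℂ} (hu : u ∈ Om) (hv : v ∈ Om) (h1 : Ph u = u)
    (h2 : Ph v = v) : v = u := by
  have h := lip hK hu hv
  rw [h1, h2] at h
  have h3 := norm_nonneg (v - u)
  have h4 : ‖v - u‖ = 0 := by linarith
  exact sub_eq_zero.1 (norm_eq_zero.1 h4)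

/-! ### Bounds of the contraction -/

theorem Ph_re (u : ℂ) : (Ph u).re = 4 - 2 / Real.pi * (Lg u).im := by
  unfold Ph
  have e : (2 * Complex.I / Real.pi * Lg u : ℂ) = ((2 / Real.pi : ℝ) : ℂ) * (Complex.I * Lg u) := by
    push_cast; ring
  rw [e, Complex.add_re, Complex.re_ofReal_mul]
  simp [Complex.mul_re]
  ring

theorem Ph_im (u : ℂ) : (Ph u).im = 2 / Real.pi * (Lg u).re := by
  unfold Ph
  have e : (2 * Complex.I / Real.pi * Lg u : ℂ) = ((2 / Real.pi : ℝ) : ℂ) * (Complex.I * Lg u) := by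
    push_cast; ring
  rw [e, Complex.add_im, Complex.im_ofReal_mul]
  simp [Complex.mul_im]

theorem Lg_im {u : ℂ} (h1 : 2 ≤ u.re) (h3 : 3 / 2 ≤ u.im) :
    |(Lg u).im - u.arg| ≤ 302 / 1000 := by
  have a := (Complex.abs_im_le_norm _).trans (logA h1)
  have b := (Complex.abs_im_le_norm _).trans (logE h3)
  have e : (Lg u).im - u.arg = -(Complex.log (A u)).im - (Complex.log (1 + E u)).im := by
    unfold Lg
    rw [Complex.sub_im, Complex.sub_im, Complex.add_im, Complex.ofReal_im, Complex.log_im u]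
    ring
  rw [e]
  have a' := abs_le.1 a
  have b' := abs_le.1 b
  rw [abs_le]
  constructor <;> linarith [a'.1, a'.2, b'.1, b'.2]

theorem Lg_re {u : ℂ} (h1 : 2 ≤ u.re) (h3 : 3 / 2 ≤ u.im) :
    |(Lg u).re - Real.log (2 * Real.pi * ‖u‖)| ≤ 302 / 1000 := by
  have a := (Complex.abs_re_le_norm _).trans (logA h1)
  have b := (Complex.abs_re_le_norm _).trans (logE h3)
  have hn := norm_ge h1 h3
  have e : (Lg u).re - Real.log (2 * Real.pi * ‖u‖) =
      -(Complex.log (A u)).re - (Complex.log (1 + E u)).re := by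
    have e1 : Real.log (2 * Real.pi * ‖u‖) = Real.log (2 * Real.pi) + Real.log ‖u‖ :=
      Real.log_mul (by positivity) (by positivity)
    unfold Lg
    rw [Complex.sub_re, Complex.sub_re, Complex.add_re, Complex.ofReal_re, Complex.log_re u, e1]
    ring
  rw [e]
  have a' := abs_le.1 a
  have b' := abs_le.1 b
  rw [abs_le]
  constructor <;> linarith [a'.1, a'.2, b'.1, b'.2]

theorem arg_bd {u : ℂ} (h1 : 2 ≤ u.re) (h3 : 3 / 2 ≤ u.im) :
    u.im / ‖u‖ ≤ u.arg ∧ u.arg ≤ Real.pi / 2 - u.re / ‖u‖ ∧ 0 < u.arg := by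
  have u0 : u ≠ 0 := ne_re (by linarith)
  have hn := norm_ge h1 h3
  have hs : Real.sin u.arg = u.im / ‖u‖ := Complex.sin_arg u
  have hc : Real.cos u.arg = u.re / ‖u‖ := Complex.cos_arg u0
  have h0 : 0 ≤ u.arg := Complex.arg_nonneg_iff.2 (by linarith)
  have h4 : |u.arg| < Real.pi / 2 := Complex.abs_arg_lt_pi_div_two_iff.2 (Or.inl (by linarith))
  have h5 := (abs_lt.1 h4).2
  have s1 := Real.sin_le h0
  have s2 := Real.sin_le (x := Real.pi / 2 - u.arg) (by linarith)
  rw [Real.sin_pi_div_two_sub] at s2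
  have s3 : 0 < u.im / ‖u‖ := div_pos (by linarith) (by linarith)
  refine ⟨by linarith, by linarith, by linarith⟩

theorem Ph_re_bd {u : ℂ} (h1 : 2 ≤ u.re) (h3 : 3 / 2 ≤ u.im) :
    28 / 10 ≤ (Ph u).re ∧ (Ph u).re ≤ 42 / 10 := by
  rw [Ph_re]
  have a := abs_le.1 (Lg_im h1 h3)
  obtain ⟨-, b1, b2⟩ := arg_bd h1 h3
  have hn := norm_ge h1 h3
  have b3 : 0 ≤ u.re / ‖u‖ := by positivity
  have hpi := Real.pi_gt_d2
  have hpi0 := Real.pi_pos
  have e : 2 / Real.pi * (Lg u).im = 2 * (Lg u).im / Real.pi := by ring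
  rw [e]
  constructor
  · have : 2 * (Lg u).im / Real.pi ≤ 12 / 10 := by
      rw [div_le_iff₀ hpi0]; linarith [a.2]
    linarith
  · have : -(2 / 10) ≤ 2 * (Lg u).im / Real.pi := by
      rw [le_div_iff₀ hpi0]; linarith [a.1]
    linarith

/-- the smaller domain -/
def Q : Set ℂ := {u | 28 / 10 ≤ u.re ∧ u.re ≤ 42 / 10 ∧ 3 / 2 ≤ u.im ∧ u.im ≤ 3}

theorem Q_sub : Q ⊆ Om := by
  intro u hu
  exact ⟨by linarith [hu.1], by linarith [hu.2.1], hu.2.2.1⟩

theorem norm_bd {u : ℂ} (hu : u ∈ Q) : 317 / 100 ≤ ‖u‖ ∧ ‖u‖ ≤ 517 / 100 := by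
  obtain ⟨h1, h2, h3, h4⟩ := hu
  rw [Complex.norm_def]
  constructor
  · apply Real.le_sqrt_of_sq_le
    rw [Complex.normSq_apply]
    nlinarith
  · apply Real.sqrt_le_iff.2
    refine ⟨by norm_num, ?_⟩
    rw [Complex.normSq_apply]
    nlinarith

theorem Ph_im_bd {u : ℂ} (hu : u ∈ Q) : 165 / 100 ≤ (Ph u).im ∧ (Ph u).im ≤ 26 / 10 := by
  obtain ⟨n1, n2⟩ := norm_bd hu
  have hO := Q_sub hu
  have a := abs_le.1 (Lg_re hO.1 hO.2.2)
  have hpi := Real.pi_gt_d4
  have hpi2 := Real.pi_lt_d4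
  have hpi0 := Real.pi_pos
  have l1 : 29 / 10 ≤ Real.log (2 * Real.pi * ‖u‖) := by
    rw [Real.le_log_iff_exp_le (by positivity)]
    have e : Real.exp (29 / 10) = Real.exp 3 * Real.exp (-(1 / 10)) := by
      rw [← Real.exp_add]; norm_num
    have e2 : Real.exp (-(1 / 10)) ≤ 10 / 11 := by
      rw [Real.exp_neg, inv_eq_one_div, div_le_div_iff₀ (Real.exp_pos _) (by norm_num)]
      have := Real.add_one_le_exp (1 / 10 : ℝ)
      linarith
    have e3 := exp3.1
    have e4 := Real.exp_pos (-(1 / 10) : ℝ)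
    rw [e]
    calc Real.exp 3 * Real.exp (-(1 / 10)) ≤ 20.0856 * (10 / 11) := by gcongr
      _ ≤ 2 * 3.1415 * (317 / 100) := by norm_num
      _ ≤ 2 * Real.pi * ‖u‖ := by gcongr
  have l2 : Real.log (2 * Real.pi * ‖u‖) ≤ 378 / 100 := by
    rw [Real.log_le_iff_le_exp (by positivity)]
    have e : Real.exp (378 / 100) = Real.exp 3 * Real.exp (78 / 100) := by
      rw [← Real.exp_add]; norm_num
    have e2 := Real.add_one_le_exp (78 / 100 : ℝ)
    have e3 := exp3.2
    rw [e]
    calc 2 * Real.pi * ‖u‖ ≤ 2 * 3.1416 * (517 / 100) := by gcongr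
      _ ≤ 20.08 * (178 / 100) := by norm_num
      _ ≤ Real.exp 3 * Real.exp (78 / 100) := by
          apply mul_le_mul e3 (by linarith) (by norm_num) (by positivity)
  rw [Ph_im]
  have e : 2 / Real.pi * (Lg u).re = 2 * (Lg u).re / Real.pi := by ring
  rw [e]
  constructor
  · rw [le_div_iff₀ hpi0]; linarith [a.1]
  · rw [div_le_iff₀ hpi0]; linarith [a.2]

theorem Ph_maps : MapsTo Ph Q Q := by
  intro u hu
  have hO := Q_sub hu
  have a := Ph_re_bd hO.1 hO.2.2
  have b := Ph_im_bd hu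
  exact ⟨a.1, a.2, by linarith [b.1], by linarith [b.2]⟩

theorem Q_closed : IsClosed Q := by
  have h1 : IsClosed {u : ℂ | 28 / 10 ≤ u.re} := isClosed_le continuous_const Complex.continuous_re
  have h2 : IsClosed {u : ℂ | u.re ≤ 42 / 10} := isClosed_le Complex.continuous_re continuous_const
  have h3 : IsClosed {u : ℂ | 3 / 2 ≤ u.im} := isClosed_le continuous_const Complex.continuous_im
  have h4 : IsClosed {u : ℂ | u.im ≤ 3} := isClosed_le Complex.continuous_im continuous_const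
  exact h1.inter (h2.inter (h3.inter h4))

theorem exists_fix (hK : S_KD) : ∃ a ∈ Q, Ph a = a := by
  have hc : ContractingWith (199 / 200 : NNReal) (Ph_maps.restrict Ph Q Q) := by
    refine ⟨by rw [div_lt_one (by norm_num)]; norm_num, ?_⟩
    apply LipschitzWith.of_dist_le_mul
    intro x y
    rw [Subtype.dist_eq, Subtype.dist_eq, dist_eq_norm, dist_eq_norm]
    have h := lip hK (Q_sub y.2) (Q_sub x.2)
    simpa using h
  have hx : (3 + 2 * Complex.I : ℂ) ∈ Q := by
    refine ⟨?_, ?_, ?_, ?_⟩ <;> simp <;> norm_num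
  obtain ⟨y, hy, hfy, -⟩ := ContractingWith.exists_fixedPoint' Q_closed.isComplete Ph_maps hc hx
    (edist_ne_top _ _)
  exact ⟨y, hy, hfy⟩

/-! ### Zeros of `D` -/

theorem zero_iff {u : ℂ} (h1 : 2 ≤ u.re) (h2 : u.re ≤ 4) (h3 : 3 / 2 ≤ u.im) (hD : D u = 0) :
    Ph u = u := by
  have hO : u ∈ Om := ⟨h1, by linarith, h3⟩
  rw [key hO] at hD
  have pi0 : (Real.pi : ℂ) ≠ 0 := by exact_mod_cast Real.pi_pos.ne'
  have h4 : Complex.exp (-(Real.pi * Complex.I / 2) * (u - Ph u)) = 1 := by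
    rcases mul_eq_zero.1 hD with h | h
    · exact absurd h pi0
    · exact (sub_eq_zero.1 h).symm
  obtain ⟨n, hn⟩ := Complex.exp_eq_one_iff.1 h4
  have h5 : u - Ph u = -(4 * n) := by
    have hne : (Real.pi * Complex.I / 2 : ℂ) ≠ 0 := by
      simp [Complex.I_ne_zero, Real.pi_ne_zero]
    apply mul_left_cancel₀ hne
    linear_combination -hn
  have h6 := congrArg Complex.re h5
  rw [Complex.sub_re] at h6
  simp at h6
  have h7 := Ph_re_bd h1 h3
  have h8 : n = 0 := by
    have a1 : (-1 : ℝ) < n := by linarith [h7.1, h7.2]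
    have a2 : (n : ℝ) < 1 := by linarith [h7.1, h7.2]
    have a3 : -1 < n := by exact_mod_cast a1
    have a4 : n < 1 := by exact_mod_cast a2
    omega
  rw [h8] at h5
  simp at h5
  exact (sub_eq_zero.1 h5).symm

theorem im_ge {u : ℂ} (h1 : 2 ≤ u.re) (h3 : 0 ≤ u.im) (hD : D u = 0) : 3 / 2 ≤ u.im := by
  by_contra hcon
  push Not at hcon
  have hpi := Real.pi_gt_d4
  have hpi2 := Real.pi_lt_d4
  have hk : ‖K u‖ ≤ 1 / 2 := by
    refine (K_le (by linarith)).trans ?_
    exact one_div_le_one_div_of_le (by norm_num) h1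
  have hc : ‖Complex.cos (Real.pi * u / 2)‖ ≤ 625 / 100 := by
    rw [Complex.cos, norm_div, Complex.norm_ofNat]
    have n1 : ‖Complex.exp (Real.pi * u / 2 * Complex.I)‖ ≤ 1 := by
      rw [Complex.norm_exp]
      have e : (Real.pi * u / 2 * Complex.I).re = -(Real.pi * u.im / 2) := by
        have : (Real.pi * u / 2 * Complex.I : ℂ) = ((Real.pi / 2 : ℝ) : ℂ) * (u * Complex.I) := by
          push_cast; ring
        rw [this, Complex.re_ofReal_mul]
        simp [Complex.mul_re]
        ring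
      rw [e]
      apply Real.exp_le_one_iff.2
      have : 0 ≤ Real.pi * u.im / 2 := by positivity
      linarith
    have n2 : ‖Complex.exp (-(Real.pi * u / 2) * Complex.I)‖ ≤ 1148 / 100 := by
      rw [Complex.norm_exp]
      have e : (-(Real.pi * u / 2) * Complex.I).re = Real.pi * u.im / 2 := by
        have : (-(Real.pi * u / 2) * Complex.I : ℂ) =
            ((Real.pi / 2 : ℝ) : ℂ) * (-(u * Complex.I)) := by
          push_cast; ring
        rw [this, Complex.re_ofReal_mul]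
        simp [Complex.mul_re]
        ring
      rw [e]
      have h5 : Real.exp (Real.pi * u.im / 2) ≤ Real.exp (23562 / 10000) := by
        apply Real.exp_le_exp.2; nlinarith
      refine h5.trans ?_
      have e2 : Real.exp (23562 / 10000) = Real.exp 1 ^ 2 * Real.exp (3562 / 10000) := by
        rw [← Real.exp_nat_mul, ← Real.exp_add]; norm_num
      have e3 : Real.exp (3562 / 10000) ≤ 10000 / 6438 := by
        have h6 := Real.add_one_le_exp (-(3562 / 10000) : ℝ)
        rw [Real.exp_neg] at h6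
        have h7 := Real.exp_pos (3562 / 10000 : ℝ)
        rw [inv_eq_one_div, le_div_iff₀ h7] at h6
        rw [le_div_iff₀ (by norm_num)]
        linarith
      have e4 := Real.exp_one_lt_d9
      rw [e2]
      calc Real.exp 1 ^ 2 * Real.exp (3562 / 10000) ≤ 2.7182818286 ^ 2 * (10000 / 6438) := by gcongr
        _ ≤ _ := by norm_num
    have n3 := norm_add_le (Complex.exp (Real.pi * u / 2 * Complex.I))
      (Complex.exp (-(Real.pi * u / 2) * Complex.I))
    rw [div_le_iff₀ (by norm_num)]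
    linarith
  have h4 : K u * Complex.cos (Real.pi * u / 2) = Real.pi := by
    unfold D at hD
    exact (sub_eq_zero.1 hD).symm
  have h5 : Real.pi = ‖K u‖ * ‖Complex.cos (Real.pi * u / 2)‖ := by
    rw [← norm_mul, h4, Complex.norm_real, Real.norm_eq_abs, abs_of_pos Real.pi_pos]
  have h6 : ‖K u‖ * ‖Complex.cos (Real.pi * u / 2)‖ ≤ 1 / 2 * (625 / 100) := by gcongr
  linarith

theorem D_conj (hK : S_KD) {u : ℂ} (hu : -1 < u.re) :
    D ((starRingEnd ℂ) u) = (starRingEnd ℂ) (D u) := by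
  unfold D
  have e : (starRingEnd ℂ) (Real.pi * u / 2) = Real.pi * (starRingEnd ℂ) u / 2 := by
    rw [map_div₀, map_mul, Complex.conj_ofReal, map_ofNat]
  rw [hK.2 u hu, map_sub, map_mul, ← Complex.cos_conj, e, Complex.conj_ofReal]

end

end ZB

open ZB in
theorem t_ZB (hK : S_KD) : S_ZB := by
  obtain ⟨a, ha, hfa⟩ := exists_fix hK
  have haO := Q_sub ha
  have him := Ph_im_bd ha
  rw [hfa] at him
  obtain ⟨q1, q2, q3, q4⟩ := ha
  obtain ⟨i1, i2⟩ := him
  have hpi := Real.pi_gt_d4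
  have hpi0 := Real.pi_pos
  have hn1 : ‖a‖ ≤ 494 / 100 := by
    rw [Complex.norm_def]
    apply Real.sqrt_le_iff.2
    refine ⟨by norm_num, ?_⟩
    rw [Complex.normSq_apply]
    nlinarith
  have hn0 := norm_ge haO.1 haO.2.2
  have b1 : 33 / 100 ≤ a.im / ‖a‖ := by rw [le_div_iff₀ (by linarith)]; linarith
  have b2 : 56 / 100 ≤ a.re / ‖a‖ := by rw [le_div_iff₀ (by linarith)]; linarith
  obtain ⟨c1, c2, -⟩ := arg_bd haO.1 haO.2.2
  have d := abs_le.1 (Lg_im haO.1 haO.2.2)
  have hre := Ph_re a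
  rw [hfa] at hre
  have e : 2 / Real.pi * (Lg a).im = 2 * (Lg a).im / Real.pi := by ring
  rw [e] at hre
  have r1 : 2 * (Lg a).im / Real.pi < 1 := by
    rw [div_lt_one hpi0]; linarith [d.2]
  have r2 : 0 < 2 * (Lg a).im / Real.pi := by
    apply div_pos _ hpi0; linarith [d.1]
  have hre3 : 3 < a.re := by linarith
  have hre4 : a.re < 4 := by linarith
  have pi0 : (Real.pi : ℂ) ≠ 0 := by exact_mod_cast Real.pi_pos.ne'
  refine ⟨a, hre3, hre4, by linarith, ?_, ?_, ?_⟩
  · rw [key haO, hfa]; simp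
  · have hev : D =ᶠ[nhds a] fun u =>
        Real.pi * (1 - Complex.exp (-(Real.pi * Complex.I / 2) * (u - Ph u))) := by
      have o1 : IsOpen {u : ℂ | 2 < u.re ∧ u.re < 21 / 5 ∧ 3 / 2 < u.im} := by
        have h1 : IsOpen {u : ℂ | 2 < u.re} := isOpen_lt continuous_const Complex.continuous_re
        have h2 : IsOpen {u : ℂ | u.re < 21 / 5} := isOpen_lt Complex.continuous_re continuous_const
        have h3 : IsOpen {u : ℂ | 3 / 2 < u.im} := isOpen_lt continuous_const Complex.continuous_im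
        exact h1.inter (h2.inter h3)
      filter_upwards [o1.mem_nhds (show a ∈ {u : ℂ | 2 < u.re ∧ u.re < 21 / 5 ∧ 3 / 2 < u.im} from
        ⟨by linarith, by linarith, by linarith⟩)] with u hu
      exact key ⟨hu.1.le, hu.2.1.le, hu.2.2.le⟩
    rw [hev.deriv_eq]
    have d1 := Ph_deriv hK haO.1 haO.2.2
    have d2 : HasDerivAt (fun u : ℂ => -(Real.pi * Complex.I / 2) * (u - Ph u))
        (-(Real.pi * Complex.I / 2) * (1 - Ph' a)) a :=
      ((hasDerivAt_id a).sub d1).const_mul _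
    have d3 := (d2.cexp.const_sub 1).const_mul (Real.pi : ℂ)
    rw [d3.deriv, hfa]
    have hP := Ph'_le hK haO.1 haO.2.2
    have hne : 1 - Ph' a ≠ 0 := by
      intro h0
      have h1 : Ph' a = 1 := (sub_eq_zero.1 h0).symm
      rw [h1, norm_one] at hP
      norm_num at hP
    simp only [sub_self, mul_zero, Complex.exp_zero, one_mul]
    simp [Real.pi_ne_zero, Complex.I_ne_zero, hne]
  · intro u h1 h2 hD
    rcases le_or_gt 0 u.im with h3 | h3
    · left
      have h4 := im_ge h1 h3 hD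
      exact fix_unique hK haO ⟨h1, by linarith, h4⟩ hfa (zero_iff h1 h2 h4 hD)
    · right
      have hD' : D ((starRingEnd ℂ) u) = 0 := by
        rw [D_conj hK (by linarith), hD, map_zero]
      have e1 : ((starRingEnd ℂ) u).re = u.re := Complex.conj_re u
      have e2 : ((starRingEnd ℂ) u).im = -u.im := Complex.conj_im u
      have h4 := im_ge (u := (starRingEnd ℂ) u) (by rw [e1]; exact h1) (by rw [e2]; linarith) hD'
      have h5 := fix_unique hK haO (v := (starRingEnd ℂ) u)
        ⟨by rw [e1]; exact h1, by rw [e1]; linarith, h4⟩ hfa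
        (zero_iff (by rw [e1]; exact h1) (by rw [e1]; exact h2) h4 hD')
      rw [← h5, Complex.conj_conj]

end Pool.Agent.R979.OC
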